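import Pool.Agent.H6.ST.SK.Defs
import Pool.Agent.H23.ST.CommCF
import Pool.Agent.H68.VD.Fam

/-! # ST-SK9: the path of commutators, and the bound of the speed of a path -/

namespace Pool.Agent.H6.ST

open MeasureTheory Set Pool.Agent.H68.VD Pool.Agent.H68.GM
open scoped ENNReal ContDiff Topology

theorem comm_path : CommPath := by
  intro i j f g lo hi Fm Fp Gm Gp r h hr
  obtain ⟨n1, n2, n3, n4⟩ := h.nn
  have hcg : ∀ t : ℝ, CG i j (fun x => Real.smoothTransition t * f x) g lo hi Fm Fp Gm Gp := by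
    intro t
    have h0 := Real.smoothTransition.nonneg t
    have h1 := Real.smoothTransition.le_one t
    refine ⟨h.ne, contDiff_const.mul h.fs, h.gs, fun x a => ?_, h.gj, fun x hx => ?_, h.gsupp,
      fun x => ?_, h.gb, h.nn, h.lh⟩
    · simp only [h.fi x a]
    · exact h.fsupp x (right_ne_zero_of_mul hx)
    · have hb := h.fb x
      constructor
      · nlinarith [mul_nonneg h0 (by linarith : 0 ≤ f x + Fm),
          mul_nonneg (sub_nonneg.2 h1) n1]
      · nlinarith [mul_nonneg h0 (by linarith : 0 ≤ Fp - f x),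
          mul_nonneg (sub_nonneg.2 h1) n2]
  have hc := Pool.Agent.H23.ST.comm_cf i j lo hi Fm Fp Gm Gp ℝ
    (fun t x => Real.smoothTransition t * f x) (fun _ => g)
    ((Real.smoothTransition.contDiff.comp contDiff_fst).mul (h.fs.comp contDiff_snd))
    (h.gs.comp contDiff_snd) hcg
  refine ⟨hc.2 _ fun x hx k => ?_, fun t ht x => ?_, fun t ht x => ?_⟩
  · have := hx k
    constructor <;> linarith [this.1, this.2]
  · have e1 : (fun x => Real.smoothTransition t * f x) = fun _ => (0 : ℝ) := by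
      funext x
      rw [Real.smoothTransition.zero_of_nonpos ht, zero_mul]
    show comm i j (fun x => Real.smoothTransition t * f x) g x = x
    rw [e1]
    unfold comm
    rw [Pool.Agent.H23.ST.stc2_zero (i := i) (f := fun _ => (0 : ℝ)) rfl,
      Pool.Agent.H23.ST.stc2_zero (i := i) (f := fun _ => -(0 : ℝ)) (by simp)]
    exact Pool.Agent.H23.ST.stc2_inv h.gj x
  · have e1 : (fun x => Real.smoothTransition t * f x) = f := by
      funext x
      rw [Real.smoothTransition.one_of_one_le ht, one_mul]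
    show comm i j (fun x => Real.smoothTransition t * f x) g x = comm i j f g x
    rw [e1]

theorem sk9_unif {n : ℕ} (v : ℝ → Eu n → Eu n)
    (hv : ContDiff ℝ ∞ (fun q : ℝ × Eu n => v q.1 q.2))
    (K : Set (Eu n)) (hK : IsCompact K) (hv0 : ∀ t, ∀ x ∉ K, v t x = 0) :
    ∃ M : ℝ, 0 ≤ M ∧ ∀ t ∈ Icc (0 : ℝ) 1, (∫⁻ y, ‖v t y‖ₑ) ≤ ENNReal.ofReal M ∧
      (∫⁻ y, ‖fderiv ℝ (v t) y‖ₑ) ≤ ENNReal.ofReal M := by
  have hd : Continuous (fun q : ℝ × Eu n => fderiv ℝ (v q.1) q.2) := by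
    have h1 : ContDiff ℝ ∞ (Function.uncurry fun (q : ℝ × Eu n) (y : Eu n) => v q.1 y) := by
      have h2 : ContDiff ℝ ∞ (fun p : (ℝ × Eu n) × Eu n => ((p.1.1, p.2) : ℝ × Eu n)) := by
        fun_prop
      exact hv.comp h2
    exact (ContDiff.fderiv (m := ∞) (n := 0) h1 (contDiff_snd (𝕜 := ℝ)) (by simp)).continuous
  have hc : Continuous (fun q : ℝ × Eu n => ‖v q.1 q.2‖ + ‖fderiv ℝ (v q.1) q.2‖) :=
    hv.continuous.norm.add hd.norm
  obtain ⟨B, hB⟩ := ((isCompact_Icc (a := (0 : ℝ)) (b := 1)).prod hK).exists_bound_of_continuousOn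
    hc.continuousOn
  have hB' : ∀ t ∈ Icc (0 : ℝ) 1, ∀ y ∈ K, ‖v t y‖ ≤ max B 0 ∧ ‖fderiv ℝ (v t) y‖ ≤ max B 0 := by
    intro t ht y hy
    have h1 := hB (t, y) ⟨ht, hy⟩
    simp only [Real.norm_eq_abs] at h1
    have h2 := le_abs_self (‖v t y‖ + ‖fderiv ℝ (v t) y‖)
    have h3 := norm_nonneg (v t y)
    have h4 := norm_nonneg (fderiv ℝ (v t) y)
    have h5 := le_max_left B 0
    constructor <;> linarith
  have hfd0 : ∀ t, ∀ x ∉ K, fderiv ℝ (v t) x = 0 := by
    intro t x hx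
    have h1 : v t =ᶠ[𝓝 x] fun _ => (0 : Eu n) := by
      filter_upwards [hK.isClosed.isOpen_compl.mem_nhds hx] with y hy
      exact hv0 t y hy
    rw [h1.fderiv_eq]
    simp
  have hvol : (volume : Measure (Eu n)) K ≠ ⊤ := hK.measure_lt_top.ne
  have key : ∀ {F : Type} [NormedAddCommGroup F] (u : Eu n → F), (∀ y ∈ K, ‖u y‖ ≤ max B 0) →
      (∀ y ∉ K, u y = 0) →
      (∫⁻ y, ‖u y‖ₑ) ≤ ENNReal.ofReal (max B 0 * (volume : Measure (Eu n)).real K) := by
    intro F _ u hu hu0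
    calc (∫⁻ y, ‖u y‖ₑ) ≤ ∫⁻ y, K.indicator (fun _ => ENNReal.ofReal (max B 0)) y := by
          refine lintegral_mono fun y => ?_
          by_cases hy : y ∈ K
          · rw [indicator_of_mem hy]
            show ‖u y‖ₑ ≤ _
            rw [← ofReal_norm_eq_enorm]
            exact ENNReal.ofReal_le_ofReal (hu y hy)
          · rw [indicator_of_notMem hy]
            show ‖u y‖ₑ ≤ _
            rw [hu0 y hy, enorm_zero]
      _ = ENNReal.ofReal (max B 0) * (volume : Measure (Eu n)) K :=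
          lintegral_indicator_const hK.measurableSet _
      _ = ENNReal.ofReal (max B 0 * (volume : Measure (Eu n)).real K) := by
          rw [ENNReal.ofReal_mul (le_max_right _ _), Measure.real, ENNReal.ofReal_toReal hvol]
  exact ⟨max B 0 * (volume : Measure (Eu n)).real K, by positivity, fun t ht =>
    ⟨key _ (fun y hy => (hB' t ht y hy).1) (hv0 t),
      key _ (fun y hy => (hB' t ht y hy).2) (hfd0 t)⟩⟩

theorem fe_bd (hK : CFKit) : FEbd := by
  intro n s U f Φ hs hs1 hΦ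
  have hP : IsPath (⊥ : Subgroup (Eu n ≃ᵃ[ℝ] Eu n)) Φ := hK.vf n U ℝ Φ hΦ.fam
  have hvs := famKit.velSmooth n _ Φ hP
  obtain ⟨K, hKc, -, hK0⟩ := hΦ.fam.supp
  have hv0 : ∀ t, ∀ x ∉ K, vel Φ t x = 0 := by
    intro t x hx
    have h2 : Function.invFun (Φ t) x = x := by
      have h3 := Function.leftInverse_invFun (hΦ.fam.bij t).1 x
      rwa [hK0 t x hx] at h3
    unfold vel
    rw [h2]
    have h4 : (fun τ => Φ τ x) = fun _ => x := funext fun τ => hK0 τ x hx
    rw [h4]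
    simp
  obtain ⟨M, hM, hMb⟩ := sk9_unif (vel Φ) hvs K hKc hv0
  refine ⟨M + 1, by positivity, fun t ht => ?_⟩
  have h1 := hMb t ht
  have h3 : ENNReal.ofReal M ≤ ENNReal.ofReal (M + 1) := ENNReal.ofReal_le_ofReal (by linarith)
  have h4 : 0 < M + 1 := by positivity
  unfold FE
  calc (∫⁻ x, ‖vel Φ t x‖ₑ) ^ (1 - s) * (∫⁻ x, ‖fderiv ℝ (vel Φ t) x‖ₑ) ^ s
      ≤ ENNReal.ofReal (M + 1) ^ (1 - s) * ENNReal.ofReal (M + 1) ^ s :=
        mul_le_mul' (ENNReal.rpow_le_rpow (h1.1.trans h3) (by linarith))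
          (ENNReal.rpow_le_rpow (h1.2.trans h3) hs)
    _ = ENNReal.ofReal (M + 1) := by
        rw [ENNReal.ofReal_rpow_of_pos h4, ENNReal.ofReal_rpow_of_pos h4,
          ← ENNReal.ofReal_mul (by positivity), ← Real.rpow_add h4]
        simp

end Pool.Agent.H6.ST
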