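import Pool.Agent.H6.ST.SK.Defs

/-! # ST-SK2: inverses of lattice maps -/

namespace Pool.Agent.H6.ST

open MeasureTheory Set Pool.Agent.H68.VD Pool.Agent.H68.GM
open scoped ENNReal ContDiff Topology

theorem sk2_coord (x y : Eu 4) (m : Fin 4) : |x m - y m| ≤ ‖x - y‖ := by
  have h := PiLp.norm_apply_le (x - y) m
  simpa [Real.norm_eq_abs] using h

theorem sk2_nhds (θ : ℝ) (hθ : θ < 1 / 4) (c : Fin 4 → ℤ) : core θ c ∈ 𝓝 (ctr c : Eu 4) := by
  refine Metric.mem_nhds_iff.mpr ⟨1 / 4, by norm_num, fun x hx k => ?_⟩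
  have h1 := sk2_coord x (ctr c) k
  have h2 : (ctr c : Eu 4) k = (c k : ℝ) + 1 / 2 := rfl
  rw [h2] at h1
  rw [Metric.mem_ball, dist_eq_norm] at hx
  linarith

theorem sk2_ctr (c : Fin 4 → ℤ) (v : Fin 4 → ℤ) :
    (ctr c : Eu 4) + (iv v - iv c) = ctr v := by
  ext k
  show (c k : ℝ) + 1 / 2 + ((v k : ℝ) - (c k : ℝ)) = (v k : ℝ) + 1 / 2
  ring

theorem sk2_pos_big {L : ℕ} (i : Cell L) : BigCell L (pos i) := by
  intro k
  have h := (i k).isLt
  have h' : ((i k : ℕ) : ℤ) < 2 ^ L := by exact_mod_cast h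
  simp only [pos, NN]
  constructor
  · positivity
  · push_cast; omega

/-- a cell of the big cube is a cell of the inner cube or its centre is not in the inner cube -/
theorem sk2_cases {L : ℕ} (c : Fin 4 → ℤ) : (∃ i : Cell L, c = pos i) ∨ (ctr c : Eu 4) ∉ innC L := by
  by_cases h : ∀ k, 1 ≤ c k ∧ c k ≤ 2 ^ L
  · left
    refine ⟨fun k => ⟨(c k - 1).toNat, ?_⟩, ?_⟩
    · have h1 := h k
      have h2 : (((c k - 1).toNat : ℕ) : ℤ) < ((2 ^ L : ℕ) : ℤ) := by
        rw [Int.toNat_of_nonneg (by omega)]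
        push_cast
        omega
      exact_mod_cast h2
    · funext k
      have h1 := h k
      show c k = (((c k - 1).toNat : ℕ) : ℤ) + 1
      rw [Int.toNat_of_nonneg (by omega)]
      ring
  · right
    push Not at h
    obtain ⟨k, hk⟩ := h
    intro hc
    have h1 := hc k
    have h2 : (ctr c : Eu 4) k = (c k : ℝ) + 1 / 2 := rfl
    rw [h2] at h1
    have h3 : (1 : ℝ) < (c k : ℝ) + 1 := by linarith [h1.1]
    have h4 : (0 : ℝ) < (c k : ℝ) := by linarith
    have h5 : (0 : ℤ) < c k := by exact_mod_cast h4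
    have h6 := hk (by omega)
    have h7 : (c k : ℝ) < 2 ^ L + 1 := by
      have := h1.2
      simp only [NN] at this
      push_cast at this
      linarith
    have h8 : c k < 2 ^ L + 1 := by exact_mod_cast h7
    omega

theorem sk_inv (h : CFKit) : SKinv := by
  intro L θ hθ hθ1 F σ hS
  obtain ⟨K, hK, hKi, hKs⟩ := hS.inner
  obtain ⟨Φ, hΦ, hC⟩ := hS.path
  have hF1 : F = Φ 1 := funext fun x => (hΦ.ge1 1 le_rfl x).symm
  have hFb : Function.Bijective F := by rw [hF1]; exact hΦ.fam.bij 1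
  have hinv : ∀ x y, F y = x → Function.invFun F x = y := by
    intro x y hxy
    rw [← hxy]
    exact Function.leftInverse_invFun hFb.1 y
  have hout : ∀ x ∉ K, Function.invFun F x = x := fun x hx => hinv x x (hKs x hx)
  have hrig : ∀ i : Cell L, ∀ x ∈ core θ (pos i),
      Function.invFun F x = x + (iv (pos (σ⁻¹ i)) - iv (pos i)) := by
    intro i x hx
    apply hinv
    have hy : x + (iv (pos (σ⁻¹ i)) - iv (pos i)) ∈ core θ (pos (σ⁻¹ i)) := by
      intro k
      have h1 := hx k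
      have h2 : (x + (iv (pos (σ⁻¹ i)) - iv (pos i)) : Eu 4) k =
          x k + ((pos (σ⁻¹ i) k : ℝ) - (pos i k : ℝ)) := rfl
      rw [h2]
      have h3 : x k + ((pos (σ⁻¹ i) k : ℝ) - (pos i k : ℝ)) - ((pos (σ⁻¹ i) k : ℝ) + 1 / 2) =
          x k - ((pos i k : ℝ) + 1 / 2) := by ring
      rw [h3]
      exact h1
    have hσ : σ (σ⁻¹ i) = i := by simp
    rw [hS.rigid _ _ hy, hσ]
    abel
  refine ⟨⟨K, hK, hKi, hout⟩, hrig, ⟨_, h.rev 4 (bigC L) F Φ hΦ, fun c hc => ?_⟩⟩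
  have key : ∃ c', BigCell L c' ∧ ∃ v : Eu 4, (ctr c : Eu 4) + v = ctr c' ∧
      Function.invFun F =ᶠ[𝓝 (ctr c)] fun x => x + v := by
    rcases sk2_cases (L := L) c with ⟨i, hi⟩ | hi
    · subst hi
      refine ⟨pos (σ⁻¹ i), sk2_pos_big _, _, sk2_ctr (pos i) (pos (σ⁻¹ i)), ?_⟩
      filter_upwards [sk2_nhds θ hθ1 (pos i)] with x hx
      exact hrig i x hx
    · refine ⟨c, hc, 0, add_zero _, ?_⟩
      have hU : Kᶜ ∈ 𝓝 (ctr c : Eu 4) :=
        hK.isClosed.isOpen_compl.mem_nhds fun hk => hi (hKi hk)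
      filter_upwards [hU] with x hx
      rw [hout x hx, add_zero]
  obtain ⟨c', hc', v, hv, hev⟩ := key
  obtain ⟨H, hH⟩ := hC c' hc'
  have hfd : ∀ t : ℝ, fderiv ℝ (fun x => Φ (1 - t) (Function.invFun F x)) (ctr c) =
      fderiv ℝ (Φ (1 - t)) (ctr c') := by
    intro t
    have h1 : (fun x => Φ (1 - t) (Function.invFun F x)) =ᶠ[𝓝 (ctr c)]
        fun x => Φ (1 - t) (x + v) := by
      filter_upwards [hev] with x hx
      rw [hx]
    rw [h1.fderiv_eq, fderiv_comp_add_right, hv]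
  refine ⟨fun u t => H u (1 - t), ?_, fun u t => hH.det u (1 - t), ?_, fun u hu t => hH.u1 u hu _,
    fun u t ht => hH.t1 u (1 - t) (by linarith), fun u t ht => hH.t0 u (1 - t) (by linarith)⟩
  · exact hH.smooth.comp (contDiff_fst.prodMk (contDiff_const.sub contDiff_snd))
  · intro u hu t
    show H u (1 - t) = fderiv ℝ (fun x => Φ (1 - t) (Function.invFun F x)) (ctr c)
    rw [hfd t]
    exact hH.u0 u hu (1 - t)

end Pool.Agent.H6.ST
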