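import Pool.Agent.H6.ST.SK.Defs

/-! # The sharp trichotomy (ST), row SK4: local maps are lattice maps -/

namespace Pool.Agent.H6.ST

open MeasureTheory Set Pool.Agent.H68.VD Pool.Agent.H68.GM
open scoped ENNReal ContDiff

noncomputable section

theorem sk4_ctr_apply (c : Fin 4 → ℤ) (k : Fin 4) : ctr c k = (c k : ℝ) + 1 / 2 := rfl

theorem sk4_ctr_core {θ : ℝ} (hθ : θ < 1 / 4) (c : Fin 4 → ℤ) : ctr c ∈ core θ c := by
  intro k
  rw [sk4_ctr_apply, sub_self, abs_zero]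
  linarith

theorem sk4_ctr_inj {c c' : Fin 4 → ℤ} (h : ctr c = ctr c') : c = c' := by
  funext k
  have h1 : ctr c k = ctr c' k := by rw [h]
  rw [sk4_ctr_apply, sk4_ctr_apply] at h1
  have h2 : (c k : ℝ) = c' k := by linarith
  exact_mod_cast h2

theorem sk4_ctr_add (c c' : Fin 4 → ℤ) : ctr c + (iv c' - iv c) = ctr c' := by
  ext k
  have h1 : (ctr c + (iv c' - iv c)) k = ctr c k + ((iv c' : Eu 4) k - (iv c : Eu 4) k) := rfl
  have h2 : ∀ d : Fin 4 → ℤ, (iv d : Eu 4) k = (d k : ℝ) := fun d => rfl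
  rw [h1, h2, h2, sk4_ctr_apply, sk4_ctr_apply]
  ring

theorem sk4_ctr_innC {L : ℕ} {c : Fin 4 → ℤ} : ctr c ∈ innC L ↔
    ∀ k, 1 ≤ c k ∧ c k ≤ (2 ^ L : ℕ) := by
  constructor
  · intro h k
    have h1 := h k
    rw [sk4_ctr_apply] at h1
    have h2 : ((NN L : ℕ) : ℝ) = ((2 ^ L : ℕ) : ℝ) + 2 := by
      unfold NN
      push_cast
      ring
    rw [h2] at h1
    obtain ⟨h3, h4⟩ := h1
    constructor
    · have h5 : (0 : ℝ) < c k := by linarith
      have h6 : (0 : ℤ) < c k := by exact_mod_cast h5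
      omega
    · have h5 : (c k : ℝ) < ((2 ^ L : ℕ) : ℝ) + 1 := by linarith
      have h6 : c k < ((2 ^ L : ℕ) : ℤ) + 1 := by exact_mod_cast h5
      omega
  · intro h k
    rw [sk4_ctr_apply]
    have h2 : ((NN L : ℕ) : ℝ) = ((2 ^ L : ℕ) : ℝ) + 2 := by
      unfold NN
      push_cast
      ring
    rw [h2]
    obtain ⟨h3, h4⟩ := h k
    have h5 : (1 : ℝ) ≤ c k := by exact_mod_cast h3
    have h6 : (c k : ℝ) ≤ ((2 ^ L : ℕ) : ℝ) := by exact_mod_cast h4
    constructor <;> linarith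

theorem sk4_pos_bounds {L : ℕ} (i : Cell L) (k : Fin 4) :
    1 ≤ pos i k ∧ pos i k ≤ (2 ^ L : ℕ) := by
  have h := (i k).isLt
  unfold pos
  omega

theorem sk4_pos_inj {L : ℕ} {i j : Cell L} (h : pos i = pos j) : i = j := by
  funext k
  have h1 : pos i k = pos j k := by rw [h]
  unfold pos at h1
  apply Fin.ext
  omega

theorem sk4_pos_surj {L : ℕ} {c : Fin 4 → ℤ} (h : ∀ k, 1 ≤ c k ∧ c k ≤ (2 ^ L : ℕ)) :
    ∃ i : Cell L, pos i = c := by
  refine ⟨fun k => ⟨(c k - 1).toNat, ?_⟩, ?_⟩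
  · have h1 := h k
    omega
  · funext k
    have h1 := h k
    unfold pos
    simp only
    omega

theorem sk_loc : SKloc := by
  intro L θ hθ0 hθ lo hi F Φ hlh hP hC m hm
  obtain ⟨K, hK, hKU, hKid⟩ := hP.fam.supp
  have hF : Φ 1 = F := funext fun x => hP.ge1 1 le_rfl x
  have hFid : ∀ x ∉ K, F x = x := by
    intro x hx
    rw [← hF]
    exact hKid 1 x hx
  have hFb : Function.Bijective F := by
    rw [← hF]
    exact hP.fam.bij 1
  have hsub : obox lo hi ⊆ innC L := by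
    intro x hx k
    have h1 := hx k
    have h2 := hlh k
    exact ⟨h2.1.trans_lt h1.1, h1.2.trans_le h2.2⟩
  have hsub' : innC L ⊆ bigC L := by
    intro x hx k
    have h1 := hx k
    have h2 : (1 : ℝ) < x k ∧ x k < (NN L : ℝ) - 1 := h1
    change (0 : ℝ) < x k ∧ x k < (NN L : ℝ)
    constructor <;> linarith [h2.1, h2.2]
  have hin : ∀ x ∈ innC L, F x ∈ innC L := by
    intro x hx
    by_contra hc
    have h1 : F x ∉ K := fun h => hc (hsub (hKU h))
    have h2 := hFb.injective (hFid _ h1)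
    rw [h2] at hc
    exact hc hx
  have hctr : ∀ c, F (ctr c) = ctr (m c) := by
    intro c
    rw [hm c _ (sk4_ctr_core hθ c), sk4_ctr_add]
  have hex : ∀ i : Cell L, ∃ j : Cell L, pos j = m (pos i) := by
    intro i
    apply sk4_pos_surj
    rw [← sk4_ctr_innC, ← hctr]
    exact hin _ (sk4_ctr_innC.mpr (sk4_pos_bounds i))
  choose σ hσ using hex
  have hinj : Function.Injective σ := by
    intro i j hij
    apply sk4_pos_inj
    apply sk4_ctr_inj
    apply hFb.injective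
    rw [hctr, hctr, ← hσ, ← hσ, hij]
  refine ⟨Equiv.ofBijective σ (Finite.injective_iff_bijective.mp hinj), ⟨?_, ?_, ?_⟩, ?_⟩
  · exact ⟨K, hK, hKU.trans hsub, hFid⟩
  · intro i x hx
    rw [Equiv.ofBijective_apply, hσ]
    exact hm _ x hx
  · exact ⟨Φ, ⟨⟨hP.fam.smooth, hP.fam.bij, hP.fam.det,
      ⟨K, hK, (hKU.trans hsub).trans hsub', hKid⟩⟩, hP.le0, hP.ge1⟩, fun c _ => hC c⟩
  · intro i
    rw [Equiv.ofBijective_apply, hσ]

end

end Pool.Agent.H6.ST
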