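import Pool.Agent.H6.ST.SK.Defs

/-! # ST-SK1: products of lattice maps -/

namespace Pool.Agent.H6.ST

open MeasureTheory Set Pool.Agent.H68.VD Pool.Agent.H68.GM
open scoped ENNReal ContDiff Topology

theorem sk1_coord (x y : Eu 4) (m : Fin 4) : |x m - y m| ≤ ‖x - y‖ := by
  have h := PiLp.norm_apply_le (x - y) m
  simpa [Real.norm_eq_abs] using h

theorem sk1_nhds (θ : ℝ) (hθ : θ < 1 / 4) (c : Fin 4 → ℤ) : core θ c ∈ 𝓝 (ctr c : Eu 4) := by
  refine Metric.mem_nhds_iff.mpr ⟨1 / 4, by norm_num, fun x hx k => ?_⟩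
  have h1 := sk1_coord x (ctr c) k
  have h2 : (ctr c : Eu 4) k = (c k : ℝ) + 1 / 2 := rfl
  rw [h2] at h1
  rw [Metric.mem_ball, dist_eq_norm] at hx
  linarith

theorem sk1_ctr (c : Fin 4 → ℤ) (v : Fin 4 → ℤ) :
    (ctr c : Eu 4) + (iv v - iv c) = ctr v := by
  ext k
  show (c k : ℝ) + 1 / 2 + ((v k : ℝ) - (c k : ℝ)) = (v k : ℝ) + 1 / 2
  ring

theorem sk1_pos_big {L : ℕ} (i : Cell L) : BigCell L (pos i) := by
  intro k
  have h := (i k).isLt
  have h' : ((i k : ℕ) : ℤ) < 2 ^ L := by exact_mod_cast h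
  simp only [pos, NN]
  constructor
  · positivity
  · push_cast; omega

/-- a cell of the big cube is a cell of the inner cube or its centre is not in the inner cube -/
theorem sk1_cases {L : ℕ} (c : Fin 4 → ℤ) : (∃ i : Cell L, c = pos i) ∨ (ctr c : Eu 4) ∉ innC L := by
  by_cases h : ∀ k, 1 ≤ c k ∧ c k ≤ 2 ^ L
  · left
    refine ⟨fun k => ⟨(c k - 1).toNat, ?_⟩, ?_⟩
    · have h1 := h k
      have h2 : (((c k - 1).toNat : ℕ) : ℤ) < ((2 ^ L : ℕ) : ℤ) := by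
        rw [Int.toNat_of_nonneg (by omega)]
        push_cast
        omega
      exact_mod_cast h2
    · funext k
      have h1 := h k
      show c k = (((c k - 1).toNat : ℕ) : ℤ) + 1
      rw [Int.toNat_of_nonneg (by omega)]
      ring
  · right
    push Not at h
    obtain ⟨k, hk⟩ := h
    intro hc
    have h1 := hc k
    have h2 : (ctr c : Eu 4) k = (c k : ℝ) + 1 / 2 := rfl
    rw [h2] at h1
    have h3 : (1 : ℝ) < (c k : ℝ) + 1 := by linarith [h1.1]
    have h4 : (0 : ℝ) < (c k : ℝ) := by linarith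
    have h5 : (0 : ℤ) < c k := by exact_mod_cast h4
    have h6 := hk (by omega)
    have h7 : (c k : ℝ) < 2 ^ L + 1 := by
      have := h1.2
      simp only [NN] at this
      push_cast at this
      linarith
    have h8 : c k < 2 ^ L + 1 := by exact_mod_cast h7
    omega

theorem sk1_core {θ : ℝ} {c v : Fin 4 → ℤ} {x : Eu 4} (hx : x ∈ core θ c) :
    x + (iv v - iv c) ∈ core θ v := by
  intro k
  have h1 := hx k
  have h2 : (x + (iv v - iv c) : Eu 4) k = x k + ((v k : ℝ) - (c k : ℝ)) := rfl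
  rw [h2]
  have h3 : x k + ((v k : ℝ) - (c k : ℝ)) - ((v k : ℝ) + 1 / 2) =
      x k - ((c k : ℝ) + 1 / 2) := by ring
  rw [h3]
  exact h1

theorem sk1_smooth {U : Set (Eu 4)} {Φ : ℝ → Eu 4 → Eu 4} (h : CF U Φ) (t : ℝ) :
    Differentiable ℝ (Φ t) := by
  have h1 : ContDiff ℝ ∞ (fun x : Eu 4 => Φ t x) :=
    h.smooth.comp (contDiff_const.prodMk contDiff_id)
  exact h1.differentiable (by simp)

theorem sk_mul (h : CFKit) : SKmul := by
  intro L θ _hθ hθ1 F G σ τ hF hG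
  obtain ⟨K, hK, hKi, hKs⟩ := hF.inner
  obtain ⟨K', hK', hKi', hKs'⟩ := hG.inner
  obtain ⟨Φ, hΦ, hC⟩ := hF.path
  obtain ⟨Ψ, hΨ, hD⟩ := hG.path
  refine ⟨⟨K ∪ K', hK.union hK', union_subset hKi hKi', fun x hx => ?_⟩, fun i x hx => ?_,
    ⟨_, h.cat 4 (bigC L) F G Φ Ψ hΦ hΨ, fun c hc => ?_⟩⟩
  · rw [hKs' x (fun h => hx (Or.inr h)), hKs x (fun h => hx (Or.inl h))]
  · rw [hG.rigid i x hx, hF.rigid (τ i) _ (sk1_core hx), Equiv.Perm.mul_apply]
    abel
  · have key : ∃ c', BigCell L c' ∧ G (ctr c) = ctr c' := by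
      rcases sk1_cases (L := L) c with ⟨i, hi⟩ | hi
      · subst hi
        refine ⟨pos (τ i), sk1_pos_big _, ?_⟩
        rw [hG.rigid i _ (mem_of_mem_nhds (sk1_nhds θ hθ1 (pos i))), sk1_ctr]
      · exact ⟨c, hc, hKs' _ fun hk => hi (hKi' hk)⟩
    obtain ⟨c', hc', hcc⟩ := key
    obtain ⟨HF, hHF⟩ := hC c' hc'
    obtain ⟨HG, hHG⟩ := hD c hc
    refine ⟨fun u t => (HF u (2 * t - 1)).comp (HG u (2 * t)), ?_, fun u t => ?_, fun u hu t => ?_,
      fun u hu t => ?_, fun u t ht => ?_, fun u t ht => ?_⟩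
    · have h1 : ContDiff ℝ ∞ (fun q : ℝ × ℝ => HF q.1 (2 * q.2 - 1)) :=
        hHF.smooth.comp (contDiff_fst.prodMk ((contDiff_const.mul contDiff_snd).sub contDiff_const))
      have h2 : ContDiff ℝ ∞ (fun q : ℝ × ℝ => HG q.1 (2 * q.2)) :=
        hHG.smooth.comp (contDiff_fst.prodMk (contDiff_const.mul contDiff_snd))
      exact h1.clm_comp h2
    · have h1 := hHF.det u (2 * t - 1)
      have h2 := hHG.det u (2 * t)
      have h3 : ((HF u (2 * t - 1)).comp (HG u (2 * t))).det =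
          (HF u (2 * t - 1)).det * (HG u (2 * t)).det :=
        LinearMap.det_comp ((HF u (2 * t - 1)) : Eu 4 →ₗ[ℝ] Eu 4) ((HG u (2 * t)) : Eu 4 →ₗ[ℝ] Eu 4)
      rw [h3, h1, h2, mul_one]
    · have h1 : fderiv ℝ (fun x => Φ (2 * t - 1) (Ψ (2 * t) x)) (ctr c) =
          (fderiv ℝ (Φ (2 * t - 1)) (Ψ (2 * t) (ctr c))).comp (fderiv ℝ (Ψ (2 * t)) (ctr c)) :=
        fderiv_comp (ctr c) (sk1_smooth hΦ.fam _ _) (sk1_smooth hΨ.fam _ _)
      have h2 : fderiv ℝ (Φ (2 * t - 1)) (Ψ (2 * t) (ctr c)) =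
          fderiv ℝ (Φ (2 * t - 1)) (ctr c') := by
        rcases le_total (1 / 2) t with ht | ht
        · rw [hΨ.ge1 (2 * t) (by linarith), hcc]
        · have h3 : Φ (2 * t - 1) = id := funext fun x => hΦ.le0 (2 * t - 1) (by linarith) x
          rw [h3, fderiv_id, fderiv_id]
      show (HF u (2 * t - 1)).comp (HG u (2 * t)) = _
      rw [hHF.u0 u hu, hHG.u0 u hu, h1, h2]
    · show (HF u (2 * t - 1)).comp (HG u (2 * t)) = _
      rw [hHF.u1 u hu, hHG.u1 u hu]; rfl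
    · show (HF u (2 * t - 1)).comp (HG u (2 * t)) = _
      rw [hHF.t0 u _ (by linarith), hHG.t0 u _ (by linarith)]; rfl
    · show (HF u (2 * t - 1)).comp (HG u (2 * t)) = _
      rw [hHF.t1 u _ (by linarith), hHG.t1 u _ (by linarith)]; rfl

end Pool.Agent.H6.ST
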