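import Pool.Agent.H6.ST.SK.Defs

/-! # The sharp trichotomy (ST), row SK13: commutators are approximated by lattice maps -/

namespace Pool.Agent.H6.ST

open MeasureTheory Set Pool.Agent.H68.VD Pool.Agent.H68.GM Filter Topology
open scoped ENNReal ContDiff

noncomputable section

/-! ### Bounds of cylinder functions -/

private theorem sk13_box_compact (a b : Fin 4 → ℝ) :
    IsCompact {x : Eu 4 | ∀ k, a k ≤ x k ∧ x k ≤ b k} := by
  have h : {x : Eu 4 | ∀ k, a k ≤ x k ∧ x k ≤ b k} =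
      (WithLp.toLp 2) '' (Set.Icc a b) := by
    ext x
    constructor
    · intro hx
      exact ⟨fun k => x k, ⟨fun k => (hx k).1, fun k => (hx k).2⟩, rfl⟩
    · rintro ⟨y, hy, rfl⟩ k
      exact ⟨hy.1 k, hy.2 k⟩
  rw [h]
  exact isCompact_Icc.image (PiLp.continuous_toLp 2 _)

private structure sk13_cyl {W : Type*} [NormedAddCommGroup W] [NormedSpace ℝ W] (i : Fin 4)
    (lo hi : Fin 4 → ℝ) (h : Eu 4 → W) : Prop where
  sm : ContDiff ℝ ∞ h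
  inv : ∀ x (a : ℝ), h (x + a • ev i) = h x
  supp : ∀ x, h x ≠ 0 → ∀ k, k ≠ i → lo k ≤ x k ∧ x k ≤ hi k

private theorem sk13_cyl.bound {W : Type*} [NormedAddCommGroup W] [NormedSpace ℝ W] {i : Fin 4}
    {lo hi : Fin 4 → ℝ} {h : Eu 4 → W} (H : sk13_cyl i lo hi h) :
    ∃ B : ℝ, 0 ≤ B ∧ ∀ x, ‖h x‖ ≤ B := by
  obtain ⟨B, hB⟩ := (sk13_box_compact (fun k => if k = i then 0 else lo k)
    (fun k => if k = i then 0 else hi k)).exists_bound_of_continuousOn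
    (f := h) H.sm.continuous.continuousOn
  refine ⟨max B 0, le_max_right _ _, fun x => ?_⟩
  by_cases hx : h x = 0
  · rw [hx, norm_zero]
    exact le_max_right _ _
  · have h1 := H.inv x (-(x i))
    rw [← h1]
    refine (hB _ fun k => ?_).trans (le_max_left _ _)
    by_cases hk : k = i
    · subst hk
      have h2 : (x + (-(x k)) • ev k : Eu 4) k = 0 := by
        simp [ev]
      rw [h2]
      simp
    · have h2 : (x + (-(x i)) • ev i : Eu 4) k = x k := by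
        simp [ev, hk]
      rw [h2]
      simp only [if_neg hk]
      exact H.supp x hx k hk

private theorem sk13_cyl.fderiv {W : Type*} [NormedAddCommGroup W] [NormedSpace ℝ W] {i : Fin 4}
    {lo hi : Fin 4 → ℝ} {h : Eu 4 → W} (H : sk13_cyl i lo hi h) :
    sk13_cyl i lo hi (fderiv ℝ h) := by
  refine ⟨H.sm.fderiv_right (by simp), fun x a => ?_, fun x hx k hk => ?_⟩
  · have h1 : (fun y => h (y + a • ev i)) = h := funext fun y => H.inv y a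
    have h2 := fderiv_comp_add_right (𝕜 := ℝ) (f := h) (x := x) (a • ev i)
    rw [h1] at h2
    exact h2.symm
  · have h1 : x ∈ tsupport h := by
      by_contra hc
      apply hx
      have h2 : x ∉ tsupport (_root_.fderiv ℝ h) := fun h3 => hc (tsupport_fderiv_subset ℝ h3)
      exact image_eq_zero_of_notMem_tsupport h2
    have h2 : tsupport h ⊆ {y : Eu 4 | lo k ≤ y k ∧ y k ≤ hi k} := by
      apply closure_minimal
      · intro y hy
        exact H.supp y hy k hk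
      · have h3 : Continuous (fun y : Eu 4 => y k) := by fun_prop
        exact (isClosed_le continuous_const h3).inter (isClosed_le h3 continuous_const)
    exact h2 h1

private theorem sk13_nsmul {W : Type*} [NormedAddCommGroup W] [NormedSpace ℝ W] {c b : ℝ}
    (hc : ‖c‖ ≤ 1) {w : W} (hw : ‖w‖ ≤ b) : ‖c • w‖ ≤ b := by
  rw [norm_smul]
  exact (mul_le_of_le_one_left (norm_nonneg w) hc).trans hw

/-! ### Scaling -/

/-- The scaled map. -/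
private def sk13_sc (N : ℕ) (F : Eu 4 → Eu 4) (x : Eu 4) : Eu 4 := (N : ℝ)⁻¹ • F ((N : ℝ) • x)

/-- The scaled function. -/
private def sk13_fn (N : ℕ) (f : Eu 4 → ℝ) (x : Eu 4) : ℝ := (N : ℝ) * f ((N : ℝ)⁻¹ • x)

private theorem sk13_sc_comp {N : ℕ} (hN : (N : ℝ) ≠ 0) (F G : Eu 4 → Eu 4) (x : Eu 4) :
    sk13_sc N (fun y => F (G y)) x = sk13_sc N F (sk13_sc N G x) := by
  unfold sk13_sc
  rw [smul_inv_smul₀ hN]

private theorem sk13_sc_shear {N : ℕ} (hN : (N : ℝ) ≠ 0) (i : Fin 4) (f : Eu 4 → ℝ) (x : Eu 4) :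
    sk13_sc N (shear i (sk13_fn N f)) x = shear i f x := by
  unfold sk13_sc shear sk13_fn
  rw [inv_smul_smul₀ hN, smul_add, inv_smul_smul₀ hN, smul_smul, ← mul_assoc,
    inv_mul_cancel₀ hN, one_mul]

private theorem sk13_fn_neg (N : ℕ) (f : Eu 4 → ℝ) :
    (fun y => - sk13_fn N f y) = sk13_fn N (fun y => - f y) := by
  funext y
  unfold sk13_fn
  ring

private theorem sk13_sc_comm {N : ℕ} (hN : (N : ℝ) ≠ 0) (i j : Fin 4) (f g : Eu 4 → ℝ) :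
    sk13_sc N (comm i j (sk13_fn N f) (sk13_fn N g)) = comm i j f g := by
  funext x
  unfold comm
  rw [sk13_fn_neg, sk13_fn_neg, sk13_sc_comp hN, sk13_sc_shear hN,
    sk13_sc_comp hN, sk13_sc_shear hN, sk13_sc_comp hN, sk13_sc_shear hN, sk13_sc_shear hN]

private theorem sk13_invFun_eq {α : Type*} [Nonempty α] {F G : α → α}
    (h1 : ∀ x, F (G x) = x) (hF : Function.Bijective F) : Function.invFun F = G := by
  funext x
  apply hF.injective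
  rw [h1, Function.invFun_eq (hF.surjective x)]

private theorem sk13_sc_bij {N : ℕ} (hN : (N : ℝ) ≠ 0) {T : Eu 4 → Eu 4}
    (hT : Function.Bijective T) : Function.Bijective (sk13_sc N T) := by
  constructor
  · intro x y hxy
    unfold sk13_sc at hxy
    have h1 := smul_right_injective (Eu 4) (inv_ne_zero hN) hxy
    exact smul_right_injective (Eu 4) hN (hT.injective h1)
  · intro y
    obtain ⟨x, hx⟩ := hT.surjective ((N : ℝ) • y)
    refine ⟨(N : ℝ)⁻¹ • x, ?_⟩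
    unfold sk13_sc
    rw [smul_inv_smul₀ hN, hx, inv_smul_smul₀ hN]

private theorem sk13_sc_inv {N : ℕ} (hN : (N : ℝ) ≠ 0) {T : Eu 4 → Eu 4}
    (hT : Function.Bijective T) :
    Function.invFun (sk13_sc N T) = sk13_sc N (Function.invFun T) := by
  apply sk13_invFun_eq _ (sk13_sc_bij hN hT)
  intro x
  rw [← sk13_sc_comp hN]
  change (N : ℝ)⁻¹ • T (Function.invFun T ((N : ℝ) • x)) = x
  rw [Function.invFun_eq (hT.surjective _), inv_smul_smul₀ hN]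

private theorem sk13_fderiv_fn {N : ℕ} (hN : (N : ℝ) ≠ 0) {f : Eu 4 → ℝ} (hf : ContDiff ℝ ∞ f) :
    fderiv ℝ (sk13_fn N f) = fun x => fderiv ℝ f ((N : ℝ)⁻¹ • x) := by
  funext x
  have h1 : sk13_fn N f = fun y => (N : ℝ) • (fun z => f ((N : ℝ)⁻¹ • z)) y := rfl
  have hd : DifferentiableAt ℝ (fun z => f ((N : ℝ)⁻¹ • z)) x := by
    have h2 : ContDiff ℝ ∞ (fun z : Eu 4 => f ((N : ℝ)⁻¹ • z)) :=
      hf.comp (contDiff_const_smul _)
    exact (h2.differentiable (by simp)).differentiableAt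
  rw [h1, fderiv_fun_const_smul hd, fderiv_comp_smul, smul_inv_smul₀ hN]

private theorem sk13_fderiv2_fn {N : ℕ} (hN : (N : ℝ) ≠ 0) {f : Eu 4 → ℝ} (hf : ContDiff ℝ ∞ f)
    (x : Eu 4) :
    fderiv ℝ (fderiv ℝ (sk13_fn N f)) x =
      (N : ℝ)⁻¹ • fderiv ℝ (fderiv ℝ f) ((N : ℝ)⁻¹ • x) := by
  rw [sk13_fderiv_fn hN hf, fderiv_comp_smul]

/-- The data of the scaled commutator. -/
private theorem sk13_CG {N : ℕ} (hN : 0 < (N : ℝ)) {i j : Fin 4} {f g : Eu 4 → ℝ}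
    {lo hi : Fin 4 → ℝ} {Fb Gb : ℝ} (h : CG i j f g lo hi Fb Fb Gb Gb) :
    CG i j (sk13_fn N f) (sk13_fn N g) (fun k => (⌊N * lo k⌋ : ℤ)) (fun k => (⌈N * hi k⌉ : ℤ))
      (⌈N * Fb⌉₊ : ℕ) (⌈N * Fb⌉₊ : ℕ) (⌈N * Gb⌉₊ : ℕ) (⌈N * Gb⌉₊ : ℕ) := by
  have hN0 := hN.ne'
  have hsm : ∀ u : Eu 4 → ℝ, ContDiff ℝ ∞ u → ContDiff ℝ ∞ (sk13_fn N u) := by
    intro u hu
    unfold sk13_fn
    exact contDiff_const.mul (hu.comp (contDiff_const_smul _))
  have hinv : ∀ (u : Eu 4 → ℝ) (i : Fin 4), (∀ x (a : ℝ), u (x + a • ev i) = u x) →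
      ∀ x (a : ℝ), sk13_fn N u (x + a • ev i) = sk13_fn N u x := by
    intro u i hu x a
    unfold sk13_fn
    rw [smul_add, smul_smul, hu]
  have hsupp : ∀ (u : Eu 4 → ℝ) (i : Fin 4), (∀ x, u x ≠ 0 → ∀ k, k ≠ i → lo k ≤ x k ∧ x k ≤ hi k) →
      ∀ x, sk13_fn N u x ≠ 0 → ∀ k, k ≠ i →
        ((⌊N * lo k⌋ : ℤ) : ℝ) ≤ x k ∧ x k ≤ ((⌈N * hi k⌉ : ℤ) : ℝ) := by
    intro u i hu x hx k hk
    have h1 : u ((N : ℝ)⁻¹ • x) ≠ 0 := by
      intro h0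
      apply hx
      unfold sk13_fn
      rw [h0, mul_zero]
    have h2 := hu _ h1 k hk
    have h3 : ((N : ℝ)⁻¹ • x) k = (N : ℝ)⁻¹ * x k := rfl
    rw [h3] at h2
    have h4 : (N : ℝ) * ((N : ℝ)⁻¹ * x k) = x k := by
      rw [← mul_assoc, mul_inv_cancel₀ hN0, one_mul]
    constructor
    · refine (Int.floor_le _).trans ?_
      rw [← h4]
      exact mul_le_mul_of_nonneg_left h2.1 hN.le
    · refine le_trans ?_ (Int.le_ceil _)
      rw [← h4]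
      exact mul_le_mul_of_nonneg_left h2.2 hN.le
  have hb : ∀ (u : Eu 4 → ℝ) (b : ℝ), (∀ x, -b ≤ u x ∧ u x ≤ b) →
      ∀ x, -((⌈N * b⌉₊ : ℕ) : ℝ) ≤ sk13_fn N u x ∧ sk13_fn N u x ≤ ((⌈N * b⌉₊ : ℕ) : ℝ) := by
    intro u b hu x
    have h1 := hu ((N : ℝ)⁻¹ • x)
    have h2 := Nat.le_ceil ((N : ℝ) * b)
    unfold sk13_fn
    constructor
    · have h3 := mul_le_mul_of_nonneg_left h1.1 hN.le
      rw [mul_neg] at h3
      linarith
    · exact (mul_le_mul_of_nonneg_left h1.2 hN.le).trans h2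
  refine ⟨h.ne, hsm f h.fs, hsm g h.gs, hinv f i h.fi, hinv g j h.gj, hsupp f i h.fsupp,
    hsupp g j h.gsupp, hb f Fb h.fb, hb g Gb h.gb,
    ⟨Nat.cast_nonneg _, Nat.cast_nonneg _, Nat.cast_nonneg _, Nat.cast_nonneg _⟩, fun k => ?_⟩
  exact (Int.floor_le _).trans ((mul_le_mul_of_nonneg_left (h.lh k) hN.le).trans (Int.le_ceil _))

/-- The corners of the integer box. -/
private theorem sk13_corner {N : ℕ} (hN : 0 < (N : ℝ)) {i j : Fin 4} {lo hi : Fin 4 → ℝ}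
    {Fb Gb : ℝ} (hF : 0 ≤ Fb) (hG : 0 ≤ Gb) (k : Fin 4) :
    (N : ℝ) * cLo i j lo Fb Gb k - 4 ≤
      cLo i j (fun k => (⌊N * lo k⌋ : ℤ)) (⌈N * Fb⌉₊ : ℕ) (⌈N * Gb⌉₊ : ℕ) k - 1 ∧
    cHi i j (fun k => (⌈N * hi k⌉ : ℤ)) (⌈N * Fb⌉₊ : ℕ) (⌈N * Gb⌉₊ : ℕ) k + 1 ≤
      (N : ℝ) * cHi i j hi Fb Gb k + 4 := by
  have h1 := Int.sub_one_lt_floor ((N : ℝ) * lo k)
  have h2 := Int.ceil_lt_add_one ((N : ℝ) * hi k)
  have h3 := Nat.ceil_lt_add_one (mul_nonneg hN.le hF)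
  have h4 := Nat.ceil_lt_add_one (mul_nonneg hN.le hG)
  unfold cLo cHi
  constructor
  · split_ifs <;> simp only [mul_sub, mul_zero] <;> linarith
  · split_ifs <;> simp only [mul_add, mul_zero] <;> linarith

section M

variable {M : Type} [TopologicalSpace M] {ι : Type}

private theorem sk13_extM_id (ch : ι → OpenPartialHomeomorph M (Eu 4)) (o : ι) {T : Eu 4 → Eu 4}
    (hT : ∀ y, T y = y) : extM ch o T = id := by
  funext x
  unfold extM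
  split_ifs with hx
  · rw [hT, (ch o).left_inv hx]
    rfl
  · rfl

private theorem sk13_mono [Nonempty M] {ch : ι → OpenPartialHomeomorph M (Eu 4)}
    {N : (ι → Eu 4 → Eu 4) → ℝ≥0∞} {f : M → M} {a b : ℝ} (h : MCost ch N f a) (hab : a ≤ b) :
    MCost ch N f b := by
  obtain ⟨φ, l, h1, h2, h3, h4, h5, h6, h7⟩ := h
  exact ⟨φ, l, h1, h2, h3, h4, h5, h6, h7.trans hab⟩

end M

theorem pp_gen (hBC : BCthm) (hC : CommPath) (hX : XKit) (hS : SKth) (hL : SKloc)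
    (hT : TMthm) : PPgen := by
  intro M _ _ _ _ ι _ ch o K hG s θ ζ hs0 hs1 hB i j f g hGU
  obtain ⟨lo, hi, Fb, Gb, hCG, hbd⟩ := hGU
  -- a margin
  obtain ⟨δ, hδ0, hδ⟩ : ∃ δ : ℝ, 0 < δ ∧ ∀ k, 2 * δ ≤ cLo i j lo Fb Gb k ∧
      cHi i j hi Fb Gb k ≤ 1 - 2 * δ := by
    have h1 : ∀ k, 0 < min (cLo i j lo Fb Gb k) (1 - cHi i j hi Fb Gb k) := by
      intro k
      exact lt_min (hbd k).1 (by linarith [(hbd k).2])
    obtain ⟨k₀, -, hk₀⟩ := Finset.exists_min_image (Finset.univ : Finset (Fin 4))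
      (fun k => min (cLo i j lo Fb Gb k) (1 - cHi i j hi Fb Gb k)) ⟨0, Finset.mem_univ _⟩
    refine ⟨min (cLo i j lo Fb Gb k₀) (1 - cHi i j hi Fb Gb k₀) / 2, half_pos (h1 k₀),
      fun k => ?_⟩
    have h2 := hk₀ k (Finset.mem_univ _)
    have h3 := min_le_left (cLo i j lo Fb Gb k) (1 - cHi i j hi Fb Gb k)
    have h4 := min_le_right (cLo i j lo Fb Gb k) (1 - cHi i j hi Fb Gb k)
    constructor <;> linarith
  refine ⟨?_, ?_⟩
  · -- the map is in the identity component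
    have hP := hC i j f g lo hi Fb Fb Gb Gb δ hCG hδ0
    have hsub : obox (fun k => cLo i j lo Fb Gb k - δ) (fun k => cHi i j hi Fb Gb k + δ) ⊆
        (ch o).target := by
      rw [hG.tgt]
      intro x hx k
      have h1 := hx k
      have h2 := hδ k
      have h3 : cLo i j lo Fb Gb k - δ < x k ∧ x k < cHi i j hi Fb Gb k + δ := h1
      change (0 : ℝ) < x k ∧ x k < 1
      constructor <;> linarith [h2.1, h2.2, h3.1, h3.2]
    obtain ⟨K', hK', hKU, hKid⟩ := hP.fam.supp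
    have hCF : CF (ch o).target
        (fun t => comm i j (fun x => Real.smoothTransition t * f x) g) :=
      ⟨hP.fam.smooth, hP.fam.bij, hP.fam.det, ⟨K', hK', hKU.trans hsub, hKid⟩⟩
    refine ⟨fun t => extM ch o (comm i j (fun x => Real.smoothTransition t * f x) g),
      hX.fam 4 M ι ch hG.vol o ℝ _ hCF, ?_, ?_⟩
    · exact sk13_extM_id ch o (fun y => hP.le0 0 le_rfl y)
    · exact congrArg (extM ch o) (funext fun y => hP.ge1 1 le_rfl y)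
  intro η hη
  -- the bounds of the derivatives
  have hcf : sk13_cyl i lo hi f := ⟨hCG.fs, hCG.fi, hCG.fsupp⟩
  have hcg : sk13_cyl j lo hi g := ⟨hCG.gs, hCG.gj, hCG.gsupp⟩
  obtain ⟨B1, hB10, hB1⟩ := hcf.fderiv.bound
  obtain ⟨B2, hB20, hB2⟩ := hcg.fderiv.bound
  obtain ⟨B3, hB30, hB3⟩ := hcf.fderiv.fderiv.bound
  obtain ⟨B4, hB40, hB4⟩ := hcg.fderiv.fderiv.bound
  obtain ⟨C, hC0, hCC⟩ := hBC s θ ζ hs0 hs1 hB (B1 + B2 + B3 + B4)
  obtain ⟨C₂, hC₂0, hC₂⟩ := hT M ι ch o K hG s hs0 hs1 (1 / δ)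
  -- the scale
  have hNN : Tendsto (fun L : ℕ => (NN L : ℝ)) atTop atTop := by
    refine tendsto_atTop_mono (fun L => ?_) tendsto_natCast_atTop_atTop
    have h1 : L ≤ NN L := by
      unfold NN
      have := Nat.lt_two_pow_self (n := L)
      omega
    exact_mod_cast h1
  have hlim : Tendsto (fun L : ℕ => C₂ * δ ^ (-((1 + s) / 2)) * C * (NN L : ℝ) ^ (-(1 - s)))
      atTop (𝓝 0) := by
    have h1 := (tendsto_rpow_neg_atTop (y := 1 - s) (by linarith)).comp hNN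
    have h2 := h1.const_mul (C₂ * δ ^ (-((1 + s) / 2)) * C)
    rw [mul_zero] at h2
    exact h2
  have hev : ∀ᶠ L : ℕ in atTop,
      C₂ * δ ^ (-((1 + s) / 2)) * C * (NN L : ℝ) ^ (-(1 - s)) ≤ η ∧ 4 / δ ≤ (NN L : ℝ) := by
    refine ((hlim.eventually (gt_mem_nhds hη)).mono fun L h => h.le).and ?_
    exact hNN.eventually (eventually_ge_atTop (4 / δ))
  obtain ⟨L₀, hL₀⟩ := eventually_atTop.mp hev
  refine ⟨L₀, fun L hLL => ?_⟩
  obtain ⟨hη', hδN⟩ := hL₀ L hLL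
  have hN : 0 < (NN L : ℝ) := by
    have h1 : 0 < NN L := Nat.succ_pos _
    exact_mod_cast h1
  have hN1 : 1 ≤ (NN L : ℝ) := by
    have h1 : 1 ≤ NN L := Nat.succ_pos _
    exact_mod_cast h1
  have hN0 := hN.ne'
  have hδN' : 4 ≤ δ * NN L := by
    rw [div_le_iff₀ hδ0] at hδN
    linarith
  have hCGN := sk13_CG hN hCG
  -- the lattice map
  obtain ⟨F, Φ, hP, hrig, hcon, hcost⟩ := hCC i j (sk13_fn (NN L) f) (sk13_fn (NN L) g)
    (fun k => ⌊(NN L : ℝ) * lo k⌋) (fun k => ⌈(NN L : ℝ) * hi k⌉)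
    ⌈(NN L : ℝ) * Fb⌉₊ ⌈(NN L : ℝ) * Fb⌉₊ ⌈(NN L : ℝ) * Gb⌉₊ ⌈(NN L : ℝ) * Gb⌉₊ hCGN (by
      intro x
      have hinv : ‖((NN L : ℝ))⁻¹‖ ≤ 1 := by
        rw [norm_inv, Real.norm_of_nonneg hN.le]
        exact inv_le_one_of_one_le₀ hN1
      refine ⟨?_, ?_, ?_, ?_⟩
      · rw [sk13_fderiv_fn hN0 hCG.fs]
        exact (hB1 _).trans (by linarith)
      · rw [sk13_fderiv_fn hN0 hCG.gs]
        exact (hB2 _).trans (by linarith)
      · rw [sk13_fderiv2_fn hN0 hCG.fs]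
        exact (sk13_nsmul hinv (hB3 _)).trans (by linarith)
      · rw [sk13_fderiv2_fn hN0 hCG.gs]
        exact (sk13_nsmul hinv (hB4 _)).trans (by linarith))
  have hcor := fun k => sk13_corner (N := NN L) hN (i := i) (j := j) (lo := lo) (hi := hi)
    (Fb := Fb) (Gb := Gb) hCG.nn.1 hCG.nn.2.2.1 k
  have hbox : ∀ k, δ * NN L ≤ cLo i j (fun k => ((⌊(NN L : ℝ) * lo k⌋ : ℤ) : ℝ))
      (⌈(NN L : ℝ) * Fb⌉₊ : ℕ) (⌈(NN L : ℝ) * Gb⌉₊ : ℕ) k - 1 ∧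
      cHi i j (fun k => ((⌈(NN L : ℝ) * hi k⌉ : ℤ) : ℝ)) (⌈(NN L : ℝ) * Fb⌉₊ : ℕ)
        (⌈(NN L : ℝ) * Gb⌉₊ : ℕ) k + 1 ≤ (NN L : ℝ) - δ * NN L := by
    intro k
    have h1 := hcor k
    have h2 := hδ k
    have h3 := mul_le_mul_of_nonneg_left h2.1 hN.le
    have h4 := mul_le_mul_of_nonneg_left h2.2 hN.le
    constructor <;> linarith [h1.1, h1.2]
  obtain ⟨σ, hσ, -⟩ := hL L θ hB.pos hB.lt _ _ F Φ
    (fun k => ⟨by linarith [(hbox k).1], by linarith [(hbox k).2]⟩) hP hcon _ hrig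
  refine ⟨F, σ, hσ, fun τ hτ => ?_⟩
  have hFC := hcost τ hτ
  have hMC := hC₂ L _ _ (δ * NN L) (by positivity) hbox (by
    have h1 := (hbox 0).1
    have h2 := (hbox 0).2
    have h3 : 1 / δ * (δ * NN L) = NN L := by
      field_simp
    rw [h3]
    linarith) _ _ hFC
  -- the map
  obtain ⟨hbij, hbig, -, -⟩ := hS s θ ζ hs0 hs1 hB L F σ hσ τ hτ
  have htgt : ∀ y, y ∈ (ch o).target ↔ (NN L : ℝ) • y ∈ bigC L := by
    intro y
    rw [hG.tgt]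
    have h1 : ∀ k, ((NN L : ℝ) • y) k = (NN L : ℝ) * y k := fun k => rfl
    constructor
    · intro h k
      rw [h1]
      obtain ⟨h2, h3⟩ : (0 : ℝ) < y k ∧ y k < 1 := h k
      refine ⟨mul_pos hN h2, ?_⟩
      have := mul_lt_mul_of_pos_left h3 hN
      rwa [mul_one] at this
    · intro h k
      obtain ⟨h2, h3⟩ : (0 : ℝ) < ((NN L : ℝ) • y) k ∧ ((NN L : ℝ) • y) k < NN L := h k
      rw [h1] at h2 h3
      refine ⟨(mul_pos_iff_of_pos_left hN).mp h2, ?_⟩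
      change y k < 1
      refine lt_of_mul_lt_mul_left (a := (NN L : ℝ)) ?_ hN.le
      rwa [mul_one]
  have hT1 : Function.Bijective (sk13_sc (NN L) (Th ζ τ F)) := sk13_sc_bij hN0 hbij
  have hT2 : ∀ y, sk13_sc (NN L) (Th ζ τ F) y ∈ (ch o).target ↔ y ∈ (ch o).target := by
    intro y
    rw [htgt, htgt]
    unfold sk13_sc
    rw [smul_inv_smul₀ hN0]
    exact hbig _
  have hT3 : ∀ y ∈ (ch o).target,
      Function.invFun (sk13_sc (NN L) (Th ζ τ F)) y ∈ (ch o).target := by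
    intro y hy
    rw [← hT2, Function.invFun_eq (hT1.surjective y)]
    exact hy
  have hmap : toM ch o (NN L)
      (fun x => comm i j (sk13_fn (NN L) f) (sk13_fn (NN L) g) (Function.invFun (Th ζ τ F) x)) =
      fun x => extM ch o (comm i j f g) (Function.invFun (toM ch o (NN L) (Th ζ τ F)) x) := by
    have h1 : ∀ G : Eu 4 → Eu 4, toM ch o (NN L) G = extM ch o (sk13_sc (NN L) G) := fun G => rfl
    rw [h1, h1]
    have h2 : sk13_sc (NN L)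
        (fun x => comm i j (sk13_fn (NN L) f) (sk13_fn (NN L) g)
          (Function.invFun (Th ζ τ F) x)) =
        fun y => comm i j f g (Function.invFun (sk13_sc (NN L) (Th ζ τ F)) y) := by
      funext y
      rw [sk13_sc_comp hN0, sk13_sc_comm hN0, sk13_sc_inv hN0 hbij]
    rw [h2]
    funext x
    rw [hX.comp 4 M ι ch o (comm i j f g) _ hT3 x, hX.inv 4 M ι ch o _ hT1 hT2]
  rw [hmap] at hMC
  refine sk13_mono hMC ?_
  -- the bound
  have hd : δ * (NN L : ℝ) / NN L = δ := by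
    field_simp
  rw [hd]
  have hprod : ∏ k, (cHi i j (fun k => ((⌈(NN L : ℝ) * hi k⌉ : ℤ) : ℝ)) (⌈(NN L : ℝ) * Fb⌉₊ : ℕ)
        (⌈(NN L : ℝ) * Gb⌉₊ : ℕ) k - cLo i j (fun k => ((⌊(NN L : ℝ) * lo k⌋ : ℤ) : ℝ))
      (⌈(NN L : ℝ) * Fb⌉₊ : ℕ) (⌈(NN L : ℝ) * Gb⌉₊ : ℕ) k + 2) ≤ (NN L : ℝ) ^ 4 := by
    have hle : ∀ k, cHi i j (fun k => ((⌈(NN L : ℝ) * hi k⌉ : ℤ) : ℝ)) (⌈(NN L : ℝ) * Fb⌉₊ : ℕ)
        (⌈(NN L : ℝ) * Gb⌉₊ : ℕ) k - cLo i j (fun k => ((⌊(NN L : ℝ) * lo k⌋ : ℤ) : ℝ))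
      (⌈(NN L : ℝ) * Fb⌉₊ : ℕ) (⌈(NN L : ℝ) * Gb⌉₊ : ℕ) k + 2 ≤ (NN L : ℝ) := by
      intro k
      have h1 := (hbox k).1
      have h2 := (hbox k).2
      linarith
    have hge : ∀ k, 0 ≤ cHi i j (fun k => ((⌈(NN L : ℝ) * hi k⌉ : ℤ) : ℝ))
        (⌈(NN L : ℝ) * Fb⌉₊ : ℕ)
        (⌈(NN L : ℝ) * Gb⌉₊ : ℕ) k - cLo i j (fun k => ((⌊(NN L : ℝ) * lo k⌋ : ℤ) : ℝ))
      (⌈(NN L : ℝ) * Fb⌉₊ : ℕ) (⌈(NN L : ℝ) * Gb⌉₊ : ℕ) k + 2 := by
      intro k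
      have h1 : ((⌊(NN L : ℝ) * lo k⌋ : ℤ) : ℝ) ≤ ((⌈(NN L : ℝ) * hi k⌉ : ℤ) : ℝ) := hCGN.lh k
      have h2 : (0 : ℝ) ≤ ((⌈(NN L : ℝ) * Fb⌉₊ : ℕ) : ℝ) := Nat.cast_nonneg _
      have h3 : (0 : ℝ) ≤ ((⌈(NN L : ℝ) * Gb⌉₊ : ℕ) : ℝ) := Nat.cast_nonneg _
      unfold cLo cHi
      split_ifs <;> linarith
    calc _ ≤ ∏ _k : Fin 4, (NN L : ℝ) :=
          Finset.prod_le_prod (fun k _ => hge k) (fun k _ => hle k)
      _ = _ := by simp
  have hpow : (NN L : ℝ) ^ (-(5 - s)) * (NN L : ℝ) ^ 4 = (NN L : ℝ) ^ (-(1 - s)) := by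
    rw [← Real.rpow_natCast (NN L : ℝ) 4, ← Real.rpow_add hN]
    congr 1
    push_cast
    ring
  refine le_trans ?_ hη'
  have hnn : 0 ≤ C₂ * δ ^ (-((1 + s) / 2)) * (NN L : ℝ) ^ (-(5 - s)) * C := by positivity
  calc _ = C₂ * δ ^ (-((1 + s) / 2)) * (NN L : ℝ) ^ (-(5 - s)) * C * _ := by
        rw [← mul_assoc]
    _ ≤ C₂ * δ ^ (-((1 + s) / 2)) * (NN L : ℝ) ^ (-(5 - s)) * C * (NN L : ℝ) ^ 4 :=
        mul_le_mul_of_nonneg_left hprod hnn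
    _ = C₂ * δ ^ (-((1 + s) / 2)) * C * ((NN L : ℝ) ^ (-(5 - s)) * (NN L : ℝ) ^ 4) := by ring
    _ = _ := by rw [hpow]

end

end Pool.Agent.H6.ST
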