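import Pool.Agent.H6.ST.SK.Defs

/-! # The sharp trichotomy (ST): the calculus of limit costs (row ST-SK5) -/

set_option autoImplicit false

namespace Pool.Agent.H6.ST

open MeasureTheory Set Pool.Agent.H68.VD Pool.Agent.H68.GM
open scoped ENNReal ContDiff

noncomputable section

/-- The scaled map. -/
private def qcs (N : ℕ) (F : Eu 4 → Eu 4) (x : Eu 4) : Eu 4 := (N : ℝ)⁻¹ • F ((N : ℝ) • x)

private theorem qc_NN (L : ℕ) : 0 < NN L := by
  exact Nat.succ_pos _

private theorem qc_NNr (L : ℕ) : (0 : ℝ) < (NN L : ℝ) := by exact_mod_cast qc_NN L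

private theorem qc_cancel {s θ : ℝ} {ζ : ℝ → Eu 4 → Eu 4} (hB : Blow s θ ζ) (τ : ℝ) (x : Eu 4) :
    ζ (-τ) (ζ τ x) = x := by
  rw [← hB.add, neg_add_cancel, hB.zero]

private theorem qc_cancel' {s θ : ℝ} {ζ : ℝ → Eu 4 → Eu 4} (hB : Blow s θ ζ) (τ : ℝ) (x : Eu 4) :
    ζ τ (ζ (-τ) x) = x := by
  rw [← hB.add, add_neg_cancel, hB.zero]

private theorem qc_Th_id {s θ : ℝ} {ζ : ℝ → Eu 4 → Eu 4} (hB : Blow s θ ζ) (τ : ℝ) :
    Th ζ τ id = id := by
  funext x
  exact qc_cancel' hB τ x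

private theorem qc_Th_comp {s θ : ℝ} {ζ : ℝ → Eu 4 → Eu 4} (hB : Blow s θ ζ) (τ : ℝ)
    (F G : Eu 4 → Eu 4) (x : Eu 4) : Th ζ τ (fun x => F (G x)) x = Th ζ τ F (Th ζ τ G x) := by
  unfold Th
  rw [qc_cancel hB]

/-- membership in the unit cube and in the big cube -/
private theorem qc_cube (L : ℕ) (y : Eu 4) :
    (NN L : ℝ) • y ∈ bigC L ↔ y ∈ obox (fun _ : Fin 4 => (0 : ℝ)) (fun _ => 1) := by
  have hN := qc_NNr L
  unfold bigC obox
  simp only [Set.mem_setOf_eq, PiLp.smul_apply, smul_eq_mul]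
  refine forall_congr' fun k => and_congr ?_ ?_
  · constructor
    · intro h
      exact (mul_pos_iff_of_pos_left hN).1 h
    · intro h
      exact mul_pos hN h
  · constructor
    · intro h
      by_contra h1
      push Not at h1
      have : (NN L : ℝ) * 1 ≤ (NN L : ℝ) * y k := mul_le_mul_of_nonneg_left h1 hN.le
      linarith
    · intro h
      have := mul_lt_mul_of_pos_left h hN
      linarith

private theorem qc_qcs_mem (L : ℕ) (T : Eu 4 → Eu 4) (hT : ∀ y, T y ∈ bigC L ↔ y ∈ bigC L)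
    (y : Eu 4) : qcs (NN L) T y ∈ obox (fun _ : Fin 4 => (0 : ℝ)) (fun _ => 1) ↔
      y ∈ obox (fun _ : Fin 4 => (0 : ℝ)) (fun _ => 1) := by
  rw [← qc_cube L, ← qc_cube L y]
  unfold qcs
  rw [smul_inv_smul₀ (qc_NNr L).ne', hT]

private theorem qc_mono {M : Type} [TopologicalSpace M] [Nonempty M] {ι : Type}
    {ch : ι → OpenPartialHomeomorph M (Eu 4)} {N : (ι → Eu 4 → Eu 4) → ℝ≥0∞} {f : M → M}
    {a b : ℝ} (hab : a ≤ b) (h : MCost ch N f a) : MCost ch N f b := by
  obtain ⟨φ, l, h1, h2, h3, h4, h5, h6, h7⟩ := h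
  exact ⟨φ, l, h1, h2, h3, h4, h5, h6, h7.trans hab⟩

private theorem qc_EM_zero {ι : Type} [Fintype ι] (K : ι → Set (Eu 4)) {s : ℝ} (hs : s < 1) :
    EM K s (fun _ _ => 0) = 0 := by
  unfold EM
  have h1 : L1M K (fun _ _ => (0 : Eu 4)) = 0 := by
    unfold L1M
    simp
  rw [h1, ENNReal.zero_rpow_of_pos (by linarith), zero_mul]

private theorem qc_toM_id {M : Type} [TopologicalSpace M] {ι : Type}
    (ch : ι → OpenPartialHomeomorph M (Eu 4)) (o : ι) (L : ℕ) :
    toM ch o (NN L) id = id := by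
  funext x
  unfold toM extM
  split_ifs with h
  · simp only [id_eq]
    rw [inv_smul_smul₀ (qc_NNr L).ne', (ch o).left_inv h]
  · rfl

private theorem qc_one {M : Type} [TopologicalSpace M] [T2Space M] [CompactSpace M] [Nonempty M]
    {ι : Type} [Fintype ι] {ch : ι → OpenPartialHomeomorph M (Eu 4)} {o : ι} {K : ι → Set (Eu 4)}
    (hE : EKit) (hX : XKit) (hG : Geo ch o K) {s : ℝ} (hs0 : 0 ≤ s) (hs1 : s < 1) {η : ℝ}
    (hη : 0 ≤ η) : MCost ch (EM K s) (id : M → M) η := by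
  have hfam : MFam ch (fun (_ : ℝ) => extM ch o (fun x : Eu 4 => x)) := by
    refine hX.fam 4 M ι ch hG.vol o ℝ (fun _ x => x) ⟨?_, ?_, ?_, ?_⟩
    · exact contDiff_snd
    · intro e
      exact Function.bijective_id
    · intro e x
      have : fderiv ℝ (fun x : Eu 4 => x) x = ContinuousLinearMap.id ℝ (Eu 4) := fderiv_id'
      rw [this]
      exact LinearMap.det_id
    · exact ⟨∅, isCompact_empty, Set.empty_subset _, fun e x _ => rfl⟩
  have hid : extM ch o (fun x : Eu 4 => x) = (id : M → M) := by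
    funext x
    unfold extM
    split_ifs with h
    · exact (ch o).left_inv h
    · rfl
  rw [hid] at hfam
  have h := hE.path 4 M ι ch hG.vol K hG.cov s hs0 hs1 (fun _ => id) hfam rfl 1 η zero_le_one hη
    (by
      intro t _
      have h0 : mvel ch (fun _ : ℝ => (id : M → M)) t = fun _ _ => 0 := by
        funext i y
        unfold mvel
        split_ifs with h
        · exact deriv_const t _
        · rfl
      rw [h0, qc_EM_zero K hs1]
      exact zero_le)
  rwa [mul_one] at h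

private theorem qc_toM_comp {M : Type} [TopologicalSpace M] [T2Space M] [CompactSpace M]
    [Nonempty M] {ι : Type} [Fintype ι] {ch : ι → OpenPartialHomeomorph M (Eu 4)} {o : ι}
    {K : ι → Set (Eu 4)} (hX : XKit) (hG : Geo ch o K) (L : ℕ) (S T : Eu 4 → Eu 4)
    (hT : ∀ y, T y ∈ bigC L ↔ y ∈ bigC L) :
    toM ch o (NN L) (fun x => S (T x)) = fun x => toM ch o (NN L) S (toM ch o (NN L) T x) := by
  have h1 : ∀ y ∈ (ch o).target, qcs (NN L) T y ∈ (ch o).target := by
    intro y hy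
    rw [hG.tgt] at hy ⊢
    exact (qc_qcs_mem L T hT y).2 hy
  have h2 := hX.comp 4 M ι ch o (qcs (NN L) S) (qcs (NN L) T) h1
  funext x
  have h3 : (fun y => qcs (NN L) S (qcs (NN L) T y)) = qcs (NN L) (fun x => S (T x)) := by
    funext y
    unfold qcs
    rw [smul_inv_smul₀ (qc_NNr L).ne']
  have h4 := h2 x
  rw [h3] at h4
  exact h4

private theorem qc_inv_qcs (L : ℕ) (T : Eu 4 → Eu 4) (hT : Function.Bijective T) :
    Function.Bijective (qcs (NN L) T) ∧
      Function.invFun (qcs (NN L) T) = qcs (NN L) (Function.invFun T) := by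
  have hN := (qc_NNr L).ne'
  have hl : ∀ y, Function.invFun T (T y) = y := Function.leftInverse_invFun hT.1
  have hr : ∀ y, T (Function.invFun T y) = y := Function.rightInverse_invFun hT.2
  have h1 : ∀ y, qcs (NN L) (Function.invFun T) (qcs (NN L) T y) = y := by
    intro y
    unfold qcs
    rw [smul_inv_smul₀ hN, hl, inv_smul_smul₀ hN]
  have h2 : ∀ y, qcs (NN L) T (qcs (NN L) (Function.invFun T) y) = y := by
    intro y
    unfold qcs
    rw [smul_inv_smul₀ hN, hr, inv_smul_smul₀ hN]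
  have hb : Function.Bijective (qcs (NN L) T) :=
    ⟨Function.LeftInverse.injective h1, Function.RightInverse.surjective h2⟩
  refine ⟨hb, ?_⟩
  funext y
  apply hb.1
  rw [Function.rightInverse_invFun hb.2 y, h2 y]

private theorem qc_toM_inv {M : Type} [TopologicalSpace M] [T2Space M] [CompactSpace M]
    [Nonempty M] {ι : Type} [Fintype ι] {ch : ι → OpenPartialHomeomorph M (Eu 4)} {o : ι}
    {K : ι → Set (Eu 4)} (hX : XKit) (hG : Geo ch o K) (L : ℕ) (T : Eu 4 → Eu 4)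
    (hTb : Function.Bijective T) (hT : ∀ y, T y ∈ bigC L ↔ y ∈ bigC L) :
    toM ch o (NN L) (Function.invFun T) = Function.invFun (toM ch o (NN L) T) := by
  obtain ⟨hb, hi⟩ := qc_inv_qcs L T hTb
  have h1 : ∀ y, qcs (NN L) T y ∈ (ch o).target ↔ y ∈ (ch o).target := by
    intro y
    rw [hG.tgt]
    exact qc_qcs_mem L T hT y
  have h2 := hX.inv 4 M ι ch o (qcs (NN L) T) hb h1
  rw [hi] at h2
  exact h2

theorem qc_kit (hE : EKit) (hX : XKit) (hS : SKth) (hT : TMthm) : QCKit where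
  one := by
    intro M _ _ _ _ ι _ ch o K hG s θ ζ hs0 hs1 hB L η hη
    refine ⟨0, le_rfl, fun τ _ => ?_⟩
    rw [qc_Th_id hB, qc_toM_id, zero_add]
    exact qc_one hE hX hG hs0 hs1 hη.le
  mul := by
    intro M _ _ _ _ ι _ ch o K hG s θ ζ hs0 hs1 hB L F G σ τ a b hF hGS hQF hQG η hη
    obtain ⟨τ₁, h1, H1⟩ := hQF (η / 2) (by linarith)
    obtain ⟨τ₂, h2, H2⟩ := hQG (η / 2) (by linarith)
    refine ⟨min τ₁ τ₂, (min_le_left _ _).trans h1, fun t ht => ?_⟩
    have ht1 := ht.trans (min_le_left _ _)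
    have ht2 := ht.trans (min_le_right _ _)
    have h3 := hE.comp 4 M ι ch hG.vol K hG.cov s hs0 hs1 _ _ _ _ (H1 t ht1) (H2 t ht2)
    have h4 := qc_toM_comp hX hG L (Th ζ t F) (Th ζ t G)
      (hS s θ ζ hs0 hs1 hB L G τ hGS t (ht2.trans h2)).2.1
    have h5 : Th ζ t (fun x => F (G x)) = fun x => Th ζ t F (Th ζ t G x) := by
      funext x
      exact qc_Th_comp hB t F G x
    rw [h5, h4]
    have h6 : a + η / 2 + (b + η / 2) = a + b + η := by ring
    rwa [h6] at h3
  inv := by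
    intro M _ _ _ _ ι _ ch o K hG s θ ζ hs0 hs1 hB L F σ a hF hQF η hη
    obtain ⟨τ₁, h1, H1⟩ := hQF η hη
    refine ⟨τ₁, h1, fun t ht => ?_⟩
    obtain ⟨hb, hm, -, hi⟩ := hS s θ ζ hs0 hs1 hB L F σ hF t (ht.trans h1)
    have h2 := hE.inv 4 M ι ch hG.vol K hG.cov s hs0 hs1 _ _ (H1 t ht)
    rw [← qc_toM_inv hX hG L (Th ζ t F) hb hm] at h2
    have h3 : Function.invFun (Th ζ t F) = Th ζ t (Function.invFun F) := funext hi
    rwa [h3] at h2
  flat := by
    intro M _ _ _ _ ι _ ch o K hG s θ ζ hs0 hs1 hB B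
    obtain ⟨C, hC, H⟩ := hT M ι ch o K hG s hs0 hs1 B
    refine ⟨C, hC, fun L lo hi d hd hlh hw F b hF η hη => ?_⟩
    have hN := qc_NNr L
    set c : ℝ := C * (d / NN L) ^ (-((1 + s) / 2)) * (NN L : ℝ) ^ (-(5 - s)) with hc
    have hc0 : 0 ≤ c := by positivity
    obtain ⟨τ₁, h1, H1⟩ := hF (η / (c + 1)) (by positivity)
    refine ⟨τ₁, h1, fun t ht => ?_⟩
    have h2 := H L lo hi d hd hlh hw (Th ζ t F) _ (H1 t ht)
    refine qc_mono ?_ h2
    rw [← hc, mul_add]
    have h3 : c * (η / (c + 1)) ≤ η := by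
      rw [mul_div_assoc', div_le_iff₀ (by positivity)]
      nlinarith
    linarith

end

end Pool.Agent.H6.ST
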