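import Pool.Agent.H6.ST.SK.Defs

/-!
# The sharp trichotomy (ST), row ST-SK14: lattice maps that fix all cells have limit cost zero
-/

set_option autoImplicit false

namespace Pool.Agent.H6.ST

open MeasureTheory Set Pool.Agent.H68.VD Pool.Agent.H68.GM
open scoped ENNReal ContDiff

/-- A lattice map that fixes all inner cells is the identity on the cores of all big cells. -/
private theorem rel_core {L : ℕ} {θ : ℝ} (hθ : 0 < θ) {w : Eu 4 → Eu 4} (hw : Stb L θ w 1)
    (c : Fin 4 → ℤ) (hc : BigCell L c) (x : Eu 4) (hx : x ∈ core θ c) : w x = x := by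
  by_cases hin : ∀ k, 1 ≤ c k ∧ c k ≤ (2 ^ L : ℕ)
  · obtain ⟨i, hi⟩ : ∃ i : Cell L, pos i = c := by
      refine ⟨fun k => ⟨(c k - 1).toNat, ?_⟩, ?_⟩
      · have h1 := (hin k).1
        have h2 := (hin k).2
        omega
      · funext k
        have h1 := (hin k).1
        simp only [pos]
        omega
    have h1 := hw.rigid i x (by rw [hi]; exact hx)
    rw [Equiv.Perm.one_apply, sub_self, add_zero] at h1
    exact h1
  · obtain ⟨K, -, hK, hK'⟩ := hw.inner
    refine hK' x fun hxK => hin fun k => ?_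
    have h1 := hK hxK k
    have h2 := hx k
    rw [abs_le] at h2
    have h3 := hc k
    have hN : (NN L : ℝ) = ((2 ^ L : ℕ) : ℝ) + 2 := by simp [NN]
    rw [hN] at h1
    constructor
    · by_contra h4
      have h5 : c k = 0 := by omega
      rw [h5] at h2
      push_cast at h2
      linarith [h1.1, h2.2]
    · by_contra h4
      have h5 : ((2 ^ L : ℕ) : ℤ) + 1 ≤ c k := by omega
      have h6 : (((2 ^ L : ℕ) : ℤ) : ℝ) + 1 ≤ (c k : ℝ) := by exact_mod_cast h5
      rw [Int.cast_natCast] at h6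
      linarith [h1.2, h2.1]

theorem rel_thm (hLP : LPthm) (hTL : TLthm) (hQ : QCKit) : RELthm := by
  intro M _ _ _ _ ι _ ch o K hG s θ ζ hs hs1 hB L w hw
  obtain ⟨Φ, r, hΦ, hr, hfix⟩ := hLP L θ w hB.pos hB.lt hw
  obtain ⟨Φ', hΦ', hfix'⟩ := hTL θ hB.pos hB.lt L w Φ r hΦ hr hfix
    (fun c hc x hx => rel_core hB.pos hw c hc x hx)
  obtain ⟨c', hc', hcost⟩ := hB.rel L w Φ' hΦ' hw.inner hfix'
  obtain ⟨C, -, hC⟩ := hQ.flat M ι ch o K hG s θ ζ hs hs1 hB ((NN L : ℝ) / c')
  have h1 := hC L (fun _ => c') (fun _ => (NN L : ℝ) - c') c' hc' (fun k => ⟨le_rfl, le_rfl⟩)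
    (by rw [div_mul_cancel₀ _ hc'.ne']; linarith) w 0
    (fun η hη => by rw [zero_add]; exact hcost η hη)
  rw [mul_zero] at h1
  exact h1

end Pool.Agent.H6.ST
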