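import Pool.Agent.H6.ST.SK.Defs

/-! # The sharp trichotomy (ST), row ST-SK10: the swap of adjacent cells -/

set_option autoImplicit false

namespace Pool.Agent.H6.ST

open MeasureTheory Set Pool.Agent.H68.VD Pool.Agent.H68.GM
open scoped ENNReal ContDiff

noncomputable section

/-! ### Translations -/

theorem sk10_iv_apply (c : Fin 4 → ℤ) (k : Fin 4) : (iv c) k = (c k : ℝ) := rfl

theorem sk10_ctr_apply (c : Fin 4 → ℤ) (k : Fin 4) : (ctr c : Eu 4) k = (c k : ℝ) + 1 / 2 := rfl

theorem sk10_bij (f : Eu 4 → Eu 4) (p : Eu 4) (h : Function.Bijective f) :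
    Function.Bijective (fun z => f (z - p) + p) :=
  (Equiv.addRight p).bijective.comp (h.comp (Equiv.subRight p).bijective)

theorem sk10_fderiv (f : Eu 4 → Eu 4) (p z : Eu 4) :
    fderiv ℝ (fun z => f (z - p) + p) z = fderiv ℝ f (z - p) := by
  rw [fderiv_add_const]
  exact fderiv_comp_sub p

theorem sk10_path (U V : Set (Eu 4)) (F : Eu 4 → Eu 4) (Φ : ℝ → Eu 4 → Eu 4) (p : Eu 4)
    (hUV : ∀ z, z - p ∈ U → z ∈ V) (h : CPath U F Φ) :
    CPath V (fun z => F (z - p) + p) (fun t z => Φ t (z - p) + p) := by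
  refine ⟨⟨?_, ?_, ?_, ?_⟩, ?_, ?_⟩
  · have h1 := h.fam.smooth
    have h2 : ContDiff ℝ ∞ (fun q : ℝ × Eu 4 => (q.1, q.2 - p)) := by fun_prop
    exact (h1.comp h2).add contDiff_const
  · exact fun e => sk10_bij _ p (h.fam.bij e)
  · intro e x
    rw [sk10_fderiv]
    exact h.fam.det e _
  · obtain ⟨K, hK, hKU, hKF⟩ := h.fam.supp
    refine ⟨(fun z => z + p) '' K, hK.image (by fun_prop), ?_, ?_⟩
    · rintro _ ⟨z, hz, rfl⟩
      exact hUV _ (by simpa using hKU hz)
    · intro e x hx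
      have h1 : x - p ∉ K := fun h2 => hx ⟨x - p, h2, by simp⟩
      show Φ e (x - p) + p = x
      rw [hKF e _ h1]
      simp
  · intro t ht x
    show Φ t (x - p) + p = x
    rw [h.le0 t ht]
    simp
  · intro t ht x
    show Φ t (x - p) + p = F (x - p) + p
    rw [h.ge1 t ht]

theorem sk10_th (s θ : ℝ) (ζ : ℝ → Eu 4 → Eu 4) (hB : Blow s θ ζ) (τ : ℝ) (F : Eu 4 → Eu 4)
    (c : Fin 4 → ℤ) : Th ζ τ (fun z => F (z - iv c) + iv c) =
      fun z => Th ζ τ F (z - iv c) + iv c := by
  funext z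
  show ζ τ (F (ζ (-τ) z - iv c) + iv c) = ζ τ (F (ζ (-τ) (z - iv c))) + iv c
  rw [hB.per]
  have h1 : ζ (-τ) z = ζ (-τ) (z - iv c) + iv c := by
    rw [← hB.per]
    simp
  rw [h1]
  simp

theorem sk10_core (θ : ℝ) (c d : Fin 4 → ℤ) (z : Eu 4) (hz : z ∈ core θ c) :
    z - iv d ∈ core θ (c - d) := by
  intro k
  have h1 := hz k
  have h2 : (z - iv d) k - ((((c - d) k : ℤ) : ℝ) + 1 / 2) = z k - ((c k : ℝ) + 1 / 2) := by
    simp only [PiLp.sub_apply, sk10_iv_apply, Pi.sub_apply]
    push_cast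
    ring
  rw [h2]
  exact h1

theorem sk10_ctr (c d : Fin 4 → ℤ) : (ctr c : Eu 4) - iv d = ctr (c - d) := by
  ext k
  simp only [PiLp.sub_apply, sk10_iv_apply, sk10_ctr_apply, Pi.sub_apply]
  push_cast
  ring

/-! ### The weight -/

theorem sk10_wt (a : ℝ) (ha : 0 ≤ a) (L : ℕ) (x : Cell L) : ∃ q : ℝ, 1 ≤ q ∧
    (∀ k, q ≤ ((x k : ℕ) : ℝ) + 1 ∧ q ≤ (2 : ℝ) ^ L - ((x k : ℕ) : ℝ)) ∧
    (q / 2 ^ L) ^ (-a) ≤ wt a L (fun k => x k) := by
  classical
  obtain ⟨⟨k0, b0⟩, hmin⟩ := Finite.exists_min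
    (fun j : Fin 4 × Bool => if j.2 then ((x j.1 : ℕ) : ℝ) + 1 else (2 : ℝ) ^ L - ((x j.1 : ℕ) : ℝ))
  have hlt : ∀ k, ((x k : ℕ) : ℝ) + 1 ≤ 2 ^ L := by
    intro k
    have h1 : (x k : ℕ) + 1 ≤ 2 ^ L := (x k).2
    exact_mod_cast h1
  have hpos : ∀ k, 0 ≤ ((((x k : ℕ) : ℝ) + 1) / 2 ^ L) ^ (-a) +
      (((2 : ℝ) ^ L - ((x k : ℕ) : ℝ)) / 2 ^ L) ^ (-a) := by
    intro k
    have h1 := hlt k
    have h2 : (0 : ℝ) ≤ ((x k : ℕ) : ℝ) := Nat.cast_nonneg _
    have h3 : (0 : ℝ) < 2 ^ L := by positivity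
    exact add_nonneg (Real.rpow_nonneg (div_nonneg (by linarith) h3.le) _)
      (Real.rpow_nonneg (div_nonneg (by linarith) h3.le) _)
  have hsum : ((((x k0 : ℕ) : ℝ) + 1) / 2 ^ L) ^ (-a) +
      (((2 : ℝ) ^ L - ((x k0 : ℕ) : ℝ)) / 2 ^ L) ^ (-a) ≤ wt a L (fun k => x k) := by
    unfold wt
    exact Finset.single_le_sum (f := fun k : Fin 4 => ((((x k : ℕ) : ℝ) + 1) / 2 ^ L) ^ (-a) +
      (((2 : ℝ) ^ L - ((x k : ℕ) : ℝ)) / 2 ^ L) ^ (-a)) (fun k _ => hpos k) (Finset.mem_univ k0)
  have h1 := hlt k0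
  have h2 : (0 : ℝ) ≤ ((x k0 : ℕ) : ℝ) := Nat.cast_nonneg _
  have h3 : (0 : ℝ) < 2 ^ L := by positivity
  have h4 : 0 ≤ ((((x k0 : ℕ) : ℝ) + 1) / 2 ^ L) ^ (-a) :=
    Real.rpow_nonneg (div_nonneg (by linarith) h3.le) _
  have h5 : 0 ≤ (((2 : ℝ) ^ L - ((x k0 : ℕ) : ℝ)) / 2 ^ L) ^ (-a) :=
    Real.rpow_nonneg (div_nonneg (by linarith) h3.le) _
  refine ⟨if b0 then ((x k0 : ℕ) : ℝ) + 1 else (2 : ℝ) ^ L - ((x k0 : ℕ) : ℝ), ?_, ?_, ?_⟩
  · split_ifs <;> linarith
  · intro k
    have h6 := hmin (k, true)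
    have h7 := hmin (k, false)
    simp only [if_true, Bool.false_eq_true, if_false] at h6 h7
    exact ⟨h6, h7⟩
  · split_ifs
    · linarith
    · linarith

theorem sk10_bound (a r C b S : ℝ) (ha : 0 ≤ a) (hr : 0 ≤ r) (hC : 0 ≤ C) (hb : 0 ≤ b) (hbS : b ≤ S)
    (L : ℕ) (x : Cell L) (q : ℝ) (hq : 1 ≤ q)
    (hw : (q / 2 ^ L) ^ (-a) ≤ wt a L (fun k => x k)) :
    C * ((q / 2) / NN L) ^ (-a) * (NN L : ℝ) ^ (-r) * b ≤
      (C * 6 ^ a * S) * wt a L (fun k => x k) * (2 ^ L : ℝ) ^ (-r) := by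
  have h2L : (1 : ℝ) ≤ 2 ^ L := one_le_pow₀ (by norm_num)
  have hNN : (NN L : ℝ) = 2 ^ L + 2 := by
    unfold NN
    push_cast
    ring
  have h1 : ((q / 2) / NN L) ^ (-a) ≤ 6 ^ a * wt a L (fun k => x k) := by
    have h2 : q / 2 ^ L / 6 ≤ (q / 2) / NN L := by
      rw [hNN, div_div, div_div, div_le_div_iff_of_pos_left (by linarith) (by positivity)
        (by positivity)]
      linarith
    have h3 : 0 < q / 2 ^ L / 6 := by positivity
    have h4 : ((q / 2) / NN L) ^ (-a) ≤ (q / 2 ^ L / 6) ^ (-a) :=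
      Real.rpow_le_rpow_of_nonpos h3 h2 (by linarith)
    have h5 : (q / 2 ^ L / 6) ^ (-a) = (q / 2 ^ L) ^ (-a) * 6 ^ a := by
      rw [Real.div_rpow (by positivity) (by norm_num), Real.rpow_neg (by norm_num : (0:ℝ) ≤ 6),
        div_inv_eq_mul]
    rw [h5] at h4
    have h6 : (0 : ℝ) ≤ 6 ^ a := by positivity
    nlinarith [mul_le_mul_of_nonneg_right hw h6]
  have h7 : (NN L : ℝ) ^ (-r) ≤ (2 ^ L : ℝ) ^ (-r) :=
    Real.rpow_le_rpow_of_nonpos (by positivity) (by rw [hNN]; linarith) (by linarith)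
  have h8 : 0 ≤ ((q / 2) / NN L) ^ (-a) := Real.rpow_nonneg (by positivity) _
  have h9 : (0 : ℝ) ≤ (NN L : ℝ) ^ (-r) := Real.rpow_nonneg (by positivity) _
  calc C * ((q / 2) / NN L) ^ (-a) * (NN L : ℝ) ^ (-r) * b
      ≤ C * (6 ^ a * wt a L (fun k => x k)) * (2 ^ L : ℝ) ^ (-r) * S := by
        have h10 : 0 ≤ 6 ^ a * wt a L (fun k => x k) := h8.trans h1
        gcongr
    _ = (C * 6 ^ a * S) * wt a L (fun k => x k) * (2 ^ L : ℝ) ^ (-r) := by ring

/-! ### The swap -/

theorem sk10_pos_inj {L : ℕ} {i j : Cell L} (h : pos i = pos j) : i = j := by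
  funext k
  have h1 := congrFun h k
  unfold pos at h1
  apply Fin.ext
  have h2 : ((i k : ℕ) : ℤ) = ((j k : ℕ) : ℤ) := by linarith
  exact_mod_cast h2

theorem sk10_single (k : Fin 4) : iv (Pi.single k (1 : ℤ) : Fin 4 → ℤ) = (ev k : Eu 4) := by
  ext j
  rw [sk10_iv_apply]
  unfold ev
  by_cases hj : j = k
  · subst hj
    simp
  · simp [hj]

theorem pc_swap (hX2 : X2thm) (hF : FKit) (hL : SKloc) (hQ : QCKit) : PCswap := by
  classical
  intro M _ _ _ _ ι _ ch o K hG s θ ζ hs0 hs1 hB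
  choose F Φ C hP hR1 hR2 hH hC hcost using hX2 s θ ζ hs0 hs1 hB
  obtain ⟨C', hC', hflat⟩ := hQ.flat M ι ch o K hG s θ ζ hs0 hs1 hB 4
  have ha : 0 ≤ (1 + s) / 2 := by linarith
  refine ⟨C' * 6 ^ ((1 + s) / 2) * ∑ k, C k, by
    have := Finset.sum_nonneg (fun k (_ : k ∈ Finset.univ) => hC k)
    positivity, ?_⟩
  intro L x y hxy
  obtain ⟨k, hyk, hym⟩ := hxy
  set p : Eu 4 := iv (pos x) with hp
  have hposy : pos y = pos x + Pi.single k 1 := by
    funext m
    by_cases hm : m = k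
    · subst hm
      simp only [pos, Pi.add_apply, Pi.single_eq_same, hyk]
      push_cast
      ring
    · simp only [pos, Pi.add_apply, Pi.single_eq_of_ne hm, hym m hm]
      ring
  have hxk : (x k : ℕ) + 2 ≤ 2 ^ L := by
    have h1 := (y k).2
    omega
  have hxm : ∀ m, (x m : ℕ) + 1 ≤ 2 ^ L := fun m => (x m).2
  obtain ⟨q, hq1, hq2, hq3⟩ := sk10_wt ((1 + s) / 2) ha L x
  set lo : Fin 4 → ℝ := fun m => ((pos x m : ℤ) : ℝ) with hlo
  set hi : Fin 4 → ℝ := fun m => ((pos x m : ℤ) : ℝ) + (if m = k then 2 else 1) with hhi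
  have hpx : ∀ m, ((pos x m : ℤ) : ℝ) = ((x m : ℕ) : ℝ) + 1 := by
    intro m
    simp [pos]
  have hNN : (NN L : ℝ) = 2 ^ L + 2 := by
    unfold NN
    push_cast
    ring
  have hxkR : ((x k : ℕ) : ℝ) + 2 ≤ 2 ^ L := by exact_mod_cast hxk
  have hxmR : ∀ m, ((x m : ℕ) : ℝ) + 1 ≤ 2 ^ L := fun m => by exact_mod_cast hxm m
  have hx0 : ∀ m, (0 : ℝ) ≤ ((x m : ℕ) : ℝ) := fun m => Nat.cast_nonneg _
  -- the box
  have hbox : ∀ z : Eu 4, z - p ∈ ibox (fun _ => 0) (fun m => if m = k then 2 else 1) ↔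
      z ∈ obox lo hi := by
    intro z
    unfold ibox obox
    simp only [mem_setOf_eq]
    refine forall_congr' fun m => ?_
    have h1 : (z - p) m = z m - ((pos x m : ℤ) : ℝ) := rfl
    rw [h1, hlo, hhi]
    by_cases hm : m = k
    · simp only [hm, if_true]
      push_cast
      constructor
      · rintro ⟨h2, h3⟩
        constructor <;> linarith
      · rintro ⟨h2, h3⟩
        constructor <;> linarith
    · simp only [hm, if_false]
      push_cast
      constructor
      · rintro ⟨h2, h3⟩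
        constructor <;> linarith
      · rintro ⟨h2, h3⟩
        constructor <;> linarith
  have hpath : CPath (obox lo hi) (fun z => F k (z - p) + p) (fun t z => Φ k t (z - p) + p) :=
    sk10_path _ _ _ _ p (fun z hz => (hbox z).1 hz) (hP k)
  have hcontr : ∀ c : Fin 4 → ℤ,
      ∃ H, Contr (fun t => fderiv ℝ ((fun t z => Φ k t (z - p) + p) t) (ctr c)) H := by
    intro c
    obtain ⟨H, hH'⟩ := hH k (c - pos x)
    refine ⟨H, ?_⟩
    have h1 : (fun t => fderiv ℝ ((fun t z => Φ k t (z - p) + p) t) (ctr c)) =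
        fun t => fderiv ℝ (Φ k t) (ctr (c - pos x)) := by
      funext t
      show fderiv ℝ (fun z => Φ k t (z - p) + p) (ctr c) = _
      rw [sk10_fderiv, hp, sk10_ctr]
    rw [h1]
    exact hH'
  -- rigidity
  have hrig : ∀ c, ∀ z ∈ core θ c, (fun z => F k (z - p) + p) z =
      z + (iv ((Equiv.swap (pos x) (pos y)) c) - iv c) := by
    intro c z hz
    show F k (z - p) + p = _
    have hz' := sk10_core θ c (pos x) z hz
    rw [← hp] at hz'
    by_cases h1 : c = pos x
    · rw [h1, sub_self] at hz'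
      rw [hR1 k _ hz', h1, Equiv.swap_apply_left, hposy]
      have h2 : (iv (pos x + Pi.single k 1) : Eu 4) = p + ev k := by
        rw [← sk10_single, hp]
        ext m
        simp only [sk10_iv_apply, PiLp.add_apply, Pi.add_apply]
        push_cast
        ring
      rw [h2, ← hp]
      abel
    · by_cases h2 : c = pos y
      · rw [h2, hposy, add_sub_cancel_left] at hz'
        rw [hR2 k _ hz', h2, Equiv.swap_apply_right, hposy]
        have h3 : (iv (pos x + Pi.single k 1) : Eu 4) = p + ev k := by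
          rw [← sk10_single, hp]
          ext m
          simp only [sk10_iv_apply, PiLp.add_apply, Pi.add_apply]
          push_cast
          ring
        rw [h3, ← hp]
        abel
      · rw [Equiv.swap_apply_of_ne_of_ne h1 h2, sub_self, add_zero]
        have h3 : z - p ∉ ibox (fun _ => 0) (fun m => if m = k then 2 else 1) := by
          intro h4
          have h5 : ∀ m, c m - pos x m = if m = k then c k - pos x k else 0 := by
            intro m
            by_cases hm : m = k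
            · simp [hm]
            · have h6 := h4 m
              have h7 := hz' m
              simp only [hm, if_false] at h6 ⊢
              rw [abs_le] at h7
              have h8 := hB.pos
              simp only [Pi.sub_apply] at h7
              push_cast at h6 h7
              have h9 : ((c m : ℝ) - (pos x m : ℝ)) < 1 := by linarith [h6.1, h6.2, h7.1, h7.2]
              have h10 : (-1 : ℝ) < ((c m : ℝ) - (pos x m : ℝ)) := by
                linarith [h6.1, h6.2, h7.1, h7.2]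
              have h11 : c m - pos x m < 1 := by exact_mod_cast h9
              have h12 : -1 < c m - pos x m := by exact_mod_cast h10
              omega
          have h6 := h4 k
          have h7 := hz' k
          simp only [if_true] at h6
          rw [abs_le] at h7
          have h8 := hB.pos
          simp only [Pi.sub_apply] at h7
          push_cast at h6 h7
          have h9 : ((c k : ℝ) - (pos x k : ℝ)) < 2 := by linarith [h6.1, h6.2, h7.1, h7.2]
          have h10 : (-1 : ℝ) < ((c k : ℝ) - (pos x k : ℝ)) := by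
            linarith [h6.1, h6.2, h7.1, h7.2]
          have h11 : c k - pos x k < 2 := by exact_mod_cast h9
          have h12 : -1 < c k - pos x k := by exact_mod_cast h10
          have h13 : c k - pos x k = 0 ∨ c k - pos x k = 1 := by omega
          rcases h13 with h13 | h13
          · apply h1
            funext m
            have h14 := h5 m
            rw [h13] at h14
            simp only [ite_self] at h14
            linarith
          · apply h2
            rw [hposy]
            funext m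
            have h14 := h5 m
            rw [h13] at h14
            by_cases hm : m = k
            · subst hm
              simp only [Pi.add_apply, Pi.single_eq_same]
              linarith
            · simp only [hm, if_false] at h14
              simp only [Pi.add_apply, Pi.single_eq_of_ne hm]
              linarith
        have h4 : F k (z - p) = z - p := by
          obtain ⟨K', hK', hKU, hKF⟩ := (hP k).fam.supp
          rw [← (hP k).ge1 1 le_rfl]
          exact hKF 1 _ fun h5 => h3 (hKU h5)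
        rw [h4]
        simp
  obtain ⟨σ, hσ, hσm⟩ := hL L θ hB.pos hB.lt lo hi _ _ (by
    intro m
    rw [hlo, hhi, hNN]
    simp only
    rw [hpx]
    have h1 := hxmR m
    have h2 := hx0 m
    refine ⟨by linarith, ?_⟩
    by_cases hm : m = k
    · subst hm
      simp only [if_true]
      linarith
    · simp only [hm, if_false]
      linarith) hpath hcontr _ hrig
  have hσ' : σ = Equiv.swap x y := by
    ext1 i
    apply sk10_pos_inj
    rw [hσm]
    by_cases h1 : i = x
    · subst h1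
      rw [Equiv.swap_apply_left, Equiv.swap_apply_left]
    · by_cases h2 : i = y
      · subst h2
        rw [Equiv.swap_apply_right, Equiv.swap_apply_right]
      · rw [Equiv.swap_apply_of_ne_of_ne h1 h2, Equiv.swap_apply_of_ne_of_ne
          (fun h => h1 (sk10_pos_inj h)) (fun h => h2 (sk10_pos_inj h))]
  rw [hσ'] at hσ
  refine ⟨_, hσ, ?_⟩
  have hqc := hflat L lo hi (q / 2) (by linarith) (by
    intro m
    rw [hlo, hhi, hNN]
    simp only
    rw [hpx]
    have h1 := hxmR m
    have h2 := hx0 m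
    have h3 := hq2 m
    refine ⟨by linarith, ?_⟩
    by_cases hm : m = k
    · subst hm
      simp only [if_true]
      linarith
    · simp only [hm, if_false]
      linarith) (by
    rw [hlo, hhi]
    simp only
    split_ifs <;> linarith) (fun z => F k (z - p) + p) (C k) (by
    intro η hη
    refine ⟨0, le_rfl, fun τ hτ => ?_⟩
    rw [hp, sk10_th s θ ζ hB]
    refine hF.mono 4 s _ _ _ _ _ ?_ (by linarith) (hF.shift 4 s _ _ _ (iv (pos x)) hs0 hs1
      (hcost k τ hτ))
    intro z hz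
    exact (hbox z).1 hz)
  intro η hη
  obtain ⟨τ₀, hτ₀, hτ⟩ := hqc η hη
  refine ⟨τ₀, hτ₀, fun τ h => ?_⟩
  obtain ⟨φ, l, h1, h2, h3, h4, h5, h6, h7⟩ := hτ τ h
  refine ⟨φ, l, h1, h2, h3, h4, h5, h6, h7.trans ?_⟩
  have h8 := sk10_bound ((1 + s) / 2) (5 - s) C' (C k) (∑ k, C k) ha (by linarith) hC' (hC k)
    (Finset.single_le_sum (fun k _ => hC k) (Finset.mem_univ k)) L x q hq1 hq3
  linarith

end

end Pool.Agent.H6.ST
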