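import Pool.Agent.H6.ST.SK.Defs

/-! # The sharp trichotomy (ST), row SK3: `Th` of lattice maps -/

namespace Pool.Agent.H6.ST

open MeasureTheory Set Pool.Agent.H68.VD Pool.Agent.H68.GM
open scoped ENNReal ContDiff

noncomputable section

theorem sk_one : ∀ (L : ℕ) (θ : ℝ), Stb L θ id 1 := by
  intro L θ
  refine ⟨⟨∅, isCompact_empty, Set.empty_subset _, fun x _ => rfl⟩, ?_, ?_⟩
  · intro i x _
    simp
  · refine ⟨fun _ x => x, ⟨⟨?_, ?_, ?_, ?_⟩, ?_, ?_⟩, ?_⟩
    · exact contDiff_snd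
    · exact fun _ => Function.bijective_id
    · intro e x
      rw [fderiv_fun_id]
      simp [ContinuousLinearMap.det]
    · exact ⟨∅, isCompact_empty, Set.empty_subset _, fun _ x _ => rfl⟩
    · exact fun t _ x => rfl
    · exact fun t _ x => rfl
    · intro c _
      refine ⟨fun _ _ => ContinuousLinearMap.id ℝ (Eu 4), ?_, ?_, ?_, ?_, ?_, ?_⟩
      · exact contDiff_const
      · intro u t
        simp [ContinuousLinearMap.det]
      · intro u _ t
        exact (fderiv_fun_id).symm
      · exact fun u _ t => rfl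
      · exact fun u t _ => rfl
      · exact fun u t _ => rfl

section

variable {L : ℕ} {θ : ℝ} {F : Eu 4 → Eu 4} {σ : Equiv.Perm (Cell L)}

lemma sk3_off (h : Stb L θ F σ) {x : Eu 4} (hx : x ∉ innC L) : F x = x := by
  obtain ⟨K, _, h1, h2⟩ := h.inner
  exact h2 x (fun hk => hx (h1 hk))

/-- a point of the left face of the cell `i` -/
def sk3_fp (i : Cell L) : Eu 4 :=
  WithLp.toLp 2 (fun k => if k = 0 then ((pos i 0 : ℤ) : ℝ) else ((pos i k : ℤ) : ℝ) + 1 / 2)

lemma sk3_fp_mem (hθ : θ ≤ 0) (i : Cell L) : sk3_fp i ∈ core θ (pos i) := by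
  intro k
  show |(if k = 0 then ((pos i 0 : ℤ) : ℝ) else ((pos i k : ℤ) : ℝ) + 1 / 2) -
    (((pos i k : ℤ) : ℝ) + 1 / 2)| ≤ 1 / 2 - θ
  split_ifs with hk
  · subst hk
    rw [abs_le]
    constructor <;> linarith
  · rw [abs_le]
    constructor <;> linarith

lemma sk3_zero (hθ : θ ≤ 0) (h : Stb L θ F σ) :
    ∀ (m : ℕ) (i : Cell L), (i 0 : ℕ) = m → iv (pos (σ i)) - iv (pos i) = 0 := by
  intro m
  induction m with
  | zero =>
    intro i hi
    have h1 := h.rigid i _ (sk3_fp_mem hθ i)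
    have h2 : F (sk3_fp i) = sk3_fp i := by
      apply sk3_off h
      intro hm
      have h3 := (hm 0).1
      have h4 : (sk3_fp i : Eu 4) 0 = ((pos i 0 : ℤ) : ℝ) := by
        show (if (0 : Fin 4) = 0 then ((pos i 0 : ℤ) : ℝ) else ((pos i 0 : ℤ) : ℝ) + 1 / 2) = _
        rw [if_pos rfl]
      have h5 : pos i 0 = 1 := by
        unfold pos
        rw [hi]
        simp
      rw [h4, h5] at h3
      norm_num at h3
    rw [h2] at h1
    exact (left_eq_add.1 h1)
  | succ m ih =>
    intro i hi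
    have hlt : m < 2 ^ L := by
      have := (i 0).2
      omega
    have hj : ((Function.update i 0 ⟨m, hlt⟩ : Cell L) 0 : ℕ) = m := by
      simp
    have h1 := h.rigid i _ (sk3_fp_mem hθ i)
    have h2 : sk3_fp i ∈ core θ (pos (Function.update i 0 ⟨m, hlt⟩ : Cell L)) := by
      intro k
      show |(if k = 0 then ((pos i 0 : ℤ) : ℝ) else ((pos i k : ℤ) : ℝ) + 1 / 2) -
        (((pos (Function.update i 0 ⟨m, hlt⟩ : Cell L) k : ℤ) : ℝ) + 1 / 2)| ≤ 1 / 2 - θ
      split_ifs with hk
      · subst hk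
        have e1 : pos i 0 = (m : ℤ) + 2 := by
          unfold pos
          rw [hi]
          push_cast
          ring
        have e2 : pos (Function.update i 0 ⟨m, hlt⟩ : Cell L) 0 = (m : ℤ) + 1 := by
          unfold pos
          rw [hj]
        rw [e1, e2, abs_le]
        push_cast
        constructor <;> linarith
      · have e : pos (Function.update i 0 ⟨m, hlt⟩ : Cell L) k = pos i k := by
          unfold pos
          rw [Function.update_of_ne hk]
        rw [e, abs_le]
        constructor <;> linarith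
    have h3 := h.rigid _ _ h2
    rw [ih _ hj, add_zero] at h3
    rw [h3] at h1
    exact (left_eq_add.1 h1)

/-- the inner cell with a given position -/
lemma sk3_cell {c : Fin 4 → ℤ} (hc : ∀ k, 1 ≤ c k ∧ c k ≤ 2 ^ L) : ∃ i : Cell L, pos i = c := by
  refine ⟨fun k => ⟨(c k - 1).toNat, ?_⟩, ?_⟩
  · have h1 := (hc k).1
    have h2 := (hc k).2
    have h3 : (((c k - 1).toNat : ℕ) : ℤ) < ((2 ^ L : ℕ) : ℤ) := by
      rw [Int.toNat_of_nonneg (by omega)]
      push_cast
      omega
    exact_mod_cast h3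
  · funext k
    have h1 := (hc k).1
    unfold pos
    show (((c k - 1).toNat : ℕ) : ℤ) + 1 = c k
    rw [Int.toNat_of_nonneg (by omega)]
    ring

lemma sk3_id (hθ : θ ≤ 0) (h : Stb L θ F σ) (x : Eu 4) : F x = x := by
  by_cases hx : x ∈ innC L
  · have hc : ∀ k, 1 ≤ (⌊x k⌋ : ℤ) ∧ (⌊x k⌋ : ℤ) ≤ 2 ^ L := by
      intro k
      obtain ⟨h1, h2⟩ := hx k
      constructor
      · rw [Int.le_floor]
        push_cast
        exact h1.le
      · have h3 : (⌊x k⌋ : ℤ) < (2 ^ L : ℤ) + 1 := by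
          rw [Int.floor_lt]
          have h4 : ((NN L : ℕ) : ℝ) - 1 = (2 : ℝ) ^ L + 1 := by
            unfold NN
            push_cast
            ring
          push_cast
          rw [← h4]
          exact h2
        omega
    obtain ⟨i, hi⟩ := sk3_cell hc
    have hm : x ∈ core θ (pos i) := by
      intro k
      rw [hi]
      have h1 := Int.floor_le (x k)
      have h2 := Int.lt_floor_add_one (x k)
      rw [abs_le]
      constructor <;> linarith
    rw [h.rigid i x hm, sk3_zero hθ h _ i rfl, add_zero]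
  · exact sk3_off h hx

end

theorem sk_cr : SKcr := by
  intro L θ F σ h
  obtain ⟨Φ, hΦ, _⟩ := h.path
  have e1 : Φ 1 = F := funext fun x => hΦ.ge1 1 le_rfl x
  refine ⟨?_, ?_, ?_, ?_, ?_⟩
  · have h1 : ContDiff ℝ ∞ (fun x : Eu 4 => Φ 1 x) :=
      hΦ.fam.smooth.comp (contDiff_const.prodMk contDiff_id)
    rw [← e1]
    exact h1
  · rw [← e1]
    exact hΦ.fam.bij 1
  · rw [← e1]
    exact hΦ.fam.det 1
  · obtain ⟨K, h1, h2, h3⟩ := hΦ.fam.supp
    exact ⟨K, h1, h2, by rw [← e1]; exact h3 1⟩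
  · intro c
    rcases le_or_gt θ 0 with hθ | hθ
    · refine ⟨0, fun x _ => ?_⟩
      rw [sk3_id hθ h x]
      have : (iv (0 : Fin 4 → ℤ) : Eu 4) = 0 := by
        ext k
        simp [iv]
      rw [this, add_zero]
    · by_cases hc : ∀ k, 1 ≤ c k ∧ c k ≤ 2 ^ L
      · obtain ⟨i, hi⟩ := sk3_cell hc
        refine ⟨pos (σ i) - pos i, fun x hx => ?_⟩
        rw [h.rigid i x (by rw [hi]; exact hx)]
        congr 1
        ext k
        simp [iv]
      · refine ⟨0, fun x hx => ?_⟩
        have h0 : (iv (0 : Fin 4 → ℤ) : Eu 4) = 0 := by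
          ext k
          simp [iv]
        rw [h0, add_zero]
        apply sk3_off h
        intro hm
        apply hc
        intro k
        have h1 := hx k
        rw [abs_le] at h1
        obtain ⟨h2, h3⟩ := hm k
        have h4 : ((NN L : ℕ) : ℝ) - 1 = (2 : ℝ) ^ L + 1 := by
          unfold NN
          push_cast
          ring
        rw [h4] at h3
        constructor
        · have : (0 : ℝ) < c k := by linarith
          have : (0 : ℤ) < c k := by exact_mod_cast this
          omega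
        · have : (c k : ℝ) < (2 : ℝ) ^ L + 1 := by linarith
          have : (c k : ℤ) < (2 : ℤ) ^ L + 1 := by exact_mod_cast this
          omega

section

variable {s θ : ℝ} {ζ : ℝ → Eu 4 → Eu 4}

lemma sk3_l (hB : Blow s θ ζ) (τ : ℝ) (x : Eu 4) : ζ τ (ζ (-τ) x) = x := by
  rw [← hB.add, add_neg_cancel, hB.zero]

lemma sk3_r (hB : Blow s θ ζ) (τ : ℝ) (x : Eu 4) : ζ (-τ) (ζ τ x) = x := by
  rw [← hB.add, neg_add_cancel, hB.zero]

lemma sk3_bij (hB : Blow s θ ζ) (τ : ℝ) : Function.Bijective (ζ τ) :=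
  Function.bijective_iff_has_inverse.2 ⟨ζ (-τ), sk3_r hB τ, sk3_l hB τ⟩

lemma sk3_box (hB : Blow s θ ζ) (τ : ℝ) (lo hi : Fin 4 → ℤ) (x : Eu 4) :
    ζ τ x ∈ ibox lo hi ↔ x ∈ ibox lo hi := by
  constructor
  · intro h
    have := hB.box (-τ) lo hi _ h
    rwa [sk3_r hB] at this
  · exact hB.box τ lo hi x

lemma sk3_bigC (L : ℕ) : bigC L = ibox (fun _ => 0) (fun _ => (NN L : ℤ)) := by
  unfold bigC ibox
  congr 1
  funext k
  simp

lemma sk3_innC (L : ℕ) : innC L = ibox (fun _ => 1) (fun _ => (NN L : ℤ) - 1) := by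
  unfold innC ibox
  congr 1
  · funext k
    simp
  · funext k
    simp

end

theorem sk_th (h : SKcr) : SKth := by
  intro s θ ζ _ _ hB L F σ hF τ _
  have hR := h L θ F σ hF
  have hbij : Function.Bijective (Th ζ τ F) :=
    (sk3_bij hB τ).comp (hR.bij.comp (sk3_bij hB (-τ)))
  have hbig : ∀ x, F x ∈ bigC L ↔ x ∈ bigC L := by
    obtain ⟨K, _, h1, h2⟩ := hR.supp
    intro x
    constructor
    · intro hx
      by_contra hc
      rw [h2 x (fun hk => hc (h1 hk))] at hx
      exact hc hx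
    · intro hx
      by_contra hc
      have h3 : F (F x) = F x := h2 _ (fun hk => hc (h1 hk))
      have h4 := hR.bij.1 h3
      rw [h4] at hc
      exact hc hx
  refine ⟨hbij, ?_, ?_, ?_⟩
  · intro y
    unfold Th
    rw [sk3_bigC, sk3_box hB, ← sk3_bigC, hbig, sk3_bigC, sk3_box hB]
  · intro y hy
    unfold Th
    have h1 : ζ (-τ) y ∉ innC L := by
      rw [sk3_innC, sk3_box hB, ← sk3_innC]
      exact hy
    rw [sk3_off hF h1, sk3_l hB]
  · intro y
    apply hbij.1
    rw [Function.invFun_eq (hbij.2 y)]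
    unfold Th
    rw [sk3_r hB, Function.invFun_eq (hR.bij.2 _), sk3_l hB]

end

end Pool.Agent.H6.ST
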