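import Pool.Agent.H6.ST.SK.Defs

/-! # The sharp trichotomy (ST): the three-cycles of cubes with their costs (row ST-SK11) -/

namespace Pool.Agent.H6.ST

open MeasureTheory Set Pool.Agent.H68.VD Pool.Agent.H68.GM
open scoped ENNReal ContDiff

noncomputable section

theorem tri_lo (κ R : ℕ) (p : Fin 4 → ℤ) (d₁ : Fin 4 → ℕ) (i j : Fin 4) (hij : i ≠ j) (u v : Bool)
    (hp : ∀ k, p k = 1 + d₁ k * R) (hu : u = false → 1 ≤ d₁ i) (hv : v = false → 1 ≤ d₁ j)
    (k : Fin 4) : ∃ e : ℕ, d₁ k ≤ e + 1 ∧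
      cLo i j (fun k => (plo κ R p k : ℝ)) (dn u R : ℕ) (dn v R : ℕ) k - 1 =
        e * R + (R / 2 ^ (κ + 1) : ℕ) := by
  unfold cLo plo dn
  generalize R / 2 ^ (κ + 1) = r
  simp only [hp k]
  by_cases hki : k = i
  · subst hki
    cases u with
    | true =>
      refine ⟨d₁ k, by omega, ?_⟩
      simp only [hij, if_true, if_false]
      push_cast
      ring
    | false =>
      obtain ⟨e, he⟩ := Nat.exists_eq_add_of_le' (hu rfl)
      refine ⟨e, he.le, ?_⟩
      simp only [hij, if_true, if_false, Bool.false_eq_true, he]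
      push_cast
      ring
  · by_cases hkj : k = j
    · subst hkj
      cases v with
      | true =>
        refine ⟨d₁ k, by omega, ?_⟩
        simp only [hki, if_true, if_false]
        push_cast
        ring
      | false =>
        obtain ⟨e, he⟩ := Nat.exists_eq_add_of_le' (hv rfl)
        refine ⟨e, he.le, ?_⟩
        simp only [hki, if_true, if_false, Bool.false_eq_true, he]
        push_cast
        ring
    · refine ⟨d₁ k, by omega, ?_⟩
      simp only [hki, hkj, if_false]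
      push_cast
      ring

theorem tri_hi (κ R l N : ℕ) (p : Fin 4 → ℤ) (d₁ : Fin 4 → ℕ) (i j : Fin 4) (hij : i ≠ j)
    (u v : Bool) (hp : ∀ k, p k = 1 + d₁ k * R) (hN : N = 2 ^ l * R + 2) (h1 : ∀ k, d₁ k < 2 ^ l)
    (hu : u = true → d₁ i + 1 < 2 ^ l) (hv : v = true → d₁ j + 1 < 2 ^ l)
    (k : Fin 4) : ∃ e : ℕ, 2 ^ l ≤ d₁ k + e + 2 ∧
      (N : ℝ) - (cHi i j (fun k => (phi κ R p k : ℝ)) (up u R : ℕ) (up v R : ℕ) k + 1) =
        e * R + (R / 2 ^ (κ + 1) : ℕ) := by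
  unfold cHi phi up
  generalize R / 2 ^ (κ + 1) = r
  simp only [hp k, hN]
  have key : ∀ δ : ℕ, δ ≤ 1 → d₁ k + δ < 2 ^ l → ∃ e : ℕ, 2 ^ l ≤ d₁ k + e + 2 ∧
      ((2 ^ l * R + 2 : ℕ) : ℝ) - (1 + (d₁ k : ℝ) * R + R - r + δ * R + 1) =
        e * R + r := by
    intro δ hδ h
    obtain ⟨e, he⟩ := Nat.exists_eq_add_of_lt h
    refine ⟨e, by omega, ?_⟩
    rw [he]
    push_cast
    ring
  by_cases hki : k = i
  · subst hki
    cases u with
    | true =>
      obtain ⟨e, he, h⟩ := key 1 le_rfl (hu rfl)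
      refine ⟨e, he, ?_⟩
      rw [← h]
      simp only [hij, if_true, if_false]
      push_cast
      ring
    | false =>
      obtain ⟨e, he, h⟩ := key 0 (by omega) (h1 k)
      refine ⟨e, he, ?_⟩
      rw [← h]
      simp only [hij, if_true, if_false, Bool.false_eq_true]
      push_cast
      ring
  · by_cases hkj : k = j
    · subst hkj
      cases v with
      | true =>
        obtain ⟨e, he, h⟩ := key 1 le_rfl (hv rfl)
        refine ⟨e, he, ?_⟩
        rw [← h]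
        simp only [hki, if_true, if_false]
        push_cast
        ring
      | false =>
        obtain ⟨e, he, h⟩ := key 0 (by omega) (h1 k)
        refine ⟨e, he, ?_⟩
        rw [← h]
        simp only [hki, if_true, if_false, Bool.false_eq_true]
        push_cast
        ring
    · obtain ⟨e, he, h⟩ := key 0 (by omega) (h1 k)
      refine ⟨e, he, ?_⟩
      rw [← h]
      simp only [hki, hkj, if_false]
      push_cast
      ring

theorem tri_width (κ R : ℕ) (p : Fin 4 → ℤ) (i j : Fin 4) (hij : i ≠ j) (u v : Bool)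
    (hr : 1 ≤ R / 2 ^ (κ + 1)) (k : Fin 4) :
    cHi i j (fun k => (phi κ R p k : ℝ)) (up u R : ℕ) (up v R : ℕ) k -
      cLo i j (fun k => (plo κ R p k : ℝ)) (dn u R : ℕ) (dn v R : ℕ) k + 2 ≤ 2 * R := by
  have hr' : (1 : ℝ) ≤ ((R / 2 ^ (κ + 1) : ℕ) : ℝ) := by exact_mod_cast hr
  have hR : (0 : ℝ) ≤ R := Nat.cast_nonneg R
  have hud : ∀ w : Bool, ((up w R : ℕ) : ℝ) + ((dn w R : ℕ) : ℝ) = R := by
    intro w; cases w <;> simp [up, dn]
  unfold cHi cLo phi plo
  generalize R / 2 ^ (κ + 1) = r at hr hr' ⊢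
  have h1 := hud u
  have h2 := hud v
  by_cases hki : k = i
  · subst hki
    simp only [hij, if_true, if_false]
    push_cast
    linarith
  · by_cases hkj : k = j
    · subst hkj
      simp only [hki, if_true, if_false]
      push_cast
      linarith
    · simp only [hki, hkj, if_false]
      push_cast
      linarith

/-- the smallest distance -/
theorem tri_min (l : ℕ) (d₁ : Fin 4 → ℕ) (h1 : ∀ k, d₁ k < 2 ^ l) :
    ∃ m : ℕ, 1 ≤ m ∧ (∀ k, m ≤ d₁ k + 1 ∧ m + d₁ k ≤ 2 ^ l) ∧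
      ∃ k, m = d₁ k + 1 ∨ m + d₁ k = 2 ^ l := by
  obtain ⟨k, hk⟩ := Finite.exists_min (fun k => min (d₁ k + 1) (2 ^ l - d₁ k))
  refine ⟨min (d₁ k + 1) (2 ^ l - d₁ k), ?_, ?_, k, ?_⟩
  · have := h1 k
    omega
  · intro k'
    have := h1 k'
    have h := hk k'
    omega
  · have := h1 k
    omega

theorem tri_wt (a : ℝ) (l : ℕ) (d₁ : Fin 4 → ℕ) (h1 : ∀ k, d₁ k < 2 ^ l) (m : ℕ)
    (hm : ∃ k, m = d₁ k + 1 ∨ m + d₁ k = 2 ^ l) : ((m : ℝ) / 2 ^ l) ^ (-a) ≤ wt a l d₁ := by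
  obtain ⟨k, hk⟩ := hm
  have hpos : ∀ k, 0 ≤ (((d₁ k : ℝ) + 1) / 2 ^ l) ^ (-a) ∧
      0 ≤ (((2 : ℝ) ^ l - d₁ k) / 2 ^ l) ^ (-a) := by
    intro k
    have h : (d₁ k : ℝ) < 2 ^ l := by exact_mod_cast h1 k
    exact ⟨Real.rpow_nonneg (by positivity) _,
      Real.rpow_nonneg (div_nonneg (by linarith) (by positivity)) _⟩
  have hle : (((d₁ k : ℝ) + 1) / 2 ^ l) ^ (-a) + (((2 : ℝ) ^ l - d₁ k) / 2 ^ l) ^ (-a) ≤
      wt a l d₁ := by
    unfold wt
    exact Finset.single_le_sum (f := fun k => (((d₁ k : ℝ) + 1) / 2 ^ l) ^ (-a) +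
      (((2 : ℝ) ^ l - d₁ k) / 2 ^ l) ^ (-a))
      (fun k _ => add_nonneg (hpos k).1 (hpos k).2) (Finset.mem_univ k)
  rcases hk with hk | hk
  · have : (m : ℝ) = (d₁ k : ℝ) + 1 := by rw [hk]; push_cast; ring
    rw [this]
    linarith [(hpos k).2]
  · have : (m : ℝ) = (2 : ℝ) ^ l - d₁ k := by
      have : ((m + d₁ k : ℕ) : ℝ) = ((2 ^ l : ℕ) : ℝ) := by rw [hk]
      push_cast at this
      linarith
    rw [this]
    linarith [(hpos k).1]

/-- the comparison of the costs -/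
theorem tri_cost (s : ℝ) (h0 : 0 ≤ s) (h1 : s < 1) (κ l R m N : ℕ) (W C b : ℝ) (hm : 1 ≤ m)
    (hR : 1 ≤ R) (hN : N = 2 ^ l * R + 2) (h2 : 2 ≤ 2 ^ l * R) (hC : 0 ≤ C)
    (hW : ((m : ℝ) / 2 ^ l) ^ (-((1 + s) / 2)) ≤ W) (hb : 0 ≤ b) :
    C * ((R * m / 2 ^ (κ + 2) : ℝ) / N) ^ (-((1 + s) / 2)) * (N : ℝ) ^ (-(5 - s)) *
      (b * (R : ℝ) ^ (5 - s)) ≤
    C * 2 ^ (κ + 3) * b * W * (2 ^ l : ℝ) ^ (-(5 - s)) := by
  have hm' : (0 : ℝ) < m := by exact_mod_cast hm
  have hR' : (0 : ℝ) < R := by exact_mod_cast hR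
  have hl : (0 : ℝ) < 2 ^ l := by positivity
  have hN1 : (N : ℝ) = 2 ^ l * R + 2 := by rw [hN]; push_cast; ring
  have h2' : (2 : ℝ) ≤ 2 ^ l * R := by exact_mod_cast h2
  have hNp : (0 : ℝ) < N := by rw [hN1]; positivity
  set a : ℝ := (1 + s) / 2 with ha
  have ha0 : 0 ≤ a := by rw [ha]; linarith
  have ha1 : a ≤ 1 := by rw [ha]; linarith
  have e1 : ((m : ℝ) / 2 ^ l) / 2 ^ (κ + 3) ≤ (R * m / 2 ^ (κ + 2) : ℝ) / N := by
    have hpos : (0 : ℝ) < 2 ^ κ := by positivity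
    rw [div_div, div_div, div_le_div_iff₀ (by positivity) (by positivity)]
    have : (N : ℝ) ≤ 2 * (2 ^ l * R) := by rw [hN1]; linarith
    calc (m : ℝ) * (2 ^ (κ + 2) * N) ≤ m * (2 ^ (κ + 2) * (2 * (2 ^ l * R))) := by gcongr
      _ = R * m * (2 ^ l * 2 ^ (κ + 3)) := by ring
  have e2 : ((R * m / 2 ^ (κ + 2) : ℝ) / N) ^ (-a) ≤ W * 2 ^ (κ + 3) := by
    calc ((R * m / 2 ^ (κ + 2) : ℝ) / N) ^ (-a)
        ≤ (((m : ℝ) / 2 ^ l) / 2 ^ (κ + 3)) ^ (-a) :=
          Real.rpow_le_rpow_of_nonpos (by positivity) e1 (by linarith)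
      _ = ((m : ℝ) / 2 ^ l) ^ (-a) * ((2 : ℝ) ^ (κ + 3)) ^ a := by
          rw [Real.div_rpow (by positivity) (by positivity), Real.rpow_neg (by positivity : (0:ℝ) ≤ 2 ^ (κ + 3)),
            div_inv_eq_mul]
      _ ≤ W * 2 ^ (κ + 3) := by
          have hone : (1 : ℝ) ≤ 2 ^ (κ + 3) := one_le_pow₀ (by norm_num)
          have h3 : ((2 : ℝ) ^ (κ + 3)) ^ a ≤ 2 ^ (κ + 3) := by
            calc ((2 : ℝ) ^ (κ + 3)) ^ a ≤ ((2 : ℝ) ^ (κ + 3)) ^ (1 : ℝ) :=
                  Real.rpow_le_rpow_of_exponent_le hone ha1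
              _ = 2 ^ (κ + 3) := Real.rpow_one _
          exact mul_le_mul hW h3 (Real.rpow_nonneg (by positivity) _)
            ((Real.rpow_nonneg (by positivity) _).trans hW)
  have e3 : (N : ℝ) ^ (-(5 - s)) * (R : ℝ) ^ (5 - s) ≤ (2 ^ l : ℝ) ^ (-(5 - s)) := by
    calc (N : ℝ) ^ (-(5 - s)) * (R : ℝ) ^ (5 - s)
        ≤ ((2 : ℝ) ^ l * R) ^ (-(5 - s)) * (R : ℝ) ^ (5 - s) := by
          refine mul_le_mul_of_nonneg_right ?_ (Real.rpow_nonneg hR'.le _)
          exact Real.rpow_le_rpow_of_nonpos (by positivity) (by rw [hN1]; linarith)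
            (by linarith)
      _ = (2 ^ l : ℝ) ^ (-(5 - s)) := by
          rw [Real.mul_rpow hl.le hR'.le, mul_assoc, ← Real.rpow_add hR']
          simp
  have hW0 : 0 ≤ W := (Real.rpow_nonneg (by positivity) _).trans hW
  calc C * ((R * m / 2 ^ (κ + 2) : ℝ) / N) ^ (-a) * (N : ℝ) ^ (-(5 - s)) * (b * (R : ℝ) ^ (5 - s))
      = C * b * ((R * m / 2 ^ (κ + 2) : ℝ) / N) ^ (-a) *
          ((N : ℝ) ^ (-(5 - s)) * (R : ℝ) ^ (5 - s)) := by ring
    _ ≤ C * b * (W * 2 ^ (κ + 3)) * (2 ^ l : ℝ) ^ (-(5 - s)) := by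
        refine mul_le_mul (mul_le_mul_of_nonneg_left e2 (mul_nonneg hC hb)) e3 ?_ ?_
        · exact mul_nonneg (Real.rpow_nonneg hNp.le _) (Real.rpow_nonneg hR'.le _)
        · positivity
    _ = C * 2 ^ (κ + 3) * b * W * (2 ^ l : ℝ) ^ (-(5 - s)) := by ring

/-- cells and cubes -/
theorem tri_cube {L l R : ℕ} (hR : 2 ^ (L - l) = R) (hR0 : 0 < R) (x : Cell L) (e : Fin 4 → ℕ)
    (p : Fin 4 → ℤ) (hp : ∀ k, p k = 1 + e k * R) :
    pos x ∈ icube p R 0 ↔ cubeOf l x = e := by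
  unfold icube pos cubeOf
  simp only [Set.mem_ofPred_eq]
  rw [hR]
  constructor
  · intro h
    funext k
    have hk := h k
    rw [hp k] at hk
    rw [Nat.div_eq_iff hR0]
    have h1 : ((e k * R : ℕ) : ℤ) ≤ ((x k : ℕ) : ℤ) := by push_cast; linarith [hk.1]
    have h2 : ((x k : ℕ) : ℤ) < ((e k * R + R : ℕ) : ℤ) := by push_cast; linarith [hk.2]
    have h1' : e k * R ≤ (x k : ℕ) := by exact_mod_cast h1
    have h2' : (x k : ℕ) < e k * R + R := by exact_mod_cast h2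
    omega
  · intro h k
    have hk := congrFun h k
    rw [Nat.div_eq_iff hR0] at hk
    rw [hp k]
    have h1 : ((e k * R : ℕ) : ℤ) ≤ ((x k : ℕ) : ℤ) := by exact_mod_cast (by omega : e k * R ≤ (x k : ℕ))
    have h2 : ((x k : ℕ) : ℤ) < ((e k * R + R : ℕ) : ℤ) := by
      exact_mod_cast (by omega : (x k : ℕ) < e k * R + R)
    push_cast at h1 h2
    constructor <;> linarith

theorem tri_deep {L l R r : ℕ} (hR : 2 ^ (L - l) = R) (x : Cell L) (e : Fin 4 → ℕ)
    (p : Fin 4 → ℤ) (hp : ∀ k, p k = 1 + e k * R) (hx : cubeOf l x = e) (hd : Deep l r x) :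
    pos x ∈ icube p R (r : ℕ) := by
  intro k
  have hk := hd k
  rw [hR] at hk
  have hq := congrFun hx k
  unfold cubeOf at hq
  rw [hR] at hq
  have hxk := Nat.div_add_mod' (x k : ℕ) R
  rw [hq] at hxk
  unfold pos
  rw [hp k]
  have h0 : ((x k : ℕ) : ℤ) = e k * R + ((x k : ℕ) % R : ℕ) := by
    conv_lhs => rw [← hxk]
    push_cast
    ring
  have h1 : ((r : ℕ) : ℤ) ≤ (((x k : ℕ) % R : ℕ) : ℤ) := by exact_mod_cast hk.1
  have h2 : (((x k : ℕ) % R : ℕ) : ℤ) + ((r : ℕ) : ℤ) < ((R : ℕ) : ℤ) := by exact_mod_cast hk.2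
  constructor <;> rw [h0] <;> linarith

theorem tri_move {L l R : ℕ} (hR : 2 ^ (L - l) = R) (hR0 : 0 < R) (x y : Cell L)
    (e e' : Fin 4 → ℕ) (hx : cubeOf l x = e)
    (h : ∀ k, ((y k : ℕ) : ℤ) = ((x k : ℕ) : ℤ) + ((e' k : ℤ) - e k) * R) :
    cubeOf l y = e' ∧ ∀ k, (y k : ℕ) % 2 ^ (L - l) = (x k : ℕ) % 2 ^ (L - l) := by
  have key : ∀ k, (y k : ℕ) = (x k : ℕ) % R + R * e' k := by
    intro k
    have hq := congrFun hx k
    unfold cubeOf at hq
    rw [hR] at hq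
    have hxk := Nat.div_add_mod' (x k : ℕ) R
    rw [hq] at hxk
    have h0 : ((x k : ℕ) : ℤ) = e k * R + ((x k : ℕ) % R : ℕ) := by
      conv_lhs => rw [← hxk]
      push_cast
      ring
    have h1 := h k
    rw [h0] at h1
    have : ((y k : ℕ) : ℤ) = (((x k : ℕ) % R + R * e' k : ℕ) : ℤ) := by
      rw [h1]; push_cast; ring
    exact_mod_cast this
  rw [hR]
  constructor
  · funext k
    unfold cubeOf
    rw [hR, key k, Nat.add_mul_div_left _ _ hR0, Nat.div_eq_of_lt (Nat.mod_lt _ hR0), Nat.zero_add]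
  · intro k
    rw [key k, Nat.add_mul_mod_self_left, Nat.mod_mod]

/-- the cost of the blown-up map from the cost of the error and of the commutator -/
theorem tri_conj (hF : FKit) {s θ : ℝ} {ζ : ℝ → Eu 4 → Eu 4} (h0 : 0 ≤ s) (h1 : s < 1)
    (hB : Blow s θ ζ) (U : Set (Eu 4)) (F c : Eu 4 → Eu 4) (hFi : Function.Injective F) (τ a b : ℝ)
    (ha : FCost s U (fun x => c (Function.invFun (Th ζ τ F) x)) a) (hb : FCost s U c b) :
    FCost s U (Th ζ τ F) (a + b) := by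
  have hz : ∀ t, Function.Injective (ζ t) := by
    intro t x y hxy
    have hh : ∀ z, ζ (-t) (ζ t z) = z := fun z => by
      rw [← hB.add, neg_add_cancel, hB.zero]
    rw [← hh x, hxy, hh y]
  have hT : Function.Injective (Th ζ τ F) := fun x y hxy =>
    hz _ (hFi (hz _ hxy))
  have hA : Function.Injective (fun x => c (Function.invFun (Th ζ τ F) x)) := by
    obtain ⟨φ, l, hφ, -, h1', -⟩ := ha
    rw [← h1']
    exact (hφ.bij 1).1
  have h := hF.comp 4 s U _ _ _ _ h0 h1 (hF.inv 4 s U _ _ h0 h1 ha) hb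
  have he : (fun x => Function.invFun (fun x => c (Function.invFun (Th ζ τ F) x)) (c x)) =
      Th ζ τ F := by
    funext x
    have h2 : c x = (fun x => c (Function.invFun (Th ζ τ F) x)) (Th ζ τ F x) := by
      simp only [Function.leftInverse_invFun hT x]
    rw [h2]
    exact Function.leftInverse_invFun hA _
  rw [he] at h
  exact h

theorem tri_mcost {n : ℕ} {M : Type} [TopologicalSpace M] [Nonempty M] {ι : Type}
    {ch : ι → OpenPartialHomeomorph M (Eu n)} {N : (ι → Eu n → Eu n) → ℝ≥0∞} {f : M → M} {a b : ℝ}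
    (h : MCost ch N f a) (hab : a ≤ b) : MCost ch N f b := by
  obtain ⟨φ, l, h1, h2, h3, h4, h5, h6, h7⟩ := h
  exact ⟨φ, l, h1, h2, h3, h4, h5, h6, h7.trans hab⟩

theorem tri_qc {M : Type} [TopologicalSpace M] [Nonempty M] {ι : Type} [Fintype ι]
    {ch : ι → OpenPartialHomeomorph M (Eu 4)} {o : ι} {K : ι → Set (Eu 4)} {s : ℝ}
    {ζ : ℝ → Eu 4 → Eu 4} {L : ℕ} {F : Eu 4 → Eu 4} {a b : ℝ} (h : QC ch o K s ζ L F a)
    (hab : a ≤ b) : QC ch o K s ζ L F b := by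
  intro η hη
  obtain ⟨τ₀, h1, h2⟩ := h η hη
  exact ⟨τ₀, h1, fun τ hτ => tri_mcost (h2 τ hτ) (by linarith)⟩

theorem pc_tri (hBC : BCthm) (ha : X3a) (hb : X3b) (hc : X3c) (hF : FKit) (hL : SKloc)
    (hQ : QCKit) : PCtri := by
  intro M _ _ _ _ ι _ ch o K hG s θ ζ h0 h1 hBl κ
  obtain ⟨B, hB⟩ := ha κ
  obtain ⟨C1, hC1, hC1'⟩ := hBC s θ ζ h0 h1 hBl B
  obtain ⟨C2, hC2, hC2'⟩ := hb s h0 h1 κ
  obtain ⟨C3, hC3, hC3'⟩ := hQ.flat M ι ch o K hG s θ ζ h0 h1 hBl (2 ^ (κ + 3))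
  refine ⟨C3 * 2 ^ (κ + 3) * (16 * C1 + C2), by positivity, ?_⟩
  intro L l hLl d₁ d₂ d₃ i j hij hd hd2 hd3
  -- the scale
  obtain ⟨R, hR⟩ : ∃ R, R = 2 ^ (L - l) := ⟨_, rfl⟩
  obtain ⟨q, hq⟩ : ∃ q, L - l = q + (κ + 4) := ⟨L - l - (κ + 4), by omega⟩
  have hR0 : 0 < R := by rw [hR]; positivity
  have hdvd : 2 ^ (κ + 1) ∣ R := by
    rw [hR]; exact pow_dvd_pow 2 (by omega)
  have hr : R / 2 ^ (κ + 1) = 2 ^ (q + 3) := by
    rw [hR, Nat.pow_div (by omega) (by norm_num)]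
    congr 1; omega
  have hrr : 2 ^ (κ + 1) * (R / 2 ^ (κ + 1)) = R := Nat.mul_div_cancel' hdvd
  have hr8 : 8 ≤ R / 2 ^ (κ + 1) := by
    rw [hr, pow_add]; exact Nat.le_mul_of_pos_left _ (by positivity)
  have hNL : NN L = 2 ^ l * R + 2 := by
    rw [hR, ← pow_add, show l + (L - l) = L by omega]; rfl
  have h2lR : 2 ≤ 2 ^ l * R := by
    have : R / 2 ^ (κ + 1) ≤ R := Nat.div_le_self _ _
    exact le_trans (by omega) (Nat.le_mul_of_pos_left R (by positivity : 0 < 2 ^ l))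
  -- the corner
  obtain ⟨p, hp⟩ : ∃ p : Fin 4 → ℤ, ∀ k, p k = 1 + d₁ k * R := ⟨_, fun k => rfl⟩
  obtain ⟨u, hu⟩ : ∃ u : Bool, u = decide (d₂ i = d₁ i + 1) := ⟨_, rfl⟩
  obtain ⟨v, hv⟩ : ∃ v : Bool, v = decide (d₃ j = d₁ j + 1) := ⟨_, rfl⟩
  have hut : u = true → d₂ i = d₁ i + 1 := fun h => by
    rw [hu] at h; exact of_decide_eq_true h
  have huf : u = false → d₂ i + 1 = d₁ i := fun h => by
    rw [hu] at h; exact hd2.1.resolve_left (of_decide_eq_false h)
  have hvt : v = true → d₃ j = d₁ j + 1 := fun h => by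
    rw [hv] at h; exact of_decide_eq_true h
  have hvf : v = false → d₃ j + 1 = d₁ j := fun h => by
    rw [hv] at h; exact hd3.1.resolve_left (of_decide_eq_false h)
  have hlo := tri_lo κ R p d₁ i j hij u v hp (fun h => by have := huf h; omega)
    (fun h => by have := hvf h; omega)
  have hhi := tri_hi κ R l (NN L) p d₁ i j hij u v hp hNL (fun k => (hd k).1)
    (fun h => by have := hut h; have := (hd i).2.1; omega)
    (fun h => by have := hvt h; have := (hd j).2.2; omega)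
  have hwd := tri_width κ R p i j hij u v (by omega)
  -- the map
  obtain ⟨hCG, hfb⟩ := hB R p i j u v hij hdvd hR0
  obtain ⟨F, Φ, hP, hcore, hcon, hcost⟩ := hC1' i j _ _ (plo κ R p) (phi κ R p) (dn u R) (up u R)
    (dn v R) (up v R) hCG hfb
  have hcomm := hC2' R p i j u v hij hdvd hR0
  set f := pf κ R (fun k => p k) i (sg u) with hf
  set g := pf κ R (fun k => p k) j (sg v) with hg
  set lo : Fin 4 → ℝ := fun k => cLo i j (fun k => plo κ R p k) (dn u R) (dn v R) k - 1 with hlodef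
  set hi : Fin 4 → ℝ := fun k => cHi i j (fun k => phi κ R p k) (up u R) (up v R) k + 1 with hhidef
  have hr8' : (8 : ℝ) ≤ ((R / 2 ^ (κ + 1) : ℕ) : ℝ) := by exact_mod_cast hr8
  have hRr : (0 : ℝ) < R := by exact_mod_cast hR0
  have hR1 : (1 : ℝ) ≤ R := by exact_mod_cast hR0
  have hin : ∀ k, 1 ≤ lo k ∧ hi k ≤ (NN L : ℝ) - 1 := by
    intro k
    obtain ⟨e, -, he⟩ := hlo k
    obtain ⟨e', -, he'⟩ := hhi k
    have h3 : 0 ≤ (e : ℝ) * R := by positivity
    have h4 : 0 ≤ (e' : ℝ) * R := by positivity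
    simp only [hlodef, hhidef]
    constructor <;> linarith
  obtain ⟨σ, hσ, hσ'⟩ := hL L θ hBl.pos hBl.lt lo hi F Φ hin hP hcon (qmap i j f g) hcore
  refine ⟨σ, ⟨F, hσ, ?_⟩, ?_⟩
  · -- the cost
    obtain ⟨m, hm1, hm2, hm3⟩ := tri_min l d₁ (fun k => (hd k).1)
    have hinj : Function.Injective F := by
      have : Φ 1 = F := funext fun x => hP.ge1 1 le_rfl x
      rw [← this]
      exact (hP.fam.bij 1).1
    have hvol : ∏ k, (cHi i j (fun k => (phi κ R p k : ℝ)) (up u R : ℕ) (up v R : ℕ) k -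
        cLo i j (fun k => (plo κ R p k : ℝ)) (dn u R : ℕ) (dn v R : ℕ) k + 2) ≤
        16 * (R : ℝ) ^ (5 - s) := by
      have hpr : ∏ k : Fin 4, (cHi i j (fun k => (phi κ R p k : ℝ)) (up u R : ℕ) (up v R : ℕ) k -
          cLo i j (fun k => (plo κ R p k : ℝ)) (dn u R : ℕ) (dn v R : ℕ) k + 2) ≤
          ∏ _k : Fin 4, (2 * (R : ℝ)) := by
        refine Finset.prod_le_prod (fun k _ => ?_) (fun k _ => hwd k)
        have hcl : cLo i j (fun k => (plo κ R p k : ℝ)) (dn u R : ℕ) (dn v R : ℕ) k ≤ plo κ R p k := by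
          unfold cLo
          have h5 := hCG.nn.1
          have h6 := hCG.nn.2.2.1
          split_ifs <;> linarith
        have hch : (phi κ R p k : ℝ) ≤ cHi i j (fun k => (phi κ R p k : ℝ)) (up u R : ℕ)
            (up v R : ℕ) k := by
          unfold cHi
          have h5 := hCG.nn.2.1
          have h6 := hCG.nn.2.2.2
          split_ifs <;> linarith
        have hlh := hCG.lh k
        linarith
      refine hpr.trans ?_
      rw [Finset.prod_const, Finset.card_univ, Fintype.card_fin, mul_pow]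
      have : (R : ℝ) ^ 4 ≤ (R : ℝ) ^ (5 - s) := by
        rw [← Real.rpow_natCast]
        exact Real.rpow_le_rpow_of_exponent_le hR1 (by push_cast; linarith)
      norm_num
      linarith
    have hall : ∀ τ ≤ 0, FCost s (obox lo hi) (Th ζ τ F) ((16 * C1 + C2) * (R : ℝ) ^ (5 - s)) := by
      intro τ hτ
      have h3 := tri_conj hF h0 h1 hBl (obox lo hi) F (comm i j f g) hinj τ _ _ (hcost τ hτ) hcomm
      refine hF.mono 4 s _ _ _ _ _ subset_rfl ?_ h3
      have h4 := mul_le_mul_of_nonneg_left hvol hC1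
      linarith
    have hmr : (1 : ℝ) ≤ m := by exact_mod_cast hm1
    have hdpos : (0 : ℝ) < R * m / 2 ^ (κ + 2) := by positivity
    have hrr' : (2 : ℝ) ^ (κ + 1) * ((R / 2 ^ (κ + 1) : ℕ) : ℝ) = R := by exact_mod_cast hrr
    -- R * (e + 2) / 2 ^ (κ + 2) ≤ e * R + r
    have hdist : ∀ e : ℕ, m ≤ e + 2 →
        (R * m / 2 ^ (κ + 2) : ℝ) ≤ e * R + ((R / 2 ^ (κ + 1) : ℕ) : ℝ) := by
      intro e he
      have he' : (m : ℝ) ≤ e + 2 := by exact_mod_cast he
      have h1k : (1 : ℝ) ≤ 2 ^ κ := one_le_pow₀ (by norm_num)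
      rw [div_le_iff₀ (by positivity)]
      calc (R : ℝ) * m ≤ R * (e + 2) := by gcongr
        _ = e * R + 2 * (2 ^ (κ + 1) * ((R / 2 ^ (κ + 1) : ℕ) : ℝ)) := by rw [hrr']; ring
        _ ≤ (e * R) * 2 ^ (κ + 2) + 2 * (2 ^ (κ + 1) * ((R / 2 ^ (κ + 1) : ℕ) : ℝ)) := by
            have h6 : (1 : ℝ) ≤ 2 ^ (κ + 2) := one_le_pow₀ (by norm_num)
            have h7 : 0 ≤ (e : ℝ) * R := by positivity
            nlinarith
        _ = (e * R + ((R / 2 ^ (κ + 1) : ℕ) : ℝ)) * 2 ^ (κ + 2) := by ring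
    have hQC := hC3' L lo hi (R * m / 2 ^ (κ + 2)) hdpos (fun k => by
        obtain ⟨e, he, he2⟩ := hlo k
        obtain ⟨e', he', he2'⟩ := hhi k
        have h5 := hdist e (by have := (hm2 k).1; omega)
        have h6 := hdist e' (by have := (hm2 k).2; omega)
        simp only [hlodef, hhidef]
        constructor <;> linarith)
      (by
        have h5 := hwd 0
        have h6 : (2 : ℝ) ^ (κ + 3) * (R * m / 2 ^ (κ + 2)) = 2 * R * m := by
          rw [pow_succ]; field_simp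
        rw [h6]
        simp only [hlodef, hhidef]
        have h7 : 2 * (R : ℝ) ≤ 2 * R * m := by nlinarith
        linarith) F ((16 * C1 + C2) * (R : ℝ) ^ (5 - s)) (fun η hη =>
        ⟨0, le_rfl, fun τ hτ => hF.mono 4 s _ _ _ _ _ subset_rfl (by linarith) (hall τ hτ)⟩)
    refine tri_qc hQC ?_
    have := tri_cost s h0 h1 κ l R m (NN L) (wt ((1 + s) / 2) l d₁) C3 (16 * C1 + C2) hm1 hR0 hNL
      h2lR hC3 (tri_wt _ l d₁ (fun k => (hd k).1) m hm3) (by positivity)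
    exact this
  · -- the permutation
    obtain ⟨a, hadef⟩ : ∃ a : Fin 4 → ℤ, a = Pi.single i (if u then (R : ℤ) else -(R : ℤ)) :=
      ⟨_, rfl⟩
    obtain ⟨b, hbdef⟩ : ∃ b : Fin 4 → ℤ, b = Pi.single j (if v then (R : ℤ) else -(R : ℤ)) :=
      ⟨_, rfl⟩
    obtain ⟨c0, c1, c2, c3⟩ := hc κ R p i j u v hij hdvd hR0 (qmap i j f g) rfl a b hadef hbdef
    have hak : ∀ k, a k = ((d₂ k : ℤ) - d₁ k) * R := by
      intro k
      rw [hadef]
      by_cases hki : k = i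
      · subst hki
        rw [Pi.single_eq_same]
        cases hu' : u with
        | true => rw [hut hu']; simp
        | false => rw [← huf hu']; simp
      · rw [Pi.single_eq_of_ne hki, hd2.2 k hki]; ring
    have hbk : ∀ k, b k = ((d₃ k : ℤ) - d₁ k) * R := by
      intro k
      rw [hbdef]
      by_cases hkj : k = j
      · subst hkj
        rw [Pi.single_eq_same]
        cases hv' : v with
        | true => rw [hvt hv']; simp
        | false => rw [← hvf hv']; simp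
      · rw [Pi.single_eq_of_ne hkj, hd3.2 k hkj]; ring
    have hpa : ∀ k, (p + a) k = 1 + d₂ k * R := by
      intro k; rw [Pi.add_apply, hp, hak]; ring
    have hpb : ∀ k, (p + b) k = 1 + d₃ k * R := by
      intro k; rw [Pi.add_apply, hp, hbk]; ring
    have hRk : R / 2 ^ κ = 2 ^ (L - l - κ) := by
      rw [hR, Nat.pow_div (by omega) (by norm_num)]
    have hpos : ∀ (x : Cell L) (w : Fin 4 → ℤ), qmap i j f g (pos x) = pos x + w →
        ∀ k, ((σ x k : ℕ) : ℤ) = ((x k : ℕ) : ℤ) + w k := by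
      intro x w hw k
      have h3 := hσ' x
      rw [hw] at h3
      have h4 := congrFun h3 k
      simp only [pos, Pi.add_apply] at h4
      linarith
    refine ⟨?_, ?_, ?_, ?_⟩
    · intro x hx
      have hne : qmap i j f g (pos x) ≠ pos x := by
        intro h
        apply hx
        have h3 := hpos x 0 (by rw [h, add_zero])
        funext k
        apply Fin.ext
        have h4 := h3 k
        simp only [Pi.zero_apply, add_zero] at h4
        exact_mod_cast h4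
      rcases c0 _ hne with h | h | h
      · exact Or.inl ((tri_cube hR.symm hR0 x d₁ p hp).1 h)
      · exact Or.inr (Or.inl ((tri_cube hR.symm hR0 x d₂ _ hpa).1 h))
      · exact Or.inr (Or.inr ((tri_cube hR.symm hR0 x d₃ _ hpb).1 h))
    · intro x hx hD
      rw [← hRk] at hD
      have h3 := c1 _ (tri_deep hR.symm x d₁ p hp hx hD)
      have h4 := hpos x a h3
      refine tri_move hR.symm hR0 x (σ x) d₁ d₂ hx fun k => ?_
      rw [h4 k, hak]
    · intro x hx hD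
      rw [← hRk] at hD
      have h3 := c2 _ (tri_deep hR.symm x d₂ _ hpa hx hD)
      have h4 := hpos x (-a + b) (by rw [h3]; abel)
      refine tri_move hR.symm hR0 x (σ x) d₂ d₃ hx fun k => ?_
      rw [h4 k, Pi.add_apply, Pi.neg_apply, hak, hbk]
      ring
    · intro x hx hD
      rw [← hRk] at hD
      have h3 := c3 _ (tri_deep hR.symm x d₃ _ hpb hx hD)
      have h4 := hpos x (-b) (by rw [h3]; abel)
      refine tri_move hR.symm hR0 x (σ x) d₃ d₁ hx fun k => ?_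
      rw [h4 k, Pi.neg_apply, hbk]
      ring

end

end Pool.Agent.H6.ST
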