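import Pool.Agent.H6.ST.SK.Defs

/-! # ST-SK6: the data of the commutator of plateau functions -/

set_option autoImplicit false

namespace Pool.Agent.H6.ST

open MeasureTheory Set Pool.Agent.H68.VD Pool.Agent.H68.GM
open scoped ENNReal ContDiff

/-! ### functions with bounded derivatives -/

private def sk6_BD {E F : Type*} [NormedAddCommGroup E] [NormedSpace ℝ E]
    [NormedAddCommGroup F] [NormedSpace ℝ F] (f : E → F) : Prop :=
  ContDiff ℝ ∞ f ∧ ∀ m : ℕ, ∃ B : ℝ, ∀ x, ‖iteratedFDeriv ℝ m f x‖ ≤ B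

private theorem sk6_mul {E : Type*} [NormedAddCommGroup E] [NormedSpace ℝ E] {f g : E → ℝ}
    (hf : sk6_BD f) (hg : sk6_BD g) : sk6_BD (fun x => f x * g x) := by
  refine ⟨hf.1.mul hg.1, fun m => ?_⟩
  choose A hA using hf.2
  choose B hB using hg.2
  refine ⟨∑ i ∈ Finset.range (m + 1), (m.choose i : ℝ) * A i * B (m - i), fun x => ?_⟩
  refine (norm_iteratedFDeriv_mul_le hf.1 hg.1 x (n := m) (by exact_mod_cast le_top)).trans ?_
  refine Finset.sum_le_sum fun i _ => ?_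
  have hA0 : 0 ≤ A i := (norm_nonneg _).trans (hA i x)
  exact mul_le_mul (mul_le_mul_of_nonneg_left (hA i x) (Nat.cast_nonneg _)) (hB _ x)
    (norm_nonneg _) (mul_nonneg (Nat.cast_nonneg _) hA0)

private theorem sk6_const {E F : Type*} [NormedAddCommGroup E] [NormedSpace ℝ E]
    [NormedAddCommGroup F] [NormedSpace ℝ F] (c : F) : sk6_BD (fun _ : E => c) := by
  refine ⟨contDiff_const, fun m => ⟨‖c‖, fun x => ?_⟩⟩
  rcases m with _ | m
  · rw [norm_iteratedFDeriv_zero]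
  · rw [iteratedFDeriv_succ_const, Pi.zero_apply, norm_zero]
    exact norm_nonneg c

private theorem sk6_prod {E ι : Type*} [NormedAddCommGroup E] [NormedSpace ℝ E]
    (t : Finset ι) {f : ι → E → ℝ} (hf : ∀ i, sk6_BD (f i)) :
    sk6_BD (fun x => ∏ i ∈ t, f i x) := by
  classical
  induction t using Finset.induction_on with
  | empty => simpa using sk6_const (E := E) (1 : ℝ)
  | insert a s ha ih =>
    simp only [Finset.prod_insert ha]
    exact sk6_mul (hf a) ih

private theorem sk6_right {E F G : Type*} [NormedAddCommGroup E] [NormedSpace ℝ E]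
    [NormedAddCommGroup F] [NormedSpace ℝ F] [NormedAddCommGroup G] [NormedSpace ℝ G]
    (L : G →L[ℝ] E) {f : E → F} (hf : sk6_BD f) : sk6_BD (fun x => f (L x)) := by
  refine ⟨hf.1.comp L.contDiff, fun m => ?_⟩
  obtain ⟨A, hA⟩ := hf.2 m
  refine ⟨A * ∏ _i : Fin m, ‖L‖, fun x => ?_⟩
  have h1 : iteratedFDeriv ℝ m (fun x => f (L x)) x =
      (iteratedFDeriv ℝ m f (L x)).compContinuousLinearMap fun _ => L :=
    L.iteratedFDeriv_comp_right (f := f) hf.1 x (i := m) (by exact_mod_cast le_top)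
  rw [h1]
  refine (ContinuousMultilinearMap.norm_compContinuousLinearMap_le _ _).trans ?_
  exact mul_le_mul_of_nonneg_right (hA _) (Finset.prod_nonneg fun _ _ => norm_nonneg _)

/-! ### the plateau function -/

private theorem sk6_pl_smooth (κ : ℕ) : ContDiff ℝ ∞ (pl κ) := by
  unfold pl
  refine ContDiff.mul ?_ ?_
  · exact Real.smoothTransition.contDiff.comp
      ((contDiff_const.mul contDiff_id).sub contDiff_const)
  · exact Real.smoothTransition.contDiff.comp
      ((contDiff_const.mul (contDiff_const.sub contDiff_id)).sub contDiff_const)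

private theorem sk6_pl_supp (κ : ℕ) (t : ℝ) (h : pl κ t ≠ 0) :
    1 < 2 ^ (κ + 1) * t ∧ 1 < 2 ^ (κ + 1) * (1 - t) := by
  constructor
  · by_contra hcon
    rw [not_lt] at hcon
    apply h
    unfold pl
    rw [Real.smoothTransition.zero_of_nonpos (by linarith), zero_mul]
  · by_contra hcon
    rw [not_lt] at hcon
    apply h
    unfold pl
    rw [Real.smoothTransition.zero_of_nonpos (x := 2 ^ (κ + 1) * (1 - t) - 1) (by linarith),
      mul_zero]

private theorem sk6_pl_nonneg (κ : ℕ) (t : ℝ) : 0 ≤ pl κ t :=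
  mul_nonneg (Real.smoothTransition.nonneg _) (Real.smoothTransition.nonneg _)

private theorem sk6_pl_le (κ : ℕ) (t : ℝ) : pl κ t ≤ 1 :=
  mul_le_one₀ (Real.smoothTransition.le_one _) (Real.smoothTransition.nonneg _)
    (Real.smoothTransition.le_one _)

private theorem sk6_pl_bd (κ : ℕ) : sk6_BD (pl κ) := by
  refine ⟨sk6_pl_smooth κ, fun m => ?_⟩
  have h1 : HasCompactSupport (pl κ) := by
    refine HasCompactSupport.intro (isCompact_Icc (a := (0 : ℝ)) (b := 1)) fun t ht => ?_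
    by_contra hcon
    obtain ⟨h2, h3⟩ := sk6_pl_supp κ t hcon
    have h4 : (0 : ℝ) < 2 ^ (κ + 1) := by positivity
    apply ht
    constructor
    · by_contra h5
      rw [not_le] at h5
      nlinarith
    · by_contra h5
      rw [not_le] at h5
      nlinarith
  have h2 : Continuous (iteratedFDeriv ℝ m (pl κ)) :=
    (sk6_pl_smooth κ).continuous_iteratedFDeriv (by exact_mod_cast le_top)
  exact h2.bounded_above_of_compact_support (h1.iteratedFDeriv m)

/-- the normalised product -/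
private noncomputable def sk6_ph (κ : ℕ) (i : Fin 4) (x : Eu 4) : ℝ :=
  ∏ k ∈ Finset.univ.erase i, pl κ (x k)

private theorem sk6_ph_bd (κ : ℕ) (i : Fin 4) : sk6_BD (sk6_ph κ i) :=
  sk6_prod _ fun k => sk6_right (EuclideanSpace.proj (𝕜 := ℝ) k) (sk6_pl_bd κ)

private theorem sk6_ph_nonneg (κ : ℕ) (i : Fin 4) (x : Eu 4) : 0 ≤ sk6_ph κ i x :=
  Finset.prod_nonneg fun _ _ => sk6_pl_nonneg κ _

private theorem sk6_ph_le (κ : ℕ) (i : Fin 4) (x : Eu 4) : sk6_ph κ i x ≤ 1 :=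
  Finset.prod_le_one (fun _ _ => sk6_pl_nonneg κ _) fun _ _ => sk6_pl_le κ _

private theorem sk6_pf (κ : ℕ) (R : ℝ) (p : Fin 4 → ℝ) (i : Fin 4) (ε : ℝ) (x : Eu 4) :
    pf κ R p i ε x = (ε * R) • sk6_ph κ i (R⁻¹ • (x - WithLp.toLp 2 p)) := by
  unfold pf sk6_ph
  rw [smul_eq_mul]
  congr 1
  refine Finset.prod_congr rfl fun k _ => ?_
  congr 1
  simp only [PiLp.smul_apply, PiLp.sub_apply, smul_eq_mul]
  rw [div_eq_inv_mul]

private theorem sk6_scale {F : Type*} [NormedAddCommGroup F] [NormedSpace ℝ F] {n : ℕ}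
    (G : Eu n → F) (hG : Differentiable ℝ G) (b a : ℝ) (P : Eu n) :
    fderiv ℝ (fun x => b • G (a • (x - P))) = fun x => (b * a) • fderiv ℝ G (a • (x - P)) := by
  funext x
  have h1 : HasFDerivAt (fun x : Eu n => a • (x - P)) (a • ContinuousLinearMap.id ℝ (Eu n)) x :=
    ((hasFDerivAt_id x).sub_const P).const_smul a
  have h2 := ((hG (a • (x - P))).hasFDerivAt.comp x h1).const_smul b
  have h3 : fderiv ℝ (fun x => b • G (a • (x - P))) x =
      b • (fderiv ℝ G (a • (x - P))).comp (a • ContinuousLinearMap.id ℝ (Eu n)) := h2.fderiv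
  rw [h3, ContinuousLinearMap.comp_smul, ContinuousLinearMap.comp_id, smul_smul]

private theorem sk6_ns {F : Type*} [NormedAddCommGroup F] [NormedSpace ℝ F] {n : ℕ}
    (G : Eu n → F) (hG : Differentiable ℝ G) (b a : ℝ) (P : Eu n) (x : Eu n) :
    ‖fderiv ℝ (fun x => b • G (a • (x - P))) x‖ = |b * a| * ‖fderiv ℝ G (a • (x - P))‖ := by
  rw [sk6_scale G hG b a P]
  show ‖(b * a) • fderiv ℝ G (a • (x - P))‖ = _
  rw [norm_smul, Real.norm_eq_abs]

theorem x3a : X3a := by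
  intro κ
  -- the bound
  choose B hB using fun i m => (sk6_ph_bd κ i).2 m
  have hB0 : ∀ i m, 0 ≤ B i m := fun i m => (norm_nonneg _).trans (hB i m 0)
  have hle1 : ∀ i, B i 1 ≤ ∑ i, (B i 1 + B i 2) := fun i =>
    (le_add_of_nonneg_right (hB0 i 2)).trans
      (Finset.single_le_sum (f := fun i => B i 1 + B i 2)
        (fun l _ => add_nonneg (hB0 l 1) (hB0 l 2)) (Finset.mem_univ i))
  have hle2 : ∀ i, B i 2 ≤ ∑ i, (B i 1 + B i 2) := fun i =>
    (le_add_of_nonneg_left (hB0 i 1)).trans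
      (Finset.single_le_sum (f := fun i => B i 1 + B i 2)
        (fun l _ => add_nonneg (hB0 l 1) (hB0 l 2)) (Finset.mem_univ i))
  have hφ1 : ∀ i x, ‖fderiv ℝ (sk6_ph κ i) x‖ ≤ B i 1 := fun i x => by
    rw [← norm_iteratedFDeriv_one]
    exact hB i 1 x
  have hφ2 : ∀ i x, ‖fderiv ℝ (fderiv ℝ (sk6_ph κ i)) x‖ ≤ B i 2 := fun i x => by
    rw [← norm_iteratedFDeriv_one, norm_iteratedFDeriv_fderiv]
    exact hB i 2 x
  have hφd : ∀ i, Differentiable ℝ (sk6_ph κ i) := fun i =>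
    (sk6_ph_bd κ i).1.differentiable (by simp)
  have hφdd : ∀ i, Differentiable ℝ (fderiv ℝ (sk6_ph κ i)) := fun i =>
    ((sk6_ph_bd κ i).1.fderiv_right (m := ∞) (by simp)).differentiable (by simp)
  refine ⟨∑ i, (B i 1 + B i 2), fun R p i j u v hij hdvd hR => ?_⟩
  have hR0 : (0 : ℝ) < R := by exact_mod_cast hR
  have hR1 : (1 : ℝ) ≤ R := by exact_mod_cast hR
  obtain ⟨r, hr⟩ := hdvd
  have hr2 : R / 2 ^ (κ + 1) = r := by
    rw [hr]
    exact Nat.mul_div_cancel_left r (by positivity)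
  have hrR : (2 : ℝ) ^ (κ + 1) * r = R := by
    rw [hr]
    push_cast
    ring
  have hsg : ∀ w : Bool, |sg w| = 1 := by
    intro w
    unfold sg
    split_ifs <;> simp
  -- properties of one function
  have hsmooth : ∀ (l : Fin 4) (w : Bool), ContDiff ℝ ∞ (pf κ R (fun k => (p k : ℝ)) l (sg w)) := by
    intro l w
    have h1 : pf κ R (fun k => (p k : ℝ)) l (sg w) = fun x => (sg w * R) •
        sk6_ph κ l ((R : ℝ)⁻¹ • (x - WithLp.toLp 2 (fun k => (p k : ℝ)))) :=
      funext fun x => sk6_pf κ R _ l _ x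
    rw [h1]
    have h2 : ContDiff ℝ ∞ (fun x : Eu 4 => (R : ℝ)⁻¹ • (x - WithLp.toLp 2 (fun k => (p k : ℝ)))) :=
      (contDiff_id.sub contDiff_const).const_smul _
    exact ((sk6_ph_bd κ l).1.comp h2).const_smul _
  have hind : ∀ (l : Fin 4) (w : Bool) (x : Eu 4) (a : ℝ),
      pf κ R (fun k => (p k : ℝ)) l (sg w) (x + a • ev l) =
        pf κ R (fun k => (p k : ℝ)) l (sg w) x := by
    intro l w x a
    unfold pf
    congr 1
    refine Finset.prod_congr rfl fun k hk => ?_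
    have h1 : (x + a • (ev l : Eu 4)) k = x k := by
      have h2 : k ≠ l := (Finset.mem_erase.mp hk).1
      simp [ev, h2]
    rw [h1]
  have hsupp : ∀ (l : Fin 4) (w : Bool) (x : Eu 4), pf κ R (fun k => (p k : ℝ)) l (sg w) x ≠ 0 →
      ∀ k, k ≠ l → (plo κ R p k : ℝ) ≤ x k ∧ x k ≤ (phi κ R p k : ℝ) := by
    intro l w x hx k hk
    have h1 : pl κ ((x k - p k) / R) ≠ 0 := by
      intro h0
      apply hx
      unfold pf
      rw [Finset.prod_eq_zero (Finset.mem_erase.mpr ⟨hk, Finset.mem_univ k⟩) h0, mul_zero]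
    obtain ⟨h2, h3⟩ := sk6_pl_supp κ _ h1
    unfold plo phi
    rw [hr2]
    push_cast
    have h4 : (2 : ℝ) ^ (κ + 1) = R / r := by
      rw [eq_div_iff, hrR]
      rintro h0
      rw [h0, mul_zero] at hrR
      linarith
    have hr0 : (0 : ℝ) < r := by
      by_contra h0
      rw [not_lt] at h0
      have h5 : (r : ℝ) = 0 := le_antisymm h0 (Nat.cast_nonneg r)
      rw [h5, mul_zero] at hrR
      linarith
    constructor
    · have h5 : R / r * ((x k - p k) / R) = (x k - p k) / r := by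
        field_simp
      rw [h4, h5, lt_div_iff₀ hr0] at h2
      linarith
    · have h5 : R / r * (1 - (x k - p k) / R) = (R - (x k - p k)) / r := by
        field_simp
      rw [h4, h5, lt_div_iff₀ hr0] at h3
      linarith
  have hval : ∀ (l : Fin 4) (w : Bool) (x : Eu 4),
      -((dn w R : ℕ) : ℝ) ≤ pf κ R (fun k => (p k : ℝ)) l (sg w) x ∧
        pf κ R (fun k => (p k : ℝ)) l (sg w) x ≤ ((up w R : ℕ) : ℝ) := by
    intro l w x
    rw [sk6_pf, smul_eq_mul]
    have h1 := sk6_ph_nonneg κ l ((R : ℝ)⁻¹ • (x - WithLp.toLp 2 (fun k => (p k : ℝ))))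
    have h2 := sk6_ph_le κ l ((R : ℝ)⁻¹ • (x - WithLp.toLp 2 (fun k => (p k : ℝ))))
    generalize sk6_ph κ l ((R : ℝ)⁻¹ • (x - WithLp.toLp 2 (fun k => (p k : ℝ)))) = y at h1 h2
    cases w
    · simp only [dn, up, sg, Bool.false_eq_true, if_false, Nat.cast_zero]
      constructor <;> nlinarith
    · simp only [dn, up, sg, if_true, Nat.cast_zero, neg_zero]
      constructor <;> nlinarith
  have hd : ∀ (l : Fin 4) (w : Bool) (x : Eu 4),
      ‖fderiv ℝ (pf κ R (fun k => (p k : ℝ)) l (sg w)) x‖ ≤ ∑ i, (B i 1 + B i 2) ∧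
      ‖fderiv ℝ (fderiv ℝ (pf κ R (fun k => (p k : ℝ)) l (sg w))) x‖ ≤
        ∑ i, (B i 1 + B i 2) := by
    intro l w x
    have h1 : pf κ R (fun k => (p k : ℝ)) l (sg w) = fun x => (sg w * R) •
        sk6_ph κ l ((R : ℝ)⁻¹ • (x - WithLp.toLp 2 (fun k => (p k : ℝ)))) :=
      funext fun x => sk6_pf κ R _ l _ x
    have h2 := sk6_scale (sk6_ph κ l) (hφd l) (sg w * R) (R : ℝ)⁻¹
      (WithLp.toLp 2 (fun k => (p k : ℝ)))
    rw [← h1, mul_inv_cancel_right₀ hR0.ne'] at h2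
    constructor
    · rw [h1, sk6_ns (sk6_ph κ l) (hφd l) (sg w * R) (R : ℝ)⁻¹
        (WithLp.toLp 2 (fun k => (p k : ℝ))) x, mul_inv_cancel_right₀ hR0.ne', hsg, one_mul]
      exact (hφ1 l _).trans (hle1 l)
    · rw [h2, sk6_ns (fderiv ℝ (sk6_ph κ l)) (hφdd l) (sg w) (R : ℝ)⁻¹
        (WithLp.toLp 2 (fun k => (p k : ℝ))) x, abs_mul, hsg, one_mul,
        abs_of_pos (inv_pos.mpr hR0)]
      exact (mul_le_of_le_one_left (norm_nonneg _) (inv_le_one_of_one_le₀ hR1)).trans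
        ((hφ2 l _).trans (hle2 l))
  refine ⟨⟨hij, hsmooth i u, hsmooth j v, hind i u, hind j v, hsupp i u, hsupp j v, hval i u,
    hval j v, ⟨Nat.cast_nonneg _, Nat.cast_nonneg _, Nat.cast_nonneg _, Nat.cast_nonneg _⟩, ?_⟩,
    fun x => ⟨(hd i u x).1, (hd j v x).1, (hd i u x).2, (hd j v x).2⟩⟩
  intro k
  unfold plo phi
  rw [hr2]
  push_cast
  have h1 : (2 : ℝ) ≤ 2 ^ (κ + 1) := by
    rw [pow_succ]
    have : (1 : ℝ) ≤ 2 ^ κ := one_le_pow₀ (by norm_num)
    linarith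
  have h2 : (0 : ℝ) ≤ r := Nat.cast_nonneg r
  nlinarith

end Pool.Agent.H6.ST
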