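import Pool.Agent.H6.ST.SK.X3a

/-! # ST-SK7: the flat cost of the commutator of plateau functions -/

set_option autoImplicit false

namespace Pool.Agent.H6.ST

open MeasureTheory Set Pool.Agent.H68.VD Pool.Agent.H68.GM
open scoped ENNReal ContDiff

theorem x3b_open (a b : Fin 4 → ℝ) : IsOpen (obox a b) := by
  have h1 : obox a b = ⋂ k : Fin 4, {x : Eu 4 | a k < x k ∧ x k < b k} := by
    ext x
    simp [obox]
  rw [h1]
  refine isOpen_iInter_of_finite fun k => ?_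
  have hc : Continuous fun x : Eu 4 => x k := by fun_prop
  exact (isOpen_lt continuous_const hc).inter (isOpen_lt hc continuous_const)

theorem x3b_shear (i : Fin 4) (f f0 : Eu 4 → ℝ) (m : ℝ) (P : Eu 4)
    (h : ∀ x, f (m • x + P) = m * f0 x) (x : Eu 4) :
    shear i f (m • x + P) = m • shear i f0 x + P := by
  unfold shear
  rw [h, smul_add, smul_smul]
  abel

theorem x3b_comm (i j : Fin 4) (f g f0 g0 : Eu 4 → ℝ) (m : ℝ) (P : Eu 4)
    (hf : ∀ x, f (m • x + P) = m * f0 x) (hg : ∀ x, g (m • x + P) = m * g0 x) (x : Eu 4) :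
    comm i j f g (m • x + P) = m • comm i j f0 g0 x + P := by
  unfold comm
  have hf' : ∀ x, -f (m • x + P) = m * -f0 x := fun x => by rw [hf]; ring
  have hg' : ∀ x, -g (m • x + P) = m * -g0 x := fun x => by rw [hg]; ring
  rw [x3b_shear j (fun y => -g y) (fun y => -g0 y) m P hg',
    x3b_shear i (fun y => -f y) (fun y => -f0 y) m P hf',
    x3b_shear j g g0 m P hg, x3b_shear i f f0 m P hf]

theorem x3b_pf (κ R m : ℕ) (hm : 0 < m) (hR : R = 2 ^ (κ + 1) * m) (p : Fin 4 → ℤ) (i : Fin 4)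
    (e : ℝ) (x : Eu 4) :
    pf κ R (fun k => (p k : ℝ)) i e ((m : ℝ) • x + WithLp.toLp 2 (fun k => (p k : ℝ))) =
      m * pf κ ((2 ^ (κ + 1) : ℕ) : ℝ) (fun k => (((0 : Fin 4 → ℤ) k : ℤ) : ℝ)) i e x := by
  unfold pf
  have hm0 : (0 : ℝ) < m := by exact_mod_cast hm
  have h1 : ∀ k, (((m : ℝ) • x + WithLp.toLp 2 (fun k => (p k : ℝ)) : Eu 4) k - (p k : ℝ)) / (R : ℝ)
      = (x k - (((0 : Fin 4 → ℤ) k : ℤ) : ℝ)) / ((2 ^ (κ + 1) : ℕ) : ℝ) := by
    intro k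
    have h2 : ((m : ℝ) • x + WithLp.toLp 2 (fun k => (p k : ℝ)) : Eu 4) k = m * x k + p k := by
      simp
    rw [h2, hR]
    push_cast
    simp only [Pi.zero_apply, Int.cast_zero, sub_zero, add_sub_cancel_right]
    rw [mul_comm ((2 : ℝ) ^ (κ + 1)) (m : ℝ), mul_div_mul_left _ _ hm0.ne']
  rw [Finset.prod_congr rfl fun k _ => by rw [h1 k], hR]
  push_cast
  ring

theorem x3b (hF : FKit) (hC : CommPath) (hB : FEbd) : X3b := by
  intro s hs0 hs1 κ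
  obtain ⟨B, hX⟩ := x3a κ
  have hR0 : 0 < 2 ^ (κ + 1) := by positivity
  -- the base case
  have hbase : ∀ (q : Fin 4 × Fin 4 × Bool × Bool), ∃ C : ℝ, 0 ≤ C ∧ (q.1 ≠ q.2.1 →
      ∀ t ∈ Set.Icc (0 : ℝ) 1, FE s (vel (fun t => comm q.1 q.2.1 (fun x => Real.smoothTransition t *
        pf κ ((2 ^ (κ + 1) : ℕ) : ℝ) (fun k => (((0 : Fin 4 → ℤ) k : ℤ) : ℝ)) q.1 (sg q.2.2.1) x)
        (pf κ ((2 ^ (κ + 1) : ℕ) : ℝ) (fun k => (((0 : Fin 4 → ℤ) k : ℤ) : ℝ)) q.2.1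
          (sg q.2.2.2))) t) ≤ ENNReal.ofReal C) := by
    rintro ⟨i, j, u, v⟩
    by_cases hij : i = j
    · exact ⟨0, le_rfl, fun h => absurd hij h⟩
    · obtain ⟨h1, -⟩ := hX (2 ^ (κ + 1)) 0 i j u v hij (dvd_refl _) hR0
      obtain ⟨C, hC0, hCb⟩ := hB 4 s _ _ _ hs0 hs1 (hC i j _ _ _ _ _ _ _ _ 1 h1 one_pos)
      exact ⟨C, hC0, fun _ => hCb⟩
  choose Cq hCq0 hCq using hbase
  refine ⟨∑ q, Cq q, Finset.sum_nonneg fun q _ => hCq0 q, ?_⟩
  intro R p i j u v hij hdvd hR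
  obtain ⟨m, hm⟩ := hdvd
  have hm0 : 0 < m := by
    rcases Nat.eq_zero_or_pos m with h | h
    · rw [h, mul_zero] at hm
      omega
    · exact h
  have hmR : (0 : ℝ) < m := by exact_mod_cast hm0
  have hcg := (hX (2 ^ (κ + 1)) 0 i j u v hij (dvd_refl _) hR0).1
  have hpath := hC i j _ _ _ _ _ _ _ _ (1 / (m : ℝ)) hcg (by positivity)
  have h1 := hF.path 4 s _ _ _ hs0 hs1 (x3b_open _ _) hpath (Cq (i, j, u, v)) (hCq0 _)
    (hCq (i, j, u, v) hij)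
  have h2 := hF.shift 4 s _ _ _ (WithLp.toLp 2 (fun k => (p k : ℝ))) hs0 hs1
    (hF.scale 4 s _ _ _ (m : ℝ) hs0 hs1 hmR h1)
  have hfun : (fun x : Eu 4 => (m : ℝ) • comm i j
      (pf κ ((2 ^ (κ + 1) : ℕ) : ℝ) (fun k => (((0 : Fin 4 → ℤ) k : ℤ) : ℝ)) i (sg u))
      (pf κ ((2 ^ (κ + 1) : ℕ) : ℝ) (fun k => (((0 : Fin 4 → ℤ) k : ℤ) : ℝ)) j (sg v))
      ((m : ℝ)⁻¹ • (x - WithLp.toLp 2 (fun k => (p k : ℝ)))) + WithLp.toLp 2 (fun k => (p k : ℝ))) =
      comm i j (pf κ R (fun k => (p k : ℝ)) i (sg u)) (pf κ R (fun k => (p k : ℝ)) j (sg v)) := by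
    funext x
    rw [← x3b_comm i j _ _ _ _ (m : ℝ) (WithLp.toLp 2 (fun k => (p k : ℝ)))
      (x3b_pf κ R m hm0 hm p i (sg u)) (x3b_pf κ R m hm0 hm p j (sg v)), smul_smul,
      mul_inv_cancel₀ hmR.ne', one_smul, sub_add_cancel]
  rw [hfun] at h2
  have hdiv : R / 2 ^ (κ + 1) = m := by
    rw [hm]
    exact Nat.mul_div_cancel_left m hR0
  have hdiv0 : 2 ^ (κ + 1) / 2 ^ (κ + 1) = 1 := Nat.div_self hR0
  have hup : ∀ w : Bool, ((up w R : ℕ) : ℝ) = m * ((up w (2 ^ (κ + 1)) : ℕ) : ℝ) := by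
    intro w
    cases w
    · simp [up]
    · simp only [up, if_true]
      rw [hm]
      push_cast
      ring
  have hdn : ∀ w : Bool, ((dn w R : ℕ) : ℝ) = m * ((dn w (2 ^ (κ + 1)) : ℕ) : ℝ) := by
    intro w
    cases w
    · simp only [dn, Bool.false_eq_true, if_false]
      rw [hm]
      push_cast
      ring
    · simp [dn]
  refine hF.mono 4 s _ _ _ _ _ ?_ ?_ h2
  · intro x hx k
    have hk := hx k
    have hxk : ((m : ℝ)⁻¹ • (x - WithLp.toLp 2 (fun k => (p k : ℝ))) : Eu 4) k =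
        (m : ℝ)⁻¹ * (x k - p k) := by simp
    rw [hxk] at hk
    obtain ⟨hk1, hk2⟩ := hk
    have hmm : (m : ℝ) * ((m : ℝ)⁻¹ * (x k - p k)) = x k - p k := by
      rw [← mul_assoc, mul_inv_cancel₀ hmR.ne', one_mul]
    have h3 := mul_lt_mul_of_pos_left hk1 hmR
    have h4 := mul_lt_mul_of_pos_left hk2 hmR
    rw [hmm] at h3 h4
    have hm1 : (m : ℝ) * (1 / (m : ℝ)) = 1 := by field_simp
    simp only [cLo, cHi, plo, phi, hdiv, hdiv0] at h3 h4 ⊢
    simp only [hup, hdn]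
    rw [mul_sub, mul_sub, mul_sub, hm1] at h3
    rw [mul_add, mul_add, mul_add, hm1] at h4
    have e1 : ∀ (c : Prop) [Decidable c] (y : ℝ), (if c then (m : ℝ) * y else 0) =
        m * (if c then y else 0) := by
      intro c _ y
      split_ifs <;> simp
    simp only [e1]
    push_cast at h3 h4 ⊢
    have hmR2 : (R : ℝ) = 2 ^ (κ + 1) * m := by
      rw [hm]; push_cast; ring
    rw [hmR2]
    simp only [Pi.zero_apply, Int.cast_zero, zero_add] at h3 h4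
    constructor
    · linarith
    · linarith
  · have hle : Cq (i, j, u, v) ≤ ∑ q, Cq q :=
      Finset.single_le_sum (f := Cq) (fun q _ => hCq0 q) (Finset.mem_univ _)
    have hmle : (m : ℝ) ≤ R := by
      rw [hm]
      push_cast
      have : (1 : ℝ) ≤ 2 ^ (κ + 1) := one_le_pow₀ (by norm_num)
      nlinarith
    have he : ((4 : ℕ) : ℝ) + 1 - s = 5 - s := by
      push_cast; ring
    rw [he, mul_comm]
    have h5 : (m : ℝ) ^ (5 - s) ≤ (R : ℝ) ^ (5 - s) :=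
      Real.rpow_le_rpow hmR.le hmle (by linarith)
    exact mul_le_mul hle h5 (Real.rpow_nonneg hmR.le _) (Finset.sum_nonneg fun q _ => hCq0 q)

end Pool.Agent.H6.ST
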