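import Pool.Agent.H6.ST.SK.Defs

/-! # The integer map of the commutator of plateau functions (row ST-SK8) -/

set_option autoImplicit false

namespace Pool.Agent.H6.ST

open MeasureTheory Set Pool.Agent.H68.VD Pool.Agent.H68.GM
open scoped ENNReal ContDiff

noncomputable section

/-- The properties of an integer plateau function with the value `β` inside of the cube `p + [0, R)^4`
that does not depend on the coordinate `j`. -/
structure sk8_P (R r : ℤ) (p : Fin 4 → ℤ) (j : Fin 4) (β : ℤ) (G : (Fin 4 → ℤ) → ℤ) : Prop where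
  dep : ∀ c c', (∀ k, k ≠ j → c k = c' k) → G c = G c'
  out : ∀ c k, k ≠ j → ¬ (p k ≤ c k ∧ c k < p k + R) → G c = 0
  rng : ∀ c, (0 ≤ G c ∧ G c ≤ β) ∨ (β ≤ G c ∧ G c ≤ 0)
  deep : ∀ c, (∀ k, k ≠ j → r ≤ c k - p k ∧ c k - p k + r < R) → G c = β

/-- The four steps. -/
def sk8_q (i j : Fin 4) (F G : (Fin 4 → ℤ) → ℤ) (c : Fin 4 → ℤ) : Fin 4 → ℤ :=
  let c1 := c - Pi.single j (G c)
  let c2 := c1 - Pi.single i (F c1)
  let c3 := c2 + Pi.single j (G c2)
  c3 + Pi.single i (F c3)

theorem sk8_eval {i j : Fin 4} {F G : (Fin 4 → ℤ) → ℤ} {c : Fin 4 → ℤ} {g0 f0 g1 f1 : ℤ}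
    (h1 : G c = g0) (h2 : F (c - Pi.single j g0) = f0)
    (h3 : G (c - Pi.single j g0 - Pi.single i f0) = g1)
    (h4 : F (c - Pi.single j g0 - Pi.single i f0 + Pi.single j g1) = f1) :
    sk8_q i j F G c = c - Pi.single j g0 - Pi.single i f0 + Pi.single j g1 + Pi.single i f1 := by
  subst h1 h2 h3 h4
  rfl

section Core

variable {R r : ℤ} {p : Fin 4 → ℤ} {i j : Fin 4} {α β : ℤ} {F G : (Fin 4 → ℤ) → ℤ}

theorem sk8_out (hij : i ≠ j) (hR : 0 < R) (hα : α = R ∨ α = -R) (hβ : β = R ∨ β = -R)
    (hF : sk8_P R r p i α F) (hG : sk8_P R r p j β G) (c : Fin 4 → ℤ)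
    (hc : sk8_q i j F G c ≠ c) :
    c ∈ icube p R 0 ∨ c ∈ icube (p + Pi.single i α) R 0 ∨ c ∈ icube (p + Pi.single j β) R 0 := by
  have hji : j ≠ i := hij.symm
  by_cases hk : ∀ k, k ≠ i → k ≠ j → p k ≤ c k ∧ c k < p k + R
  · by_cases hi : p i ≤ c i ∧ c i < p i + R
    · by_cases hj : p j ≤ c j ∧ c j < p j + R
      · -- the first cube
        left
        intro k
        by_cases h1 : k = i
        · subst h1; omega
        · by_cases h2 : k = j
          · subst h2; omega
          · have := hk k h1 h2; omega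
      · by_cases hj2 : p j + β ≤ c j ∧ c j < p j + β + R
        · -- the third cube
          right; right
          intro k
          by_cases h1 : k = j
          · subst h1
            rw [Pi.add_apply, Pi.single_eq_same]
            omega
          · rw [Pi.add_apply, Pi.single_eq_of_ne h1]
            by_cases h2 : k = i
            · subst h2; omega
            · have := hk k h2 h1; omega
        · exfalso
          apply hc
          have hg := hG.rng c
          have h2 : F (c - Pi.single j (G c)) = 0 := by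
            refine hF.out _ j hji ?_
            rw [Pi.sub_apply, Pi.single_eq_same]
            omega
          have h3 : G (c - Pi.single j (G c) - Pi.single i 0) = G c := by
            refine hG.dep _ _ fun k hk => ?_
            rw [Pi.single_zero, sub_zero, Pi.sub_apply, Pi.single_eq_of_ne hk, sub_zero]
          have h4 : F (c - Pi.single j (G c) - Pi.single i 0 + Pi.single j (G c)) = 0 := by
            rw [Pi.single_zero, sub_zero, sub_add_cancel]
            exact hF.out _ j hji hj
          rw [sk8_eval rfl h2 h3 h4, Pi.single_zero, sub_zero, sub_add_cancel, add_zero]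
    · have h1 : G c = 0 := hG.out _ i hij hi
      by_cases hj : p j ≤ c j ∧ c j < p j + R
      · by_cases hi2 : p i + α ≤ c i ∧ c i < p i + α + R
        · -- the second cube
          right; left
          intro k
          by_cases h1 : k = i
          · subst h1
            rw [Pi.add_apply, Pi.single_eq_same]
            omega
          · rw [Pi.add_apply, Pi.single_eq_of_ne h1]
            by_cases h2 : k = j
            · subst h2; omega
            · have := hk k h1 h2; omega
        · exfalso
          apply hc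
          have hf := hF.rng c
          have h2 : F (c - Pi.single j 0) = F c := by rw [Pi.single_zero, sub_zero]
          have h3 : G (c - Pi.single j 0 - Pi.single i (F c)) = 0 := by
            refine hG.out _ i hij ?_
            rw [Pi.single_zero, sub_zero, Pi.sub_apply, Pi.single_eq_same]
            omega
          have h4 : F (c - Pi.single j 0 - Pi.single i (F c) + Pi.single j 0) = F c := by
            refine hF.dep _ _ fun k hk => ?_
            rw [Pi.single_zero, sub_zero, add_zero, Pi.sub_apply, Pi.single_eq_of_ne hk, sub_zero]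
          rw [sk8_eval h1 h2 h3 h4, Pi.single_zero, sub_zero, add_zero, sub_add_cancel]
      · exfalso
        apply hc
        have h2 : F (c - Pi.single j 0) = 0 := by
          rw [Pi.single_zero, sub_zero]
          exact hF.out _ j hji hj
        have h3 : G (c - Pi.single j 0 - Pi.single i 0) = 0 := by
          rw [Pi.single_zero, Pi.single_zero, sub_zero, sub_zero]
          exact h1
        have h4 : F (c - Pi.single j 0 - Pi.single i 0 + Pi.single j 0) = 0 := by
          rw [Pi.single_zero, Pi.single_zero, sub_zero, sub_zero, add_zero]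
          exact hF.out _ j hji hj
        rw [sk8_eval h1 h2 h3 h4, Pi.single_zero, Pi.single_zero, sub_zero, sub_zero, add_zero,
          add_zero]
  · exfalso
    push Not at hk
    obtain ⟨k, hki, hkj, hk⟩ := hk
    have hk' : ¬ (p k ≤ c k ∧ c k < p k + R) := by
      rintro ⟨h1, h2⟩
      exact absurd (hk h1) (not_le.2 h2)
    have h1 : G c = 0 := hG.out _ k hkj hk'
    have h2 : F (c - Pi.single j 0) = 0 := by
      rw [Pi.single_zero, sub_zero]
      exact hF.out _ k hki hk'
    have h3 : G (c - Pi.single j 0 - Pi.single i 0) = 0 := by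
      rw [Pi.single_zero, Pi.single_zero, sub_zero, sub_zero]
      exact h1
    have h4 : F (c - Pi.single j 0 - Pi.single i 0 + Pi.single j 0) = 0 := by
      rw [Pi.single_zero, Pi.single_zero, sub_zero, sub_zero, add_zero]
      exact hF.out _ k hki hk'
    apply hc
    rw [sk8_eval h1 h2 h3 h4, Pi.single_zero, Pi.single_zero, sub_zero, sub_zero, add_zero,
      add_zero]

theorem sk8_one (hij : i ≠ j) (hr : 0 ≤ r) (hβ : β = R ∨ β = -R)
    (hF : sk8_P R r p i α F) (hG : sk8_P R r p j β G) (c : Fin 4 → ℤ) (hc : c ∈ icube p R r) :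
    sk8_q i j F G c = c + Pi.single i α := by
  have hji : j ≠ i := hij.symm
  have h1 : G c = β := hG.deep _ fun k _ => hc k
  have h2 : F (c - Pi.single j β) = 0 := by
    refine hF.out _ j hji ?_
    rw [Pi.sub_apply, Pi.single_eq_same]
    have := hc j
    omega
  have h3 : G (c - Pi.single j β - Pi.single i 0) = β := by
    rw [← h1]
    refine hG.dep _ _ fun k hk => ?_
    rw [Pi.single_zero, sub_zero, Pi.sub_apply, Pi.single_eq_of_ne hk, sub_zero]
  have h4 : F (c - Pi.single j β - Pi.single i 0 + Pi.single j β) = α := by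
    rw [Pi.single_zero, sub_zero, sub_add_cancel]
    exact hF.deep _ fun k _ => hc k
  rw [sk8_eval h1 h2 h3 h4, Pi.single_zero, sub_zero, sub_add_cancel]

theorem sk8_two (hij : i ≠ j) (hr : 0 ≤ r) (hα : α = R ∨ α = -R) (hβ : β = R ∨ β = -R)
    (hF : sk8_P R r p i α F) (hG : sk8_P R r p j β G) (c : Fin 4 → ℤ)
    (hc : c ∈ icube (p + Pi.single i α) R r) :
    sk8_q i j F G c = c - Pi.single i α + Pi.single j β := by
  have hji : j ≠ i := hij.symm
  have hci := hc i
  rw [Pi.add_apply, Pi.single_eq_same] at hci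
  have hck : ∀ k, k ≠ i → r ≤ c k - p k ∧ c k - p k + r < R := by
    intro k hk
    have := hc k
    rw [Pi.add_apply, Pi.single_eq_of_ne hk, add_zero] at this
    exact this
  have h1 : G c = 0 := by
    refine hG.out _ i hij ?_
    omega
  have h2 : F (c - Pi.single j 0) = α := by
    rw [Pi.single_zero, sub_zero]
    exact hF.deep _ hck
  have h3 : G (c - Pi.single j 0 - Pi.single i α) = β := by
    rw [Pi.single_zero, sub_zero]
    refine hG.deep _ fun k _ => ?_
    by_cases h : k = i
    · subst h
      rw [Pi.sub_apply, Pi.single_eq_same]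
      omega
    · rw [Pi.sub_apply, Pi.single_eq_of_ne h, sub_zero]
      exact hck k h
  have h4 : F (c - Pi.single j 0 - Pi.single i α + Pi.single j β) = 0 := by
    refine hF.out _ j hji ?_
    rw [Pi.single_zero, sub_zero, Pi.add_apply, Pi.sub_apply, Pi.single_eq_same,
      Pi.single_eq_of_ne hji, sub_zero]
    have := hck j hji
    omega
  rw [sk8_eval h1 h2 h3 h4, Pi.single_zero, sub_zero, Pi.single_zero, add_zero]

theorem sk8_three (hij : i ≠ j) (hr : 0 ≤ r) (hα : α = R ∨ α = -R)
    (hF : sk8_P R r p i α F) (hG : sk8_P R r p j β G) (c : Fin 4 → ℤ)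
    (hc : c ∈ icube (p + Pi.single j β) R r) :
    sk8_q i j F G c = c - Pi.single j β := by
  have hji : j ≠ i := hij.symm
  have hcj := hc j
  rw [Pi.add_apply, Pi.single_eq_same] at hcj
  have hck : ∀ k, k ≠ j → r ≤ c k - p k ∧ c k - p k + r < R := by
    intro k hk
    have := hc k
    rw [Pi.add_apply, Pi.single_eq_of_ne hk, add_zero] at this
    exact this
  have h1 : G c = β := hG.deep _ hck
  have h2 : F (c - Pi.single j β) = α := by
    refine hF.deep _ fun k _ => ?_
    by_cases h : k = j
    · subst h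
      rw [Pi.sub_apply, Pi.single_eq_same]
      omega
    · rw [Pi.sub_apply, Pi.single_eq_of_ne h, sub_zero]
      exact hck k h
  have h3 : G (c - Pi.single j β - Pi.single i α) = 0 := by
    refine hG.out _ i hij ?_
    rw [Pi.sub_apply, Pi.sub_apply, Pi.single_eq_same, Pi.single_eq_of_ne hij, sub_zero]
    have := hck i hij
    omega
  have h4 : F (c - Pi.single j β - Pi.single i α + Pi.single j 0) = α := by
    rw [← h2]
    refine hF.dep _ _ fun k hk => ?_
    rw [Pi.single_zero, add_zero, Pi.sub_apply, Pi.single_eq_of_ne hk, sub_zero]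
  rw [sk8_eval h1 h2 h3 h4, Pi.single_zero, add_zero, sub_add_cancel]

end Core

/-! ### The plateau functions -/

theorem sk8_pl_nonneg (κ : ℕ) (t : ℝ) : 0 ≤ pl κ t :=
  mul_nonneg (Real.smoothTransition.nonneg _) (Real.smoothTransition.nonneg _)

theorem sk8_pl_le_one (κ : ℕ) (t : ℝ) : pl κ t ≤ 1 :=
  mul_le_one₀ (Real.smoothTransition.le_one _) (Real.smoothTransition.nonneg _)
    (Real.smoothTransition.le_one _)

theorem sk8_pl_zero {κ : ℕ} {t : ℝ} (h : ¬ (0 < t ∧ t < 1)) : pl κ t = 0 := by
  have h2 : (0 : ℝ) < 2 ^ (κ + 1) := by positivity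
  unfold pl
  by_cases h0 : 0 < t
  · have h1 : 1 - t ≤ 0 := by
      by_contra hcon
      exact h ⟨h0, by linarith⟩
    rw [Real.smoothTransition.zero_of_nonpos (x := 2 ^ (κ + 1) * (1 - t) - 1) (by nlinarith),
      mul_zero]
  · rw [Real.smoothTransition.zero_of_nonpos (x := 2 ^ (κ + 1) * t - 1) (by nlinarith), zero_mul]

theorem sk8_pl_one {κ : ℕ} {t : ℝ} (h1 : 1 ≤ 2 ^ κ * t) (h2 : 1 ≤ 2 ^ κ * (1 - t)) :
    pl κ t = 1 := by
  unfold pl
  rw [Real.smoothTransition.one_of_one_le (x := 2 ^ (κ + 1) * t - 1) (by rw [pow_succ]; linarith),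
    Real.smoothTransition.one_of_one_le (x := 2 ^ (κ + 1) * (1 - t) - 1)
      (by rw [pow_succ]; linarith), mul_one]

theorem sk8_round {x y : ℝ} (h : x ≤ y) : round x ≤ round y := by
  rw [round_eq, round_eq]
  exact Int.floor_le_floor (by linarith)

/-- The rounded plateau function. -/
theorem sk8_pf (κ R : ℕ) (p : Fin 4 → ℤ) (j : Fin 4) (v : Bool) (hd : 2 ^ (κ + 1) ∣ R)
    (hR : 0 < R) :
    sk8_P (R : ℤ) ((R / 2 ^ κ : ℕ) : ℤ) p j (if v then (R : ℤ) else -(R : ℤ))
      (fun c => round (pf κ R (fun k => p k) j (sg v) (ctr c))) := by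
  have hR0 : (0 : ℝ) < R := by exact_mod_cast hR
  have hctr : ∀ (c : Fin 4 → ℤ) k, (ctr c) k = (c k : ℝ) + 1 / 2 := fun c k => rfl
  have hprod0 : ∀ c : Fin 4 → ℤ,
      0 ≤ ∏ k ∈ Finset.univ.erase j, pl κ (((ctr c) k - p k) / R) := fun c =>
    Finset.prod_nonneg fun k _ => sk8_pl_nonneg _ _
  have hprod1 : ∀ c : Fin 4 → ℤ,
      ∏ k ∈ Finset.univ.erase j, pl κ (((ctr c) k - p k) / R) ≤ 1 := fun c =>
    Finset.prod_le_one (fun k _ => sk8_pl_nonneg _ _) fun k _ => sk8_pl_le_one _ _
  refine ⟨?_, ?_, ?_, ?_⟩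
  · intro c c' h
    have h1 : ∏ k ∈ Finset.univ.erase j, pl κ (((ctr c) k - p k) / R) =
        ∏ k ∈ Finset.univ.erase j, pl κ (((ctr c') k - p k) / R) := by
      refine Finset.prod_congr rfl fun k hk => ?_
      rw [hctr, hctr, h k (Finset.ne_of_mem_erase hk)]
    simp only [pf]
    rw [h1]
  · intro c k hk hout
    have h1 : pl κ (((ctr c) k - p k) / R) = 0 := by
      refine sk8_pl_zero fun hcon => hout ?_
      obtain ⟨h2, h3⟩ := hcon
      rw [hctr] at h2 h3
      rw [div_lt_one hR0] at h3
      have h4 : 0 < (c k : ℝ) + 1 / 2 - p k := by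
        by_contra hneg
        exact absurd h2 (not_lt.2 (div_nonpos_of_nonpos_of_nonneg (not_lt.1 hneg) hR0.le))
      constructor
      · by_contra hlt
        have h5 : c k + 1 ≤ p k := by omega
        have h6 : (c k : ℝ) + 1 ≤ p k := by exact_mod_cast h5
        linarith
      · by_contra hge
        have h5 : p k + R ≤ c k := by omega
        have h6 : (p k : ℝ) + R ≤ c k := by exact_mod_cast h5
        linarith
    simp only [pf]
    rw [Finset.prod_eq_zero (Finset.mem_erase.2 ⟨hk, Finset.mem_univ k⟩) h1, mul_zero, round_zero]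
  · intro c
    have h0 := hprod0 c
    have h1 := hprod1 c
    simp only [pf]
    cases v with
    | true =>
      left
      simp only [sg, if_true, one_mul]
      have h2 : 0 ≤ (R : ℝ) * ∏ k ∈ Finset.univ.erase j, pl κ (((ctr c) k - p k) / R) :=
        mul_nonneg hR0.le h0
      have h3 : (R : ℝ) * ∏ k ∈ Finset.univ.erase j, pl κ (((ctr c) k - p k) / R) ≤ (R : ℤ) := by
        push_cast
        exact mul_le_of_le_one_right hR0.le h1
      constructor
      · rw [← round_zero (α := ℝ)]
        exact sk8_round h2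
      · rw [← round_intCast (α := ℝ) (R : ℤ)]
        exact sk8_round h3
    | false =>
      right
      simp only [sg, Bool.false_eq_true, if_false]
      have h2 : -1 * (R : ℝ) * ∏ k ∈ Finset.univ.erase j, pl κ (((ctr c) k - p k) / R) ≤ 0 := by
        have := mul_nonneg hR0.le h0
        linarith
      have h3 : ((-(R : ℤ) : ℤ) : ℝ) ≤
          -1 * (R : ℝ) * ∏ k ∈ Finset.univ.erase j, pl κ (((ctr c) k - p k) / R) := by
        push_cast
        have := mul_le_of_le_one_right hR0.le h1
        linarith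
      constructor
      · rw [← round_intCast (α := ℝ) (-(R : ℤ))]
        exact sk8_round h3
      · rw [← round_zero (α := ℝ)]
        exact sk8_round h2
  · intro c hdeep
    have hdiv : (2 ^ κ : ℝ) * ((R / 2 ^ κ : ℕ) : ℝ) = R := by
      have h1 : 2 ^ κ ∣ R := dvd_trans (pow_dvd_pow 2 (Nat.le_succ κ)) hd
      have h2 := Nat.mul_div_cancel' h1
      exact_mod_cast h2
    have h1 : ∏ k ∈ Finset.univ.erase j, pl κ (((ctr c) k - p k) / R) = 1 := by
      refine Finset.prod_eq_one fun k hk => ?_
      obtain ⟨h2, h3⟩ := hdeep k (Finset.ne_of_mem_erase hk)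
      have h4 : (((R / 2 ^ κ : ℕ) : ℤ) : ℝ) ≤ (c k : ℝ) - p k := by exact_mod_cast h2
      have h5 : c k - p k + ((R / 2 ^ κ : ℕ) : ℤ) + 1 ≤ R := by omega
      have h6 : (c k : ℝ) - p k + (((R / 2 ^ κ : ℕ) : ℤ) : ℝ) + 1 ≤ R := by exact_mod_cast h5
      rw [Int.cast_natCast] at h4 h6
      have hpow : (0 : ℝ) < 2 ^ κ := by positivity
      rw [hctr]
      refine sk8_pl_one ?_ ?_
      · rw [← mul_div_assoc, le_div_iff₀ hR0, one_mul]
        nlinarith
      · have h7 : (1 : ℝ) - ((c k : ℝ) + 1 / 2 - p k) / R = (R - ((c k : ℝ) + 1 / 2 - p k)) / R := by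
          field_simp
        rw [h7, ← mul_div_assoc, le_div_iff₀ hR0, one_mul]
        nlinarith
    simp only [pf]
    rw [h1, mul_one]
    cases v with
    | true =>
      simp only [sg, if_true, one_mul]
      exact round_natCast R
    | false =>
      simp only [sg, Bool.false_eq_true, if_false]
      have h2 : (-1 : ℝ) * R = ((-(R : ℤ) : ℤ) : ℝ) := by
        push_cast
        ring
      rw [h2, round_intCast]

theorem x3c : X3c := by
  intro κ R p i j u v hij hd hR m hm a b ha hb
  have hF := sk8_pf κ R p i u hd hR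
  have hG := sk8_pf κ R p j v hd hR
  have hRZ : (0 : ℤ) < R := by exact_mod_cast hR
  have hr : (0 : ℤ) ≤ ((R / 2 ^ κ : ℕ) : ℤ) := Int.natCast_nonneg _
  have hα : (if u then (R : ℤ) else -(R : ℤ)) = R ∨ (if u then (R : ℤ) else -(R : ℤ)) = -R := by
    cases u <;> simp
  have hβ : (if v then (R : ℤ) else -(R : ℤ)) = R ∨ (if v then (R : ℤ) else -(R : ℤ)) = -R := by
    cases v <;> simp
  have hmq : ∀ c, m c = sk8_q i j (fun c => round (pf κ R (fun k => p k) i (sg u) (ctr c)))
      (fun c => round (pf κ R (fun k => p k) j (sg v) (ctr c))) c := by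
    intro c
    rw [hm]
    rfl
  subst ha hb
  refine ⟨fun c hc => ?_, fun c hc => ?_, fun c hc => ?_, fun c hc => ?_⟩
  · rw [hmq] at hc
    exact sk8_out hij hRZ hα hβ hF hG c hc
  · rw [hmq]
    exact sk8_one hij hr hβ hF hG c hc
  · rw [hmq]
    exact sk8_two hij hr hα hβ hF hG c hc
  · rw [hmq]
    exact sk8_three hij hr hα hF hG c hc

end

end Pool.Agent.H6.ST
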