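import Pool.Agent.H6.ST.St
import Pool.Agent.H6.ST.CB.Defs
import Pool.Agent.H6.ST.LP.Defs

/-! # The sharp trichotomy (ST): lattice maps and their costs, definitions and statements -/

namespace Pool.Agent.H6.ST

open MeasureTheory Set Pool.Agent.H68.VD Pool.Agent.H68.GM
open scoped ENNReal ContDiff

noncomputable section

/-! ### Lattice maps -/

def SKmul : Prop := ∀ (L : ℕ) (θ : ℝ), 0 < θ → θ < 1 / 4 → ∀ F G σ τ, Stb L θ F σ → Stb L θ G τ →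
  Stb L θ (fun x => F (G x)) (σ * τ)

def SKinv : Prop := ∀ (L : ℕ) (θ : ℝ), 0 < θ → θ < 1 / 4 → ∀ F σ, Stb L θ F σ →
  Stb L θ (Function.invFun F) σ⁻¹

def SKcr : Prop := ∀ (L : ℕ) (θ : ℝ) F σ, Stb L θ F σ → CR θ (bigC L) F

def SKth : Prop := ∀ (s θ : ℝ) (ζ : ℝ → Eu 4 → Eu 4), 0 ≤ s → s < 1 → Blow s θ ζ → ∀ (L : ℕ) F σ,
  Stb L θ F σ → ∀ τ ≤ 0, Function.Bijective (Th ζ τ F) ∧
    (∀ y, Th ζ τ F y ∈ bigC L ↔ y ∈ bigC L) ∧ (∀ y ∉ innC L, Th ζ τ F y = y) ∧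
    ∀ y, Function.invFun (Th ζ τ F) y = Th ζ τ (Function.invFun F) y

/-- Local maps are lattice maps. -/
def SKloc : Prop := ∀ (L : ℕ) (θ : ℝ), 0 < θ → θ < 1 / 4 → ∀ (lo hi : Fin 4 → ℝ)
  (F : Eu 4 → Eu 4) (Φ : ℝ → Eu 4 → Eu 4), (∀ k, 1 ≤ lo k ∧ hi k ≤ (NN L : ℝ) - 1) →
  CPath (obox lo hi) F Φ → (∀ c : Fin 4 → ℤ, ∃ H, Contr (fun t => fderiv ℝ (Φ t) (ctr c)) H) →
  ∀ m : (Fin 4 → ℤ) → (Fin 4 → ℤ), (∀ c, ∀ x ∈ core θ c, F x = x + (iv (m c) - iv c)) →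
  ∃ σ : Equiv.Perm (Cell L), Stb L θ F σ ∧ ∀ i, pos (σ i) = m (pos i)

/-- The calculus of limit costs. -/
structure QCKit : Prop where
  one : ∀ (M : Type) [TopologicalSpace M] [T2Space M] [CompactSpace M] [Nonempty M]
    (ι : Type) [Fintype ι] (ch : ι → OpenPartialHomeomorph M (Eu 4)) (o : ι) (K : ι → Set (Eu 4)),
    Geo ch o K → ∀ (s θ : ℝ) (ζ : ℝ → Eu 4 → Eu 4), 0 ≤ s → s < 1 → Blow s θ ζ → ∀ L : ℕ,
    QC ch o K s ζ L id 0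
  mul : ∀ (M : Type) [TopologicalSpace M] [T2Space M] [CompactSpace M] [Nonempty M]
    (ι : Type) [Fintype ι] (ch : ι → OpenPartialHomeomorph M (Eu 4)) (o : ι) (K : ι → Set (Eu 4)),
    Geo ch o K → ∀ (s θ : ℝ) (ζ : ℝ → Eu 4 → Eu 4), 0 ≤ s → s < 1 → Blow s θ ζ → ∀ (L : ℕ)
    F G σ τ a b, Stb L θ F σ → Stb L θ G τ → QC ch o K s ζ L F a → QC ch o K s ζ L G b →
    QC ch o K s ζ L (fun x => F (G x)) (a + b)
  inv : ∀ (M : Type) [TopologicalSpace M] [T2Space M] [CompactSpace M] [Nonempty M]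
    (ι : Type) [Fintype ι] (ch : ι → OpenPartialHomeomorph M (Eu 4)) (o : ι) (K : ι → Set (Eu 4)),
    Geo ch o K → ∀ (s θ : ℝ) (ζ : ℝ → Eu 4 → Eu 4), 0 ≤ s → s < 1 → Blow s θ ζ → ∀ (L : ℕ)
    F σ a, Stb L θ F σ → QC ch o K s ζ L F a → QC ch o K s ζ L (Function.invFun F) a
  /-- Flat costs give limit costs. -/
  flat : ∀ (M : Type) [TopologicalSpace M] [T2Space M] [CompactSpace M] [Nonempty M]
    (ι : Type) [Fintype ι] (ch : ι → OpenPartialHomeomorph M (Eu 4)) (o : ι) (K : ι → Set (Eu 4)),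
    Geo ch o K → ∀ (s θ : ℝ) (ζ : ℝ → Eu 4 → Eu 4), 0 ≤ s → s < 1 → Blow s θ ζ → ∀ B : ℝ,
    ∃ C : ℝ, 0 ≤ C ∧ ∀ (L : ℕ) (lo hi : Fin 4 → ℝ) (d : ℝ), 0 < d →
    (∀ k, d ≤ lo k ∧ hi k ≤ (NN L : ℝ) - d) → hi 0 - lo 0 ≤ B * d → ∀ (F : Eu 4 → Eu 4) (b : ℝ),
    (∀ η : ℝ, 0 < η → ∃ τ₀ : ℝ, τ₀ ≤ 0 ∧ ∀ τ ≤ τ₀, FCost s (obox lo hi) (Th ζ τ F) (b + η)) →
    QC ch o K s ζ L F (C * (d / NN L) ^ (-((1 + s) / 2)) * (NN L : ℝ) ^ (-(5 - s)) * b)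

/-! ### Plateau functions, three-cycles of cubes -/

/-- A plateau function: it is `1` on `[2^{-κ}, 1 - 2^{-κ}]` and `0` outside of
`[2^{-κ-1}, 1 - 2^{-κ-1}]`. -/
def pl (κ : ℕ) (t : ℝ) : ℝ :=
  Real.smoothTransition (2 ^ (κ + 1) * t - 1) * Real.smoothTransition (2 ^ (κ + 1) * (1 - t) - 1)

/-- The plateau function of the cube with the corner `p` and the side `R`, times `ε R`, which does not
depend on `x_i`. -/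
def pf (κ : ℕ) (R : ℝ) (p : Fin 4 → ℝ) (i : Fin 4) (ε : ℝ) (x : Eu 4) : ℝ :=
  ε * R * ∏ k ∈ Finset.univ.erase i, pl κ ((x k - p k) / R)

/-- Sign and amplitudes. -/
def sg (u : Bool) : ℝ := if u then 1 else -1

def up (u : Bool) (R : ℕ) : ℕ := if u then R else 0

def dn (u : Bool) (R : ℕ) : ℕ := if u then 0 else R

/-- The corners of the support of the plateau functions. -/
def plo (κ R : ℕ) (p : Fin 4 → ℤ) (k : Fin 4) : ℤ := p k + (R / 2 ^ (κ + 1) : ℕ)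

def phi (κ R : ℕ) (p : Fin 4 → ℤ) (k : Fin 4) : ℤ := p k + R - (R / 2 ^ (κ + 1) : ℕ)

/-- The data of the commutator of plateau functions. -/
def X3a : Prop := ∀ κ : ℕ, ∃ B : ℝ, ∀ (R : ℕ) (p : Fin 4 → ℤ) (i j : Fin 4) (u v : Bool), i ≠ j →
  2 ^ (κ + 1) ∣ R → 0 < R →
  CG i j (pf κ R (fun k => p k) i (sg u)) (pf κ R (fun k => p k) j (sg v))
    (fun k => plo κ R p k) (fun k => phi κ R p k) (dn u R) (up u R) (dn v R) (up v R) ∧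
  ∀ x, ‖fderiv ℝ (pf κ R (fun k => p k) i (sg u)) x‖ ≤ B ∧
    ‖fderiv ℝ (pf κ R (fun k => p k) j (sg v)) x‖ ≤ B ∧
    ‖fderiv ℝ (fderiv ℝ (pf κ R (fun k => p k) i (sg u))) x‖ ≤ B ∧
    ‖fderiv ℝ (fderiv ℝ (pf κ R (fun k => p k) j (sg v))) x‖ ≤ B

/-- The flat cost of the commutator of plateau functions. -/
def X3b : Prop := ∀ (s : ℝ), 0 ≤ s → s < 1 → ∀ κ : ℕ, ∃ C : ℝ, 0 ≤ C ∧ ∀ (R : ℕ) (p : Fin 4 → ℤ)
  (i j : Fin 4) (u v : Bool), i ≠ j → 2 ^ (κ + 1) ∣ R → 0 < R →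
  FCost s (obox (fun k => cLo i j (fun k => plo κ R p k) (dn u R) (dn v R) k - 1)
    (fun k => cHi i j (fun k => phi κ R p k) (up u R) (up v R) k + 1))
    (comm i j (pf κ R (fun k => p k) i (sg u)) (pf κ R (fun k => p k) j (sg v)))
    (C * (R : ℝ) ^ (5 - s))

/-- The integer cube with the corner `p` and the side `R`, and the part at distance `r` from the faces. -/
def icube (p : Fin 4 → ℤ) (R r : ℤ) : Set (Fin 4 → ℤ) :=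
  {c | ∀ k, r ≤ c k - p k ∧ c k - p k + r < R}

/-- The integer map of the commutator of plateau functions. -/
def X3c : Prop := ∀ (κ R : ℕ) (p : Fin 4 → ℤ) (i j : Fin 4) (u v : Bool), i ≠ j →
  2 ^ (κ + 1) ∣ R → 0 < R → ∀ (m : (Fin 4 → ℤ) → (Fin 4 → ℤ)),
  m = qmap i j (pf κ R (fun k => p k) i (sg u)) (pf κ R (fun k => p k) j (sg v)) →
  ∀ (a b : Fin 4 → ℤ), a = Pi.single i (if u then (R : ℤ) else -(R : ℤ)) →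
  b = Pi.single j (if v then (R : ℤ) else -(R : ℤ)) →
  (∀ c, m c ≠ c → c ∈ icube p R 0 ∨ c ∈ icube (p + a) R 0 ∨ c ∈ icube (p + b) R 0) ∧
  (∀ c ∈ icube p R (R / 2 ^ κ : ℕ), m c = c + a) ∧
  (∀ c ∈ icube (p + a) R (R / 2 ^ κ : ℕ), m c = c - a + b) ∧
  (∀ c ∈ icube (p + b) R (R / 2 ^ κ : ℕ), m c = c - b)

/-- The swap of adjacent cells, and the cycles of cubes, with costs. -/
def PCswap : Prop := ∀ (M : Type) [TopologicalSpace M] [T2Space M] [CompactSpace M] [Nonempty M]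
  (ι : Type) [Fintype ι] (ch : ι → OpenPartialHomeomorph M (Eu 4)) (o : ι) (K : ι → Set (Eu 4)),
  Geo ch o K → ∀ (s θ : ℝ) (ζ : ℝ → Eu 4 → Eu 4), 0 ≤ s → s < 1 → Blow s θ ζ →
  ∃ C0 : ℝ, 0 ≤ C0 ∧ ∀ (L : ℕ) (x y : Cell L),
    (∃ k, (y k : ℕ) = x k + 1 ∧ ∀ m, m ≠ k → y m = x m) → ∃ F, Stb L θ F (Equiv.swap x y) ∧
    QC ch o K s ζ L F (C0 * wt ((1 + s) / 2) L (fun k => x k) * (2 ^ L : ℝ) ^ (-(5 - s)))

def PCtri : Prop := ∀ (M : Type) [TopologicalSpace M] [T2Space M] [CompactSpace M] [Nonempty M]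
  (ι : Type) [Fintype ι] (ch : ι → OpenPartialHomeomorph M (Eu 4)) (o : ι) (K : ι → Set (Eu 4)),
  Geo ch o K → ∀ (s θ : ℝ) (ζ : ℝ → Eu 4 → Eu 4), 0 ≤ s → s < 1 → Blow s θ ζ → ∀ κ : ℕ,
  ∃ Ck : ℝ, 0 ≤ Ck ∧ ∀ (L l : ℕ), l + κ + 4 ≤ L → ∀ (d₁ d₂ d₃ : Fin 4 → ℕ) (i j : Fin 4), i ≠ j →
    (∀ k, d₁ k < 2 ^ l ∧ d₂ k < 2 ^ l ∧ d₃ k < 2 ^ l) →
    ((d₂ i = d₁ i + 1 ∨ d₂ i + 1 = d₁ i) ∧ ∀ m, m ≠ i → d₂ m = d₁ m) →
    ((d₃ j = d₁ j + 1 ∨ d₃ j + 1 = d₁ j) ∧ ∀ m, m ≠ j → d₃ m = d₁ m) →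
    ∃ σ : Equiv.Perm (Cell L), (∃ F, Stb L θ F σ ∧
        QC ch o K s ζ L F (Ck * wt ((1 + s) / 2) l d₁ * (2 ^ l : ℝ) ^ (-(5 - s)))) ∧
      (∀ x, σ x ≠ x → cubeOf l x = d₁ ∨ cubeOf l x = d₂ ∨ cubeOf l x = d₃) ∧
      (∀ x, cubeOf l x = d₁ → Deep l (2 ^ (L - l - κ)) x →
        cubeOf l (σ x) = d₂ ∧ ∀ k, (σ x k : ℕ) % 2 ^ (L - l) = (x k : ℕ) % 2 ^ (L - l)) ∧
      (∀ x, cubeOf l x = d₂ → Deep l (2 ^ (L - l - κ)) x →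
        cubeOf l (σ x) = d₃ ∧ ∀ k, (σ x k : ℕ) % 2 ^ (L - l) = (x k : ℕ) % 2 ^ (L - l)) ∧
      (∀ x, cubeOf l x = d₃ → Deep l (2 ^ (L - l - κ)) x →
        cubeOf l (σ x) = d₁ ∧ ∀ k, (σ x k : ℕ) % 2 ^ (L - l) = (x k : ℕ) % 2 ^ (L - l))

/-- The path of commutators. -/
def CommPath : Prop := ∀ (i j : Fin 4) (f g : Eu 4 → ℝ) (lo hi : Fin 4 → ℝ) (Fm Fp Gm Gp r : ℝ),
  CG i j f g lo hi Fm Fp Gm Gp → 0 < r →
  CPath (obox (fun k => cLo i j lo Fm Gm k - r) (fun k => cHi i j hi Fp Gp k + r)) (comm i j f g)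
    (fun t => comm i j (fun x => Real.smoothTransition t * f x) g)

/-- The speed of a path is bounded. -/
def FEbd : Prop := ∀ (n : ℕ) (s : ℝ) (U : Set (Eu n)) (f : Eu n → Eu n) (Φ : ℝ → Eu n → Eu n),
  0 ≤ s → s < 1 → CPath U f Φ → ∃ C : ℝ, 0 ≤ C ∧
  ∀ t ∈ Set.Icc (0 : ℝ) 1, FE s (vel Φ t) ≤ ENNReal.ofReal C

/-- Composition of approximated maps. -/
def PPmul : Prop := ∀ (M : Type) [TopologicalSpace M] [T2Space M] [CompactSpace M] [Nonempty M]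
  (ι : Type) [Fintype ι] (ch : ι → OpenPartialHomeomorph M (Eu 4)) (o : ι) (K : ι → Set (Eu 4)),
  Geo ch o K → ∀ (s θ : ℝ) (ζ : ℝ → Eu 4 → Eu 4), 0 ≤ s → s < 1 → Blow s θ ζ →
  ∀ f g, PP ch o K s θ ζ f → PP ch o K s θ ζ g → PP ch o K s θ ζ (fun x => f (g x))

/-- Commutators are approximated by lattice maps. -/
def PPgen : Prop := ∀ (M : Type) [TopologicalSpace M] [T2Space M] [CompactSpace M] [Nonempty M]
  (ι : Type) [Fintype ι] (ch : ι → OpenPartialHomeomorph M (Eu 4)) (o : ι) (K : ι → Set (Eu 4)),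
  Geo ch o K → ∀ (s θ : ℝ) (ζ : ℝ → Eu 4 → Eu 4), 0 ≤ s → s < 1 → Blow s θ ζ →
  ∀ i j f g, GU i j f g → PP ch o K s θ ζ (extM ch o (comm i j f g))

end

end Pool.Agent.H6.ST
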