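import Pool.Agent.H6.ST.SK.Defs
import Pool.Agent.H68.GM.MFamK

/-! # The sharp trichotomy (ST): compositions of approximated maps -/

namespace Pool.Agent.H6.ST

open MeasureTheory Set Pool.Agent.H68.VD Pool.Agent.H68.GM
open scoped ENNReal ContDiff

noncomputable section

theorem ppm_cost_mono {n : ℕ} {M : Type} [TopologicalSpace M] [Nonempty M] {ι : Type}
    {ch : ι → OpenPartialHomeomorph M (Eu n)} {N : (ι → Eu n → Eu n) → ℝ≥0∞} {f : M → M} {a b : ℝ}
    (hab : a ≤ b) (h : MCost ch N f a) : MCost ch N f b := by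
  obtain ⟨φ, l, h1, h2, h3, h4, h5, h6, h7⟩ := h
  exact ⟨φ, l, h1, h2, h3, h4, h5, h6, h7.trans hab⟩

theorem ppm_ext_id {n : ℕ} {M : Type} [TopologicalSpace M] {ι : Type}
    (ch : ι → OpenPartialHomeomorph M (Eu n)) (i : ι) (x : M) : extM ch i (fun y => y) x = x := by
  unfold extM
  split_ifs with h
  · exact (ch i).left_inv h
  · rfl

theorem ppm_NN (L : ℕ) : 0 < NN L := by
  unfold NN
  positivity

theorem ppm_box (L : ℕ) (x : Eu 4) :
    x ∈ obox (fun _ : Fin 4 => (0 : ℝ)) (fun _ => 1) ↔ ((NN L : ℕ) : ℝ) • x ∈ bigC L := by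
  have hN : (0 : ℝ) < ((NN L : ℕ) : ℝ) := by
    exact_mod_cast ppm_NN L
  unfold bigC obox
  simp only [Set.mem_ofPred_eq, PiLp.smul_apply, smul_eq_mul]
  refine forall_congr' fun k => ?_
  constructor
  · rintro ⟨h1, h2⟩
    exact ⟨mul_pos hN h1, by nlinarith⟩
  · rintro ⟨h1, h2⟩
    refine ⟨?_, ?_⟩
    · by_contra h
      push Not at h
      nlinarith
    · by_contra h
      push Not at h
      nlinarith

theorem ppm_pres (L : ℕ) (P : Eu 4 → Eu 4) (hP : ∀ y, P y ∈ bigC L ↔ y ∈ bigC L) (y : Eu 4)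
    (hy : y ∈ obox (fun _ : Fin 4 => (0 : ℝ)) (fun _ => 1)) :
    ((NN L : ℕ) : ℝ)⁻¹ • P (((NN L : ℕ) : ℝ) • y) ∈ obox (fun _ : Fin 4 => (0 : ℝ)) (fun _ => 1) := by
  have hN : ((NN L : ℕ) : ℝ) ≠ 0 := by
    exact_mod_cast (ppm_NN L).ne'
  rw [ppm_box L, smul_smul, mul_inv_cancel₀ hN, one_smul, hP, ← ppm_box L]
  exact hy

theorem ppm_toM_comp (hX : XKit) {M : Type} [TopologicalSpace M] {ι : Type}
    (ch : ι → OpenPartialHomeomorph M (Eu 4)) (o : ι)
    (ht : (ch o).target = obox (fun _ => 0) (fun _ => 1)) (L : ℕ) (P Q : Eu 4 → Eu 4)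
    (hQ : ∀ y, Q y ∈ bigC L ↔ y ∈ bigC L) (x : M) :
    toM ch o (NN L) (fun x => P (Q x)) x = toM ch o (NN L) P (toM ch o (NN L) Q x) := by
  have hN : ((NN L : ℕ) : ℝ) ≠ 0 := by
    exact_mod_cast (ppm_NN L).ne'
  unfold toM
  rw [← hX.comp 4 M ι ch o]
  · congr 1
    funext y
    rw [smul_smul, mul_inv_cancel₀ hN, one_smul]
  · intro y hy
    rw [ht] at hy ⊢
    exact ppm_pres L Q hQ y hy

theorem ppm_toM_id {M : Type} [TopologicalSpace M] {ι : Type}
    (ch : ι → OpenPartialHomeomorph M (Eu 4)) (o : ι) (L : ℕ) (x : M) :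
    toM ch o (NN L) (fun y => y) x = x := by
  have hN : ((NN L : ℕ) : ℝ) ≠ 0 := by
    exact_mod_cast (ppm_NN L).ne'
  unfold toM
  have : (fun x : Eu 4 => ((NN L : ℕ) : ℝ)⁻¹ • ((NN L : ℕ) : ℝ) • x) = fun y => y := by
    funext y
    rw [smul_smul, inv_mul_cancel₀ hN, one_smul]
  rw [this]
  exact ppm_ext_id ch o x

theorem ppm_toM_bij (hX : XKit) {M : Type} [TopologicalSpace M] {ι : Type}
    (ch : ι → OpenPartialHomeomorph M (Eu 4)) (o : ι)
    (ht : (ch o).target = obox (fun _ => 0) (fun _ => 1)) (L : ℕ) (P : Eu 4 → Eu 4)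
    (hb : Function.Bijective P) (hP : ∀ y, P y ∈ bigC L ↔ y ∈ bigC L) :
    Function.Bijective (toM ch o (NN L) P) := by
  have h1 : ∀ y, P (Function.invFun P y) = y := fun y => Function.rightInverse_invFun hb.2 y
  have h2 : ∀ y, Function.invFun P (P y) = y := fun y => Function.leftInverse_invFun hb.1 y
  have hP' : ∀ y, Function.invFun P y ∈ bigC L ↔ y ∈ bigC L := by
    intro y
    rw [← hP (Function.invFun P y), h1]
  refine Function.bijective_iff_has_inverse.2 ⟨toM ch o (NN L) (Function.invFun P), fun x => ?_,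
    fun x => ?_⟩
  · rw [← ppm_toM_comp hX ch o ht L (Function.invFun P) P hP]
    simp only [h2]
    exact ppm_toM_id ch o L x
  · rw [← ppm_toM_comp hX ch o ht L P (Function.invFun P) hP']
    simp only [h1]
    exact ppm_toM_id ch o L x

theorem ppm_inv_comp {M : Type} [Nonempty M] (A B : M → M) (hA : Function.Bijective A)
    (hB : Function.Bijective B) (x : M) :
    Function.invFun (fun x => A (B x)) x = Function.invFun B (Function.invFun A x) := by
  have hAB : Function.Bijective (fun x => A (B x)) := hA.comp hB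
  apply hAB.1
  have h1 := Function.rightInverse_invFun hAB.2 x
  have h2 := Function.rightInverse_invFun hA.2 x
  have h3 := Function.rightInverse_invFun hB.2 (Function.invFun A x)
  refine Eq.trans h1 ?_
  show x = A (B (Function.invFun B (Function.invFun A x)))
  rw [h3, h2]

theorem pp_mul (hE : EKit) (hX : XKit) (hS : SKth) (hm : SKmul) : PPmul := by
  intro M _ _ _ _ ι _ ch o K hG s θ ζ hs0 hs1 hB f g hf hg
  obtain ⟨hfI, hfA⟩ := hf
  obtain ⟨hgI, hgA⟩ := hg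
  obtain ⟨φ, hφ, hφ0, hφ1⟩ := hfI
  obtain ⟨ψ, hψ, hψ0, hψ1⟩ := hgI
  have hfb : Function.Bijective f := by
    rw [← hφ1]; exact hφ.bij 1
  refine ⟨⟨fun t x => φ t (ψ t x), mFamKit.comp 4 M ι ch hG.vol ℝ φ ψ hφ hψ, ?_, ?_⟩, ?_⟩
  · funext x
    simp [hφ0, hψ0]
  · funext x
    simp [hφ1, hψ1]
  obtain ⟨C, hC0, hC⟩ := hE.conj 4 M ι ch hG.vol K hG.cov s hs0 hs1 φ hφ
  intro η hη
  obtain ⟨L₁, h₁⟩ := hfA (η / 2) (by positivity)
  obtain ⟨L₂, h₂⟩ := hgA (η / (2 * (C + 1))) (by positivity)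
  refine ⟨max L₁ L₂, fun L hL => ?_⟩
  obtain ⟨F, σ, hF, hFc⟩ := h₁ L ((le_max_left _ _).trans hL)
  obtain ⟨G, τ', hGs, hGc⟩ := h₂ L ((le_max_right _ _).trans hL)
  refine ⟨fun x => F (G x), σ * τ', hm L θ hB.pos hB.lt F G σ τ' hF hGs, fun τ hτ => ?_⟩
  obtain ⟨hFb, hFp, -, -⟩ := hS s θ ζ hs0 hs1 hB L F σ hF τ hτ
  obtain ⟨hGb, hGp, -, -⟩ := hS s θ ζ hs0 hs1 hB L G τ' hGs τ hτ
  have hTh : Th ζ τ (fun x => F (G x)) = fun x => Th ζ τ F (Th ζ τ G x) := by
    funext x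
    unfold Th
    rw [← hB.add, neg_add_cancel, hB.zero]
  have hAb := ppm_toM_bij hX ch o hG.tgt L _ hFb hFp
  have hBb := ppm_toM_bij hX ch o hG.tgt L _ hGb hGp
  have hto : toM ch o (NN L) (Th ζ τ (fun x => F (G x))) =
      fun x => toM ch o (NN L) (Th ζ τ F) (toM ch o (NN L) (Th ζ τ G) x) := by
    funext x
    rw [hTh]
    exact ppm_toM_comp hX ch o hG.tgt L _ _ hGp x
  have c1 := hC 1 ⟨zero_le_one, le_refl _⟩ _ _ (hGc τ hτ)
  have c2 := hE.comp 4 M ι ch hG.vol K hG.cov s hs0 hs1 _ _ _ _ c1 (hFc τ hτ)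
  have heq : (fun x => f (g (Function.invFun (toM ch o (NN L) (Th ζ τ (fun x => F (G x)))) x))) =
      fun x => φ 1 (g (Function.invFun (toM ch o (NN L) (Th ζ τ G))
        (Function.invFun (φ 1) (f (Function.invFun (toM ch o (NN L) (Th ζ τ F)) x))))) := by
    funext x
    rw [hto, ppm_inv_comp _ _ hAb hBb, hφ1, Function.leftInverse_invFun hfb.1]
  have c3 : MCost ch (EM K s)
      (fun x => f (g (Function.invFun (toM ch o (NN L) (Th ζ τ (fun x => F (G x)))) x)))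
      (C * (η / (2 * (C + 1))) + η / 2) := by
    rw [heq]
    exact c2
  refine ppm_cost_mono ?_ c3
  have h5 : C * (η / (2 * (C + 1))) ≤ η / 2 := by
    rw [← mul_div_assoc, div_le_div_iff₀ (by positivity) (by positivity)]
    nlinarith
  linarith

end

end Pool.Agent.H6.ST
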